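import Pool.Agent.Run7.h770.PG.Chn
set_option autoImplicit false

/-!
The regulator integral of the symbol itself is large.
-/

namespace Pool.Agent.Run7.h770.PG

open Pool.Agent.Run7.h770.UB (gg Sm it it_congr PP prK pr_estimate rep_congr Rep.inv')

open Pool.Agent.W367.KT

/-- one step for the representation of the function `x` -/
theorem rep_step {N : ℂ} {Q D R : ℝ} (hR : 0 < R) {x y : ℝ → ℂ} (h : Unf N Q D x y) (hx : PP x)
    {c : ℂ} {M : ℤ} {A0 A1 : ℝ} (hr : Rep R x c M A0 A1) :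
    Rep R (fun t => gg N (x t)) (-(c * c)) (M + M) (A0 + A0 + 2) (A1 + A1 + D) := by
  have hN := h.hN
  have hN0 : 0 < ‖N‖ := by linarith
  have hNne : N ≠ 0 := norm_pos_iff.1 hN0
  have px := hx.per 0
  rw [zero_add] at px
  have hsm : ContDiff ℝ 1 x := hx.smooth.of_le (by norm_num)
  have hin : ‖N‖⁻¹ ≤ 1 / 10 ^ 6 := by
    rw [inv_le_comm₀ hN0 (by norm_num)]
    linarith
  have a1 : Rep R (fun t => 1 - N⁻¹ * x t) 1 0 1 (2 * (D / 1000)) := by
    refine rep_near (contDiff_const.sub (contDiff_const.mul hsm)) ?_ (fun t => ?_) fun t => ?_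
    · simp only [px]
    · rw [sub_sub_cancel_left, norm_neg, norm_mul, norm_inv, inv_mul_le_iff₀ hN0]
      linarith [(h.size t).2]
    · obtain ⟨δ, hδ, hδ2⟩ := h.d t
      rw [((hδ.const_mul N⁻¹).const_sub 1).deriv, norm_neg, norm_mul, norm_inv,
        inv_mul_le_iff₀ hN0]
      have h1 : D * ‖x t‖ ≤ D * (‖N‖ / 1000) :=
        mul_le_mul_of_nonneg_left (by linarith [(h.size t).2]) h.hD
      linarith
  have a2 : Rep R (fun t => 1 - N⁻¹ * (x t)⁻¹) 1 0 1 (2 * (D / 1000)) := by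
    refine rep_near (A := fun t => 1 - N⁻¹ * (x t)⁻¹)
      (contDiff_const.sub (contDiff_const.mul (hsm.inv hx.ne))) ?_ (fun t => ?_) fun t => ?_
    · simp only [px]
    · have h0 : 0 < ‖x t‖ := by linarith [(h.size t).1]
      rw [sub_sub_cancel_left, norm_neg, norm_mul, norm_inv, norm_inv]
      have h1 : ‖x t‖⁻¹ ≤ 1 := inv_le_one_of_one_le₀ (by linarith [(h.size t).1])
      have h2 : 0 ≤ ‖x t‖⁻¹ := by positivity
      have h3 : 0 ≤ ‖N‖⁻¹ := by positivity
      nlinarith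
    · obtain ⟨δ, hδ, hδ2⟩ := h.d t
      have h0 : 0 < ‖x t‖ := by linarith [(h.size t).1]
      have hd : HasDerivAt (fun t => 1 - N⁻¹ * (x t)⁻¹) (-(N⁻¹ * (-δ / x t ^ 2))) t :=
        ((hδ.inv (hx.ne t)).const_mul N⁻¹).const_sub 1
      rw [hd.deriv, norm_neg, norm_mul, norm_div, norm_neg, norm_pow, norm_inv]
      have h1 : ‖δ‖ / ‖x t‖ ^ 2 ≤ D := by
        rw [div_le_iff₀ (by positivity)]
        have h2 : D * ‖x t‖ ≤ D * ‖x t‖ ^ 2 :=
          mul_le_mul_of_nonneg_left (by nlinarith [(h.size t).1]) h.hD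
        linarith
      have h3 : 0 ≤ ‖δ‖ / ‖x t‖ ^ 2 := by positivity
      calc ‖N‖⁻¹ * (‖δ‖ / ‖x t‖ ^ 2) ≤ 1 / 10 ^ 6 * D :=
            mul_le_mul hin h1 h3 (by norm_num)
        _ ≤ D / 1000 := by linarith [h.hD]
  have r := ((((Rep.const R (-1)).mul hR hr).mul hR hr).mul hR a2).mul hR (Rep.inv' a1)
  refine rep_congr r (fun t => ?_) (by ring) (by ring) (by linarith) (by linarith [h.hD])
  have h0 : 0 < ‖x t‖ := by linarith [(h.size t).1]
  have hx0 : x t ≠ 0 := hx.ne t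
  obtain ⟨b1, b2⟩ := size_b (h.size t).1 (h.size t).2 hN
  have h3 : x t - N ≠ 0 := norm_pos_iff.1 (by linarith)
  have h4 : 1 - N⁻¹ * x t ≠ 0 := by
    intro h5
    apply h3
    have h6 : N * (1 - N⁻¹ * x t) = 0 := by rw [h5, mul_zero]
    rw [mul_sub, mul_one, mul_inv_cancel_left₀ hNne] at h6
    linear_combination -h6
  have h5 : x t - N = -N * (1 - N⁻¹ * x t) := by
    field_simp
    ring
  unfold gg
  rw [h5]
  generalize hv : 1 - N⁻¹ * x t = v at *
  field_simp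

section chain

variable {N : ℕ → ℂ} (hrel : ∀ i, N (i + 1) ^ 2 + 1 = 2 * N i ^ 2 * N (i + 1))
  (hN1 : ∀ i, 1 ≤ ‖N i‖) {R : ℝ} {y : ℝ → ℂ} (h : Unf (N 0) 64 7 (circ R) y)

include hrel hN1 h

set_option linter.unusedSectionVars false

theorem rep_all (hR : 0 < R) (hx : ∀ i, PP (fun t => it N (circ R t) i)) (i : ℕ) : ∃ c A0, c ≠ 0 ∧
    Rep R (fun t => it N (circ R t) i) c (2 ^ i) A0 (7 * 3 ^ i) := by
  induction i with
  | zero =>
    refine ⟨1, 0, one_ne_zero, rep_congr (Rep.x R) (fun t => rfl) rfl (by norm_num) le_rfl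
      (by norm_num)⟩
  | succ i ih =>
    obtain ⟨c, A0, hc, hr⟩ := ih
    have h1 := rep_step hR (unf_all hrel hN1 h i) (hx i) hr
    refine ⟨-(c * c), _, neg_ne_zero.2 (mul_ne_zero hc hc), rep_congr h1 (fun t => rfl) rfl
      (by ring) le_rfl (le_of_eq (by ring))⟩

theorem norm_pow_le (i : ℕ) : ‖N 0‖ ^ 2 ^ i ≤ ‖N i‖ := by
  induction i with
  | zero => simp
  | succ i ih =>
    have h1 := (next_size (hrel i) (hN1 (i + 1))).1
    have h2 : (‖N 0‖ ^ 2 ^ i) ^ 2 ≤ ‖N i‖ ^ 2 := pow_le_pow_left₀ (by positivity) ih 2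
    rw [pow_succ, pow_mul]
    have := hN1 i
    nlinarith

/-- The regulator integral of the symbol itself is large. -/
theorem prK_big (hR : 0 < R) (hx : ∀ i, PP (fun t => it N (circ R t) i))
    (hy : ∀ i, PP (fun t => it N (y t) i)) (S : ℕ) :
    (2 : ℝ) ^ S < |prK (fun t => it N (circ R t) S) (fun t => it N (y t) S)| := by
  obtain ⟨c, A0, hc, hr⟩ := rep_all hrel hN1 h hR hx S
  have hU := unf_all hrel hN1 h S
  have hN := hU.hN
  have hN0 : 0 < ‖N S‖ := by linarith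
  have hNne : N S ≠ 0 := norm_pos_iff.1 hN0
  have h2N : (2 * N S) ≠ 0 := mul_ne_zero two_ne_zero hNne
  have py := (hy S).per 0
  rw [zero_add] at py
  have hyn : ∀ t, ‖(2 * N S)⁻¹ * it N (y t) S - 1‖ ≤ 1 / 1000 := by
    intro t
    have hs := hU.s t
    unfold Sm at hs
    have hX := hU.size t
    have hY := hU.y1 t
    have hy0 : 0 < ‖it N (y t) S‖ := lt_of_lt_of_le hN0 hY
    have hx0 : 0 < ‖it N (circ R t) S‖ := by linarith [hX.1]
    have e1 : (2 * N S)⁻¹ * it N (y t) S - 1 = (2 * N S)⁻¹ * (2 * (N S)⁻¹ - it N (circ R t) S -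
        (it N (circ R t) S)⁻¹ - (it N (y t) S)⁻¹) := by
      have h3 : it N (y t) S = 2 * N S + (2 * (N S)⁻¹ - it N (circ R t) S -
        (it N (circ R t) S)⁻¹ - (it N (y t) S)⁻¹) := by linear_combination hs
      conv_lhs => rw [h3]
      rw [mul_add, inv_mul_cancel₀ h2N]
      ring
    have g1 : ‖(it N (circ R t) S)⁻¹‖ ≤ 1 := by
      rw [norm_inv]
      exact inv_le_one_of_one_le₀ (by linarith [hX.1])
    have g2 : ‖(it N (y t) S)⁻¹‖ ≤ 1 := by
      rw [norm_inv]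
      exact inv_le_one_of_one_le₀ (by linarith)
    have g3 : ‖2 * (N S)⁻¹‖ ≤ 1 := by
      rw [norm_mul, norm_inv, Complex.norm_ofNat]
      have : ‖N S‖⁻¹ ≤ 1 / 2 := by
        rw [inv_le_comm₀ hN0 (by norm_num)]
        linarith
      linarith
    have g5 : ‖2 * (N S)⁻¹ - it N (circ R t) S - (it N (circ R t) S)⁻¹ - (it N (y t) S)⁻¹‖ ≤
        ‖2 * (N S)⁻¹‖ + ‖it N (circ R t) S‖ + ‖(it N (circ R t) S)⁻¹‖ +
          ‖(it N (y t) S)⁻¹‖ := by
      refine (norm_sub_le _ _).trans (add_le_add_left ?_ _)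
      refine (norm_sub_le _ _).trans (add_le_add_left ?_ _)
      exact norm_sub_le _ _
    rw [e1, norm_mul, norm_inv, norm_mul, Complex.norm_ofNat, inv_mul_le_iff₀ (by positivity)]
    linarith [hX.2]
  have r1 : Rep' R (fun t => (2 * N S)⁻¹ * it N (y t) S) 1 0 (3 / 2 * (1 / 1000)) := by
    refine Rep'.near_one (contDiff_const.mul ((hy S).smooth.of_le (by norm_num))) ?_
      (by norm_num) hyn
    simp only [py]
  have r2 : Rep' R (fun t => it N (y t) S) (2 * N S) 0 (3 / 2 * (1 / 1000)) := by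
    obtain ⟨α, a1, a2, a3, a4⟩ := r1
    refine ⟨α, a1, a2, fun t => ?_, a4⟩
    have h := a3 t
    dsimp only at h
    rw [one_mul] at h
    rw [mul_assoc, ← h, mul_inv_cancel_left₀ h2N]
  have he := pr_estimate hR hc h2N (2 ^ S) 0 hr r2
  simp only [Int.cast_zero, zero_mul, mul_zero, abs_zero, add_zero, zero_sub] at he
  push_cast at he
  have hlog : (2 : ℝ) ^ S ≤ Real.log ‖2 * N S‖ := by
    have h1 : Real.log ‖N 0‖ * 2 ^ S ≤ Real.log ‖N S‖ := by
      have h2 := Real.log_le_log (by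
        have := h.hN
        positivity) (norm_pow_le hrel hN1 h S)
      rw [Real.log_pow] at h2
      push_cast at h2
      linarith
    have h2 : 1 ≤ Real.log ‖N 0‖ := by
      rw [Real.le_log_iff_exp_le (by linarith [h.hN])]
      linarith [Real.exp_one_lt_d9, h.hN]
    have h3 : Real.log ‖N S‖ ≤ Real.log ‖2 * N S‖ := by
      apply Real.log_le_log hN0
      rw [norm_mul, Complex.norm_ofNat]
      linarith
    have h4 : (0 : ℝ) < 2 ^ S := by positivity
    nlinarith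
  have hS0 : (1 : ℝ) ≤ 2 ^ S := one_le_pow₀ (by norm_num)
  have h34 : (3 : ℝ) ^ S ≤ 2 ^ S * 2 ^ S := by
    rw [← mul_pow]
    exact pow_le_pow_left₀ (by norm_num) (by norm_num) S
  rw [abs_of_pos (by positivity : (0 : ℝ) < 2 ^ S)] at he
  rw [abs_le] at he
  have hpi := Real.pi_gt_three
  have hpi4 := Real.pi_lt_four
  set L := Real.log ‖2 * N S‖ with hL
  have hprod : (2 : ℝ) ^ S * 2 ^ S ≤ 2 ^ S * L := mul_le_mul_of_nonneg_left hlog (by positivity)
  have hneg : prK (fun t => it N (circ R t) S) (fun t => it N (y t) S) < -2 ^ S := by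
    have k1 := he.2
    have k2 : 2 * 3 * (2 ^ S * L) ≤ 2 * Real.pi * (2 ^ S * L) := by
      apply mul_le_mul_of_nonneg_right (by linarith)
      have : (0 : ℝ) ≤ L := by linarith
      positivity
    nlinarith
  rw [lt_abs]
  right
  linarith

end chain

end Pool.Agent.Run7.h770.PG
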