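import Pool.Agent.Run7.h770.PG.Deg
set_option autoImplicit false

/-!
The backward direction: points whose multiple is the point `(0, 0)`, in small sets of points which
are stable under the automorphisms that fix the lower roots. The degree of the field of torsion
points is at most `8 ^ m` if there are `m` lower roots.
-/

namespace Pool.Agent.Run7.h770.PG

open WeierstrassCurve

open scoped WeierstrassCurve.Affine

open Pool.Agent.Run7.h770.IJ (crv)

open Pool.Agent.Run7.h770.UB (Chain)

set_option linter.unusedSectionVars false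

set_option linter.unusedVariables false

section alg

variable {F : Type*} [Field F]

/-- `2 ^ j` times a point with first coordinate `X` has the first coordinate `c` -/
def RR (c k : F) : ℕ → F → Prop
  | 0, X => X = c
  | j + 1, X => Mk k X ≠ 0 ∧ RR c k j (Dk k X)

/-- the dual isogeny on the first coordinates -/
def Gn (n X : F) : F := (X - 1) ^ 2 / (4 * n ^ 2 * X)

theorem four_ne (h2 : (2 : F) ≠ 0) : (4 : F) ≠ 0 := by
  have : (4 : F) = 2 * 2 := by norm_num
  rw [this]
  exact mul_ne_zero h2 h2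

theorem Mk_Gn (h2 : (2 : F) ≠ 0) {n X : F} (hn : n ≠ 0) (hX : X ≠ 0) :
    Mk (4 * n ^ 2) X = 16 * n ^ 2 * X ^ 2 * (Gn n X + n ^ 2) := by
  have h4 := four_ne h2
  unfold Mk Gn
  field_simp
  ring

theorem Fn_Gn (h2 : (2 : F) ≠ 0) {n X : F} (hn : n ≠ 0) (hX : X ≠ 0) (hG : Gn n X + n ^ 2 ≠ 0) :
    Dk (4 * n ^ 2) X = Fn n (Gn n X) := by
  have h4 := four_ne h2
  have h16 : (16 : F) ≠ 0 := by
    have : (16 : F) = 4 * 4 := by norm_num
    rw [this]
    exact mul_ne_zero h4 h4
  have e1 : Gn n X * (n ^ 2 * Gn n X + 1) = (X ^ 2 - 1) ^ 2 / (16 * n ^ 2 * X ^ 2) := by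
    unfold Gn
    field_simp
    ring
  unfold Dk Fn
  rw [Mk_Gn h2 hn hX, e1, div_div]

theorem Mk_end (h2 : (2 : F) ≠ 0) {n : F} (hn : n ≠ 0) : Mk (2 * (n + n⁻¹)) (-n ^ 2) = 0 := by
  rw [Mk_eq hn]
  ring

/-- not the kernel of the isogeny -/
theorem RR_ne (h2 : (2 : F) ≠ 0) {n : F} (hn : n ≠ 0) {j : ℕ} {Z : F}
    (h : RR 0 (2 * (n + n⁻¹)) j Z) : Z + n ^ 2 ≠ 0 := by
  intro h0
  have hZ : Z = -n ^ 2 := eq_neg_of_add_eq_zero_left h0
  cases j with
  | zero =>
    have h1 : Z = 0 := h
    rw [h1, zero_add] at h0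
    exact pow_ne_zero 2 hn h0
  | succ j =>
    apply h.1
    rw [hZ]
    exact Mk_end h2 hn

theorem RR_push (h2 : (2 : F) ≠ 0) {n : F} (hn : n ≠ 0) (j : ℕ) : ∀ {Z : F},
    RR 0 (2 * (n + n⁻¹)) j Z → RR 0 (4 * n ^ 2) j (Fn n Z) := by
  have h4 := four_ne h2
  induction j with
  | zero =>
    intro Z h
    have h1 : Z = 0 := h
    show Fn n Z = 0
    rw [h1]
    unfold Fn
    simp
  | succ j ih =>
    intro Z h
    obtain ⟨hM, h⟩ := h
    have hM' := hM
    rw [Mk_eq hn] at hM'
    have h5 : 4 * Z * (Z + n ^ 2) * (n ^ 2 * Z + 1) ≠ 0 := fun h => hM' (by rw [h, zero_div])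
    have h6 : Z ≠ 0 := fun h => h5 (by rw [h]; ring)
    have h7 : Z + n ^ 2 ≠ 0 := fun h => h5 (by rw [h]; ring)
    have h8 : n ^ 2 * Z + 1 ≠ 0 := fun h => h5 (by rw [h]; ring)
    have hq : Z ^ 2 + 2 * n ^ 2 * Z + 1 ≠ 0 := by
      intro hq
      apply RR_ne h2 hn h
      rw [Dk_add h2 hn hM, hq]
      ring
    refine ⟨?_, ?_⟩
    · rw [Mk_Fn hn h7]
      exact div_ne_zero (mul_ne_zero (mul_ne_zero (mul_ne_zero (mul_ne_zero h4 h6) h8)
        (pow_ne_zero 4 hn)) (pow_ne_zero 2 hq)) (pow_ne_zero 3 h7)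
    · rw [← Fn_Dk h2 hn hM hq]
      exact ih h

theorem RR_lift (h2 : (2 : F) ≠ 0) {n : F} (hn : n ≠ 0) (j : ℕ) {X : F} (hX : X ≠ 0)
    (h : RR 0 (2 * (n + n⁻¹)) j (Gn n X)) : RR 0 (4 * n ^ 2) (j + 1) X := by
  have h4 := four_ne h2
  have h16 : (16 : F) ≠ 0 := by
    have : (16 : F) = 4 * 4 := by norm_num
    rw [this]
    exact mul_ne_zero h4 h4
  have h1 := RR_ne h2 hn h
  refine ⟨?_, ?_⟩
  · rw [Mk_Gn h2 hn hX]
    exact mul_ne_zero (mul_ne_zero (mul_ne_zero h16 (pow_ne_zero 2 hn)) (pow_ne_zero 2 hX)) h1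
  · rw [Fn_Gn h2 hn hX h1]
    exact RR_push h2 hn j h

/-- the first coordinates of the points of order `2 ^ (j + 1)` in the backward direction -/
def BB (n : ℕ → F) : ℕ → ℕ → Set F
  | _, 0 => {0}
  | 0, _ + 1 => ∅
  | i + 1, j + 1 => {X | X ≠ 0 ∧ Gn (n i) X ∈ BB n i j}

theorem BB_RR (h2 : (2 : F) ≠ 0) {k n : ℕ → F} {I : ℕ} (hc : Chain k n I) (j : ℕ) : ∀ (i : ℕ),
    i ≤ I → ∀ X ∈ BB n i j, RR 0 (k i) j X := by
  induction j with
  | zero =>
    intro i _ X hX
    have h1 : X = 0 := by
      cases i <;> exact hX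
    exact h1
  | succ j ih =>
    intro i hi X hX
    cases i with
    | zero => exact absurd hX (Set.notMem_empty X)
    | succ i =>
      obtain ⟨h1, h3⟩ := hX
      have h4 := ih i (by omega) _ h3
      rw [hc.k1 i (by omega)] at h4
      rw [hc.k2 i (by omega)]
      exact RR_lift h2 (hc.n0 i (by omega)) j h1 h4

theorem map_Gn {F' : Type*} [Field F'] (g : F →+* F') (n X : F) : g (Gn n X) = Gn (g n) (g X) := by
  unfold Gn
  simp only [map_div₀, map_mul, map_pow, map_sub, map_one, map_ofNat]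

theorem BB_stable (g : F →+* F) {n : ℕ → F} (j : ℕ) : ∀ (i : ℕ), (∀ l, l < i → g (n l) = n l) →
    ∀ X ∈ BB n i j, g X ∈ BB n i j := by
  induction j with
  | zero =>
    intro i _ X hX
    have h1 : X = 0 := by
      cases i <;> exact hX
    have h3 : g X = 0 := by rw [h1, map_zero]
    cases i <;> exact h3
  | succ j ih =>
    intro i hi X hX
    cases i with
    | zero => exact absurd hX (Set.notMem_empty X)
    | succ i =>
      obtain ⟨h1, h3⟩ := hX
      refine ⟨(map_ne_zero g).2 h1, ?_⟩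
      have h4 := ih i (fun l hl => hi l (by omega)) _ h3
      rw [map_Gn, hi i (by omega)] at h4
      exact h4

theorem BB_nonempty [IsAlgClosed F] {n : ℕ → F} (j : ℕ) : ∀ i, j ≤ i → ∀ (h2 : (2 : F) ≠ 0),
    (∀ l, l < i → n l ≠ 0) → (BB n i j).Nonempty := by
  induction j with
  | zero =>
    intro i _ _ _
    cases i <;> exact ⟨0, rfl⟩
  | succ j ih =>
    intro i hi h2 hn
    cases i with
    | zero => omega
    | succ i =>
      obtain ⟨Z, hZ⟩ := ih i (by omega) h2 (fun l hl => hn l (by omega))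
      have hd : (Polynomial.C 1 * Polynomial.X ^ 2 +
          Polynomial.C (-(2 + 4 * n i ^ 2 * Z)) * Polynomial.X +
          Polynomial.C 1 : Polynomial F).degree ≠ 0 := by
        rw [Polynomial.degree_quadratic one_ne_zero]
        norm_num
      obtain ⟨X, hX⟩ := IsAlgClosed.exists_root _ hd
      have h1 : X ^ 2 - (2 + 4 * n i ^ 2 * Z) * X + 1 = 0 := by
        have h2 : Polynomial.eval X (Polynomial.C 1 * Polynomial.X ^ 2 +
          Polynomial.C (-(2 + 4 * n i ^ 2 * Z)) * Polynomial.X + Polynomial.C 1) = 0 := hX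
        simp only [Polynomial.eval_add, Polynomial.eval_mul, Polynomial.eval_C,
          Polynomial.eval_X, Polynomial.eval_pow] at h2
        linear_combination h2
      have hX0 : X ≠ 0 := by
        rintro rfl
        norm_num at h1
      refine ⟨X, hX0, ?_⟩
      have h4 := four_ne h2
      have h3 : Gn (n i) X = Z := by
        unfold Gn
        have := hn i (by omega)
        rw [div_eq_iff (mul_ne_zero (mul_ne_zero h4 (pow_ne_zero 2 this)) hX0)]
        linear_combination h1
      rw [h3]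
      exact hZ

theorem BB_card {n : ℕ → F} (j : ℕ) : ∀ i, (∀ l, l < i → n l ≠ 0) → ∀ (h2 : (2 : F) ≠ 0),
    (BB n i j).Finite ∧ (BB n i j).ncard ≤ 2 ^ j := by
  induction j with
  | zero =>
    intro i _ _
    have h1 : BB n i 0 = {0} := by cases i <;> rfl
    rw [h1]
    simp
  | succ j ih =>
    intro i hn h2
    cases i with
    | zero =>
      have h1 : BB n 0 (j + 1) = ∅ := rfl
      rw [h1]
      simp
    | succ i =>
      obtain ⟨h1, h3⟩ := ih i (fun l hl => hn l (by omega)) h2
      have h4 := four_ne h2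
      classical
      have hn' := hn i (by omega)
      set p : F → Polynomial F := fun Z => Polynomial.C 1 * Polynomial.X ^ 2 +
          Polynomial.C (-(2 + 4 * n i ^ 2 * Z)) * Polynomial.X + Polynomial.C 1 with hp
      have hdeg : ∀ Z, (p Z).natDegree = 2 := fun Z => Polynomial.natDegree_quadratic one_ne_zero
      have hp0 : ∀ Z, p Z ≠ 0 := by
        intro Z h
        have := hdeg Z
        rw [h, Polynomial.natDegree_zero] at this
        omega
      have hsub : BB n (i + 1) (j + 1) ⊆ ↑(h1.toFinset.biUnion fun Z => (p Z).roots.toFinset) := by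
        rintro X ⟨hX0, hX⟩
        rw [Finset.mem_coe, Finset.mem_biUnion]
        refine ⟨Gn (n i) X, h1.mem_toFinset.2 hX, ?_⟩
        rw [Multiset.mem_toFinset, Polynomial.mem_roots (hp0 _)]
        show Polynomial.eval X (p _) = 0
        rw [hp]
        simp only [Polynomial.eval_add, Polynomial.eval_mul, Polynomial.eval_C,
          Polynomial.eval_X, Polynomial.eval_pow]
        have h5 : 4 * n i ^ 2 * Gn (n i) X * X = (X - 1) ^ 2 := by
          unfold Gn
          field_simp
        linear_combination -h5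
      refine ⟨(Finset.finite_toSet _).subset hsub, ?_⟩
      refine (Set.ncard_le_ncard hsub (Finset.finite_toSet _)).trans ?_
      rw [Set.ncard_coe_finset]
      refine Finset.card_biUnion_le.trans ?_
      have h6 : ∀ Z ∈ h1.toFinset, (p Z).roots.toFinset.card ≤ 2 := by
        intro Z _
        refine (Multiset.toFinset_card_le _).trans ?_
        rw [← hdeg Z]
        exact Polynomial.card_roots' _
      refine (Finset.sum_le_card_nsmul _ _ 2 h6).trans ?_
      rw [smul_eq_mul, pow_succ]
      have h7 : h1.toFinset.card = (BB n i j).ncard := (Set.ncard_eq_toFinset_card _ h1).symm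
      rw [h7]
      exact Nat.mul_le_mul_right _ h3

/-- halving on the first coordinates -/
theorem exists_RR [IsAlgClosed F] (h2 : (2 : F) ≠ 0) {k : F} (h0 : k ≠ 0) (h16 : k ^ 2 ≠ 16)
    (c : F) (j : ℕ) : ∃ X, RR c k j X := by
  have key : ∀ Z : F, ∃ X, Mk k X ≠ 0 ∧ Dk k X = Z := by
    intro Z
    set p : Polynomial F := (Polynomial.X ^ 2 - 1) ^ 2 - Polynomial.C Z * (Polynomial.X *
      (Polynomial.C 4 * Polynomial.X ^ 2 + Polynomial.C (k ^ 2 - 8) * Polynomial.X +
        Polynomial.C 4)) with hp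
    have hd : p.degree = 4 := by
      rw [hp]
      compute_degree!
    obtain ⟨X, hX⟩ := IsAlgClosed.exists_root p (by rw [hd]; norm_num)
    have h1 : (X ^ 2 - 1) ^ 2 = Z * Mk k X := by
      have h3 : Polynomial.eval X p = 0 := hX
      rw [hp] at h3
      simp only [Polynomial.eval_add, Polynomial.eval_mul, Polynomial.eval_C,
        Polynomial.eval_X, Polynomial.eval_pow, Polynomial.eval_sub, Polynomial.eval_one] at h3
      unfold Mk
      linear_combination h3
    have hM : Mk k X ≠ 0 := by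
      intro hM
      rw [hM, mul_zero] at h1
      have h3 : (X - 1) * (X + 1) = 0 := by
        have := pow_eq_zero_iff two_ne_zero |>.1 h1
        linear_combination this
      rcases mul_eq_zero.1 h3 with h5 | h5
      · have h6 : X = 1 := by linear_combination h5
        rw [h6] at hM
        unfold Mk at hM
        apply pow_ne_zero 2 h0
        linear_combination hM
      · have h6 : X = -1 := by linear_combination h5
        rw [h6] at hM
        unfold Mk at hM
        apply h16
        linear_combination hM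
    refine ⟨X, hM, ?_⟩
    unfold Dk
    rw [div_eq_iff hM]
    exact h1
  induction j with
  | zero => exact ⟨c, rfl⟩
  | succ j ih =>
    obtain ⟨Z, hZ⟩ := ih
    obtain ⟨X, hX, hD⟩ := key Z
    refine ⟨X, hX, ?_⟩
    rw [hD]
    exact hZ

end alg

end Pool.Agent.Run7.h770.PG
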