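import Pool.Agent.Run7.h770.PG.Bk
set_option autoImplicit false

/-!
The degree of the field of torsion points of a curve with a rational cyclic subgroup.
-/

namespace Pool.Agent.Run7.h770.PG

open WeierstrassCurve

open scoped WeierstrassCurve.Affine

open Pool.Agent.Run7.h770.IJ (crv)

section grp

variable {G : Type*} [AddCommGroup G]

/-- Two elements of order `2 ^ (m + 1)` with different multiples of order `2` are generators. -/
theorem two_gen' (hfin : Finite (tor G 1)) (h4 : Nat.card (tor G 1) ≤ 4) {m : ℕ} {a b : G}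
    (ha : a ∈ tor G (m + 1)) (hb : b ∈ tor G (m + 1)) (ha0 : 2 ^ m • a ≠ 0) (hb0 : 2 ^ m • b ≠ 0)
    (hab : 2 ^ m • a ≠ 2 ^ m • b) : AddSubgroup.closure {a, b} = tor G (m + 1) := by
  classical
  set S := AddSubgroup.closure {a, b} with hS
  have haS : a ∈ S := AddSubgroup.subset_closure (by simp)
  have hbS : b ∈ S := AddSubgroup.subset_closure (by simp)
  set u := 2 ^ m • a with hu
  set v := 2 ^ m • b with hv
  have hu2 : u ∈ tor G 1 := by
    rw [mem_tor, hu, smul_smul, ← pow_add, add_comm]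
    exact ha
  have hv2 : v ∈ tor G 1 := by
    rw [mem_tor, hv, smul_smul, ← pow_add, add_comm]
    exact hb
  have huv2 : u + v ∈ tor G 1 := (tor G 1).add_mem hu2 hv2
  have hvv : v + v = 0 := by
    have := mem_tor.1 hv2
    rwa [pow_one, two_nsmul] at this
  have huv0 : u + v ≠ 0 := by
    intro h
    apply hab
    have : u = -v := eq_neg_of_add_eq_zero_left h
    rw [this]
    exact (eq_neg_of_add_eq_zero_left hvv).symm
  have h1 : ∀ x ∈ tor G 1, x = 0 ∨ x = u ∨ x = v ∨ x = u + v := by
    intro x hx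
    by_contra hcon
    push Not at hcon
    obtain ⟨c0, cu, cv, cuv⟩ := hcon
    set T : Finset G := {0, u, v, u + v, x} with hT
    have hTc : T.card = 5 := by
      rw [hT]
      have e1 : (0 : G) ∉ ({u, v, u + v, x} : Finset G) := by
        simp only [Finset.mem_insert, Finset.mem_singleton, not_or]
        exact ⟨ha0.symm, hb0.symm, huv0.symm, fun h => c0 h.symm⟩
      have e2 : u ∉ ({v, u + v, x} : Finset G) := by
        simp only [Finset.mem_insert, Finset.mem_singleton, not_or]
        exact ⟨hab, fun h => hb0 (left_eq_add.1 h), fun h => cu h.symm⟩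
      have e3 : v ∉ ({u + v, x} : Finset G) := by
        simp only [Finset.mem_insert, Finset.mem_singleton, not_or]
        exact ⟨fun h => ha0 (right_eq_add.1 h), fun h => cv h.symm⟩
      have e4 : u + v ∉ ({x} : Finset G) := by
        simp only [Finset.mem_singleton]
        exact fun h => cuv h.symm
      rw [Finset.card_insert_of_notMem e1, Finset.card_insert_of_notMem e2,
        Finset.card_insert_of_notMem e3, Finset.card_insert_of_notMem e4,
        Finset.card_singleton]
    have hsub : (↑T : Set G) ⊆ (tor G 1 : Set G) := by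
      intro y hy
      rw [hT] at hy
      simp only [Finset.coe_insert, Finset.coe_singleton, Set.mem_insert_iff,
        Set.mem_singleton_iff] at hy
      rcases hy with rfl | rfl | rfl | rfl | rfl
      · exact (tor G 1).zero_mem
      · exact hu2
      · exact hv2
      · exact huv2
      · exact hx
    have hfs : (tor G 1 : Set G).Finite := hfin
    have h5 := Set.ncard_le_ncard hsub hfs
    rw [Set.ncard_coe_finset, hTc] at h5
    have h6 : (tor G 1 : Set G).ncard = Nat.card (tor G 1) := rfl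
    omega
  have key : ∀ j, j ≤ m + 1 → ∀ x ∈ tor G j, x ∈ S := by
    intro j
    induction j with
    | zero =>
      intro _ x hx
      rw [mem_tor, pow_zero, one_smul] at hx
      rw [hx]
      exact S.zero_mem
    | succ j ih =>
      intro hj x hx
      have hx1 : 2 ^ j • x ∈ tor G 1 := by
        rw [mem_tor, smul_smul, ← pow_add, add_comm]
        exact hx
      obtain ⟨y, hy, hyx⟩ : ∃ y ∈ S, 2 ^ j • y = 2 ^ j • x := by
        have e : ∀ z : G, 2 ^ j • (2 ^ (m - j) • z) = 2 ^ m • z := by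
          intro z
          rw [smul_smul, ← pow_add]
          congr 2
          omega
        rcases h1 _ hx1 with h | h | h | h
        · exact ⟨0, S.zero_mem, by rw [h, smul_zero]⟩
        · exact ⟨2 ^ (m - j) • a, S.nsmul_mem haS _, by rw [h, e]⟩
        · exact ⟨2 ^ (m - j) • b, S.nsmul_mem hbS _, by rw [h, e]⟩
        · exact ⟨2 ^ (m - j) • (a + b), S.nsmul_mem (S.add_mem haS hbS) _, by
            rw [h, e, smul_add]⟩
      have h7 : x - y ∈ tor G j := by
        rw [mem_tor, smul_sub, hyx, sub_self]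
      have h8 := S.add_mem (ih (by omega) _ h7) hy
      rwa [sub_add_cancel] at h8
  refine le_antisymm ?_ (fun x hx => key _ le_rfl x hx)
  rw [hS]
  refine (AddSubgroup.closure_le _).2 ?_
  rintro x (rfl | rfl)
  · exact ha
  · exact hb

end grp

section pts

variable {F : Type*} [Field F] [DecidableEq F] {V : WeierstrassCurve.Affine F} {k : F}

theorem RR_pt (hV : V = crv k) {c : F} (j : ℕ) : ∀ {X Y : F} (h : V.Nonsingular X Y),
    RR c k j X → ∃ (Y' : F) (h' : V.Nonsingular c Y'),
      (2 ^ j : ℕ) • (Affine.Point.some X Y h : V.Point) = Affine.Point.some c Y' h' := by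
  induction j with
  | zero =>
    intro X Y h hX
    have h1 : X = c := hX
    subst h1
    exact ⟨Y, h, by rw [pow_zero, one_smul]⟩
  | succ j ih =>
    intro X Y h hX
    obtain ⟨hM, hX⟩ := hX
    obtain ⟨Y', h', he⟩ := double_some hV h hM
    obtain ⟨Y'', h'', he'⟩ := ih h' hX
    refine ⟨Y'', h'', ?_⟩
    rw [pow_succ, mul_smul, he, he']

end pts

section deg

set_option linter.unusedSectionVars false

variable {M : Type*} [Field M] {W : WeierstrassCurve.Affine M} {Ω : Type*} [Field Ω] [Algebra M Ω]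
  [DecidableEq Ω] [CharZero M] [IsAlgClosed Ω] [Algebra.IsAlgebraic M Ω]

/-- The degree of the field of torsion points if there is a small stable set of first coordinates
of points with given multiple of order two. -/
theorem TF_deg8 {κ : M} (h0 : algebraMap M Ω κ ≠ 0) (h16 : algebraMap M Ω κ ^ 2 ≠ 16)
    (hW : W = crv κ) {m : ℕ} {B : Set Ω} (hB : B.Finite) (hBc : B.ncard ≤ 2 ^ m)
    (hst : ∀ g : Ω →ₐ[M] Ω, ∀ X ∈ B, g X ∈ B) {X0 : Ω} (hX0 : X0 ∈ B)
    (hR : RR 0 (algebraMap M Ω κ) m X0) {c : Ω} (hc0 : c ≠ 0) (hc : Mk (algebraMap M Ω κ) c = 0) :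
    Module.finrank M (TF W Ω (m + 1)) ≤ 8 ^ (m + 1) := by
  classical
  have _ : CharZero Ω := charZero_of_injective_algebraMap (algebraMap M Ω).injective
  have hV : (W⁄Ω) = crv (algebraMap M Ω κ) := by rw [hW]; exact VV_eq κ
  obtain ⟨h1, h4⟩ := tor_one hV two_ne_zero
  obtain ⟨hf, hcard⟩ := tor_card h1 h4 (m + 1)
  have _ := TF_fd hf
  -- the generators
  obtain ⟨Xa, hXa⟩ := exists_RR two_ne_zero h0 h16 c m
  obtain ⟨Ya, hYa⟩ := exists_pt hV h0 h16 Xa
  obtain ⟨Yb, hYb⟩ := exists_pt hV h0 h16 X0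
  obtain ⟨Ya', hYa', ea⟩ := RR_pt hV m hYa hXa
  obtain ⟨Yb', hYb', eb⟩ := RR_pt hV m hYb hR
  set a : (W⁄Ω).Point := Affine.Point.some Xa Ya hYa with hadef
  set b : (W⁄Ω).Point := Affine.Point.some X0 Yb hYb with hbdef
  have hM0 : Mk (algebraMap M Ω κ) 0 = 0 := by
    unfold Mk
    ring
  have ha : a ∈ tor (W⁄Ω).Point (m + 1) := by
    rw [mem_tor, pow_succ', mul_smul, ea]
    exact double_zero hV hYa' hc
  have hb : b ∈ tor (W⁄Ω).Point (m + 1) := by
    rw [mem_tor, pow_succ', mul_smul, eb]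
    exact double_zero hV hYb' hM0
  have ha0 : 2 ^ m • a ≠ 0 := by
    rw [ea]
    exact Affine.Point.some_ne_zero _
  have hb0 : 2 ^ m • b ≠ 0 := by
    rw [eb]
    exact Affine.Point.some_ne_zero _
  have hne : 2 ^ m • a ≠ 2 ^ m • b := by
    rw [ea, eb]
    intro h
    rw [Affine.Point.some.injEq] at h
    exact hc0 h.1
  have hab := two_gen' h1 h4 ha hb ha0 hb0 hne
  -- the points with first coordinates in `B`
  set PB : Set (W⁄Ω).Point := {P | ∃ (X Y : Ω) (h : (W⁄Ω).Nonsingular X Y),
    P = Affine.Point.some X Y h ∧ X ∈ B} with hPB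
  have hroot : ∀ X : Ω, ∃ s : Finset Ω, s.card ≤ 2 ∧ ∀ Y, (W⁄Ω).Nonsingular X Y → Y ∈ s := by
    intro X
    set p : Polynomial Ω := Polynomial.C 1 * Polynomial.X ^ 2 +
      Polynomial.C (algebraMap M Ω κ * X) * Polynomial.X +
        Polynomial.C (-(X ^ 3 - 2 * X ^ 2 + X)) with hp
    have hdeg : p.natDegree = 2 := Polynomial.natDegree_quadratic one_ne_zero
    have hp0 : p ≠ 0 := by
      intro h
      rw [h, Polynomial.natDegree_zero] at hdeg
      omega
    refine ⟨p.roots.toFinset, ?_, fun Y hY => ?_⟩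
    · refine (Multiset.toFinset_card_le _).trans ?_
      rw [← hdeg]
      exact Polynomial.card_roots' p
    · rw [Multiset.mem_toFinset, Polynomial.mem_roots hp0]
      show Polynomial.eval Y p = 0
      rw [hp]
      simp only [Polynomial.eval_add, Polynomial.eval_mul, Polynomial.eval_C,
        Polynomial.eval_X, Polynomial.eval_pow]
      have h7 := hY.left
      rw [WeierstrassCurve.Affine.equation_iff, hV] at h7
      unfold crv at h7
      simp only at h7
      linear_combination h7
  choose s hs1 hs2 using hroot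
  have hmap : ∀ P : PB, (cx (P : (W⁄Ω).Point), cy (P : (W⁄Ω).Point)) ∈
      hB.toFinset.biUnion fun X => (s X).image fun Y => (X, Y) := by
    rintro ⟨P, X, Y, h, rfl, hX⟩
    rw [Finset.mem_biUnion]
    refine ⟨X, hB.mem_toFinset.2 hX, ?_⟩
    rw [Finset.mem_image]
    exact ⟨Y, hs2 X Y h, rfl⟩
  have hinj : Function.Injective (fun P : PB => (⟨(cx (P : (W⁄Ω).Point), cy (P : (W⁄Ω).Point)),
      hmap P⟩ : (hB.toFinset.biUnion fun X => (s X).image fun Y => (X, Y) : Finset (Ω × Ω)))) := by
    rintro ⟨P, X, Y, h, rfl, hX⟩ ⟨P', X', Y', h', rfl, hX'⟩ hh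
    have h5 := congrArg Subtype.val hh
    have h6 : X = X' := congrArg Prod.fst h5
    have h7 : Y = Y' := congrArg Prod.snd h5
    subst h6 h7
    rfl
  have hPBf : Finite PB := Finite.of_injective _ hinj
  have hPBc : Nat.card PB ≤ 2 ^ (m + 1) := by
    refine (Nat.card_le_card_of_injective _ hinj).trans ?_
    rw [Nat.card_eq_fintype_card, Fintype.card_coe]
    refine Finset.card_biUnion_le.trans ?_
    refine (Finset.sum_le_card_nsmul _ _ 2 fun X _ => Finset.card_image_le.trans (hs1 X)).trans ?_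
    rw [smul_eq_mul, pow_succ, ← Set.ncard_eq_toFinset_card _ hB]
    exact Nat.mul_le_mul_right _ hBc
  have hbPB : ∀ g : Ω →ₐ[M] Ω, Affine.Point.map (W' := W) g b ∈ PB := by
    intro g
    rw [hbdef, Affine.Point.map_some]
    exact ⟨g X0, g Yb, _, rfl, hst g _ hX0⟩
  -- the embeddings
  have hext : ∀ σ : TF W Ω (m + 1) →ₐ[M] Ω, ∃ g : Ω →ₐ[M] Ω, ∀ x : TF W Ω (m + 1), g x = σ x := by
    intro σ
    obtain ⟨g, hg⟩ := IsAlgClosed.surjective_domRestrict_of_isAlgebraic (K := M)
      (L := TF W Ω (m + 1)) (M := Ω) (E := Ω) σ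
    exact ⟨g, fun x => by rw [← hg]; rfl⟩
  choose e he using hext
  let Θ : (TF W Ω (m + 1) →ₐ[M] Ω) → tor (W⁄Ω).Point (m + 1) × PB := fun σ =>
    (⟨Affine.Point.map (W' := W) (e σ) a, map_mem_tor _ ha⟩,
      ⟨Affine.Point.map (W' := W) (e σ) b, hbPB _⟩)
  have hΘ : Function.Injective Θ := by
    intro σ σ' hσ
    have g1 : Affine.Point.map (W' := W) (e σ) a = Affine.Point.map (W' := W) (e σ') a :=
      congrArg (fun z : tor (W⁄Ω).Point (m + 1) × PB => (z.1 : (W⁄Ω).Point)) hσ
    have g2 : Affine.Point.map (W' := W) (e σ) b = Affine.Point.map (W' := W) (e σ') b :=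
      congrArg (fun z : tor (W⁄Ω).Point (m + 1) × PB => (z.2 : (W⁄Ω).Point)) hσ
    have hle : tor (W⁄Ω).Point (m + 1) ≤ (Affine.Point.map (W' := W) (e σ)).eqLocus
        (Affine.Point.map (W' := W) (e σ')) := by
      rw [← hab]
      refine (AddSubgroup.closure_le _).2 ?_
      rintro x (rfl | rfl)
      · exact g1
      · exact g2
    refine IntermediateField.algHom_ext_of_eq_adjoin M (S := TF W Ω (m + 1))
      (s := crd W Ω (m + 1)) rfl ?_
    rintro x ⟨X, Y, hn, hm, hx⟩
    have h5 : Affine.Point.map (W' := W) (e σ) (Affine.Point.some X Y hn) =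
      Affine.Point.map (W' := W) (e σ') (Affine.Point.some X Y hn) := hle hm
    rw [Affine.Point.map_some, Affine.Point.map_some, Affine.Point.some.injEq] at h5
    rw [← he, ← he]
    rcases hx with rfl | rfl
    · exact h5.1
    · exact h5.2
  have hcd : Fintype.card (TF W Ω (m + 1) →ₐ[M] Ω) = Module.finrank M (TF W Ω (m + 1)) :=
    AlgHom.card M _ Ω
  rw [← hcd, ← Nat.card_eq_fintype_card]
  refine (Nat.card_le_card_of_injective Θ hΘ).trans ?_
  rw [Nat.card_prod]
  calc Nat.card (tor (W⁄Ω).Point (m + 1)) * Nat.card PB ≤ 4 ^ (m + 1) * 2 ^ (m + 1) :=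
        Nat.mul_le_mul hcard hPBc
    _ = 8 ^ (m + 1) := by
        rw [← mul_pow]
        norm_num

end deg

end Pool.Agent.Run7.h770.PG
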