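import Pool.Agent.Run7.h770.PG.Fl2
import Pool.Agent.Run7.h770.UB.Rows
set_option autoImplicit false

/-!
The regulator integrals of the conjugate symbols are small.
-/

namespace Pool.Agent.Run7.h770.PG

open Pool.Agent.Run7.h770.UB (gg Sm it it_congr PP prK pr_estimate)

open Pool.Agent.W367.KT

section near

theorem rep_near {R : ℝ} {A : ℝ → ℂ} (hA : ContDiff ℝ 1 A) (h01 : A 0 = A 1)
    (h : ∀ t, ‖A t - 1‖ ≤ 1 / 2) {B : ℝ} (h' : ∀ t, ‖deriv A t‖ ≤ B) : Rep R A 1 0 1 (2 * B) := by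
  have hs : ∀ t, A t ∈ Complex.slitPlane := fun t => by
    have := slit_of_norm (h t)
    rwa [add_sub_cancel] at this
  refine ⟨fun t => Complex.log (A t), ?_, by dsimp only; rw [h01], fun t => ?_, fun t => ?_,
    fun t => ?_⟩
  · rw [contDiff_iff_contDiffAt]
    intro t
    exact (((Complex.contDiffAt_log (hs t)).restrict_scalars ℝ).comp t (hA.contDiffAt))
  · rw [Complex.exp_log (Complex.slitPlane_ne_zero (hs t))]; simp
  · have := Complex.norm_log_one_add_half_le_self (h t)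
    rw [add_sub_cancel] at this
    linarith [h t]
  · have hd : HasDerivAt A (deriv A t) t := ((hA.differentiable (by norm_num)) t).hasDerivAt
    rw [(hd.clog_real (hs t)).deriv, norm_div]
    have h2 : 1 / 2 ≤ ‖A t‖ := by
      have := norm_sub_norm_le (1 : ℂ) (1 - A t)
      rw [sub_sub_cancel, norm_one, norm_sub_rev] at this
      linarith [h t]
    rw [div_le_iff₀ (by linarith)]
    have h3 := h' t
    have h4 := norm_nonneg (deriv A t)
    nlinarith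

theorem prK_small {x y : ℝ → ℂ} (hx : PP x) (hy : PP y) {w w' : ℂ} (hw : ‖w‖ = 1) (hw' : w' ≠ 0)
    (h1 : ∀ t, ‖w * x t - 1‖ ≤ 1 / 2) (h2 : ∀ t, ‖w' * y t - 1‖ ≤ 1 / 2) {B : ℝ}
    (h3 : ∀ t, ∃ δ, HasDerivAt x δ t ∧ ‖δ‖ ≤ B) : |prK x y| ≤ 2 * B := by
  have hw0 : w ≠ 0 := by
    rintro rfl
    rw [norm_zero] at hw
    norm_num at hw
  have hB : 0 ≤ B := by
    obtain ⟨δ, -, h⟩ := h3 0
    exact (norm_nonneg _).trans h
  have px := hx.per 0
  have py := hy.per 0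
  rw [zero_add] at px py
  have r1 : Rep 1 (fun t => w * x t) 1 0 1 (2 * B) := by
    refine rep_near (contDiff_const.mul (hx.smooth.of_le (by norm_num))) ?_ h1 fun t => ?_
    · simp only [px]
    · obtain ⟨δ, hδ, hδ2⟩ := h3 t
      rw [(hδ.const_mul w).deriv, norm_mul, hw, one_mul]
      exact hδ2
  have r2 : Rep' 1 (fun t => w' * y t) 1 0 (3 / 2 * (1 / 2)) := by
    refine Rep'.near_one (contDiff_const.mul (hy.smooth.of_le (by norm_num))) ?_ le_rfl h2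
    simp only [py]
  have r3 : Rep 1 x w⁻¹ 0 1 (2 * B) := by
    obtain ⟨α, a1, a2, a3, a4, a5⟩ := r1
    refine ⟨α, a1, a2, fun t => ?_, a4, a5⟩
    have h := a3 t
    dsimp only at h
    rw [one_mul] at h
    rw [mul_assoc, ← h, inv_mul_cancel_left₀ hw0]
  have r4 : Rep' 1 y w'⁻¹ 0 (3 / 2 * (1 / 2)) := by
    obtain ⟨α, a1, a2, a3, a4⟩ := r2
    refine ⟨α, a1, a2, fun t => ?_, a4⟩
    have h := a3 t
    dsimp only at h
    rw [one_mul] at h
    rw [mul_assoc, ← h, inv_mul_cancel_left₀ hw']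
  have h := pr_estimate one_pos (inv_ne_zero hw0) (inv_ne_zero hw') 0 0 r3 r4
  simp only [Int.cast_zero, zero_mul, sub_zero, mul_zero, abs_zero, zero_add] at h
  linarith

end near

section chain

variable {N : ℕ → ℂ} (hrel : ∀ i, N (i + 1) ^ 2 + 1 = 2 * N i ^ 2 * N (i + 1))
  (hN1 : ∀ i, 1 ≤ ‖N i‖) {D : ℝ} {x y : ℝ → ℂ} (h : Unf (N 0) 64 D x y)

include hrel hN1

theorem norm_mono (i : ℕ) : ‖N 0‖ ≤ ‖N i‖ := by
  induction i with
  | zero => exact le_rfl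
  | succ i ih =>
    have h1 := (next_size (hrel i) (hN1 (i + 1))).1
    nlinarith [hN1 i]

include h

theorem unf_all (i : ℕ) : Unf (N i) (64 ^ 2 ^ i) (3 ^ i * D) (fun t => it N (x t) i)
    (fun t => it N (y t) i) := by
  induction i with
  | zero =>
    rw [pow_zero, pow_one, pow_zero, one_mul]
    exact h
  | succ i ih =>
    have h1 := ih.step (hrel i) (hN1 (i + 1))
    have e1 : (64 : ℝ) ^ 2 ^ (i + 1) = (64 ^ 2 ^ i) ^ 2 := by rw [← pow_mul, pow_succ]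
    have e2 : (3 : ℝ) ^ (i + 1) * D = 3 * (3 ^ i * D) := by ring
    rw [e1, e2]
    exact h1

variable {z : ℕ → ℂ} {b : ℕ} (hz1 : ∀ i, i < b → z i = N i) (hz2 : z b = (N b)⁻¹)

include hz1 hz2

theorem fli_b : Fli ‖N b‖ (64 ^ 2 ^ b) (2 * (3 ^ b * D)) (fun t => it z (x t) (b + 1))
    (fun t => it z (y t) (b + 1)) := by
  have h1 := (unf_all hrel hN1 h b).flip
  have e : ∀ v : ℂ, it z v (b + 1) = gg (N b)⁻¹ (it N v b) := by
    intro v
    show gg (z b) (it z v b) = _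
    rw [hz2, it_congr (n := z) (n' := N) fun j hj => hz1 j hj]
  simp only [e]
  exact h1

variable (hz3 : ∀ i, z (i + 1) ^ 2 + 1 = 2 * z i ^ 2 * z (i + 1)) {S : ℕ}
  (hbig : (2 * 10 ^ 7 * 324 ^ S * 4096 : ℝ) ^ 2 ^ S ≤ ‖N 0‖)

omit hrel hN1 h hz1 hz2 in
theorem size_pow {b i S : ℕ} (hS : b + i ≤ S) {n : ℝ}
    (hbig : (2 * 10 ^ 7 * 324 ^ S * 4096 : ℝ) ^ 2 ^ S ≤ n) :
    (2 * 10 ^ 7 * 324 ^ S * (64 ^ 2 ^ b) ^ 2 : ℝ) ^ 2 ^ i ≤ n := by
  refine le_trans ?_ hbig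
  have h324 : (1 : ℝ) ≤ 324 ^ S := one_le_pow₀ (by norm_num)
  rw [mul_pow, mul_pow (2 * 10 ^ 7 * 324 ^ S : ℝ) 4096]
  refine mul_le_mul (pow_le_pow_right₀ (by linarith) (Nat.pow_le_pow_right (by norm_num) (by omega)))
    ?_ (by positivity) (by positivity)
  have e1 : (((64 : ℝ) ^ 2 ^ b) ^ 2) ^ 2 ^ i = 4096 ^ 2 ^ (b + i) := by
    have e2 : 2 ^ b * (2 * 2 ^ i) = 2 * 2 ^ (b + i) := by
      rw [pow_add]
      ring
    rw [← pow_mul, ← pow_mul, e2, pow_mul]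
    norm_num
  rw [e1]
  exact pow_le_pow_right₀ (by norm_num) (Nat.pow_le_pow_right (by norm_num) hS)

omit hrel hN1 h hz1 hz2 in
/-- the size of the deviation of the parameter -/
theorem eps_size {e n P : ℝ} {i : ℕ} (he : 0 ≤ e) (hP : 0 < P) (h1 : (e / (41 / 10)) ^ 2 ^ i ≤ 1 / n)
    (h2 : P ^ 2 ^ i ≤ n) : e * P ≤ 41 / 10 := by
  have hn : 0 < n := lt_of_lt_of_le (by positivity) h2
  have h3 : (e / (41 / 10) * P) ^ 2 ^ i ≤ 1 ^ 2 ^ i := by
    rw [mul_pow, one_pow]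
    calc (e / (41 / 10)) ^ 2 ^ i * P ^ 2 ^ i ≤ 1 / n * n :=
          mul_le_mul h1 h2 (by positivity) (by positivity)
      _ = 1 := by field_simp
  have h4 := (pow_le_pow_iff_left₀ (by positivity) zero_le_one (by positivity)).1 h3
  rw [div_mul_eq_mul_div, div_le_iff₀ (by norm_num)] at h4
  linarith

include hz3 hbig

theorem nod_all (i : ℕ) (hi : b + i ≤ S) : ∃ w ε, z (b + 2 + i) = w * (1 + ε) ∧
    Nod w ε (3 ^ i * (2 * 64 ^ 2 ^ b)) (2 ^ i * (2 * (2 * (3 ^ b * D))))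
      (fun t => it z (x t) (b + 2 + i)) (fun t => it z (y t) (b + 2 + i)) ∧
    (‖ε‖ / (41 / 10)) ^ 2 ^ i ≤ 1 / ‖N b‖ := by
  have hNb := norm_mono hrel hN1 b
  have hn0 : 0 < ‖N b‖ := by linarith [hN1 b]
  induction i with
  | zero =>
    have h1 := fli_b hrel hN1 h hz1 hz2
    have h2 := hz3 b
    rw [hz2] at h2
    obtain ⟨h3, h4⟩ := h1.step h2 (hz3 (b + 1))
    refine ⟨-1, -z (b + 2) - 1, by ring, ?_, ?_⟩
    · rw [pow_zero, one_mul, pow_zero, one_mul]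
      exact h3
    · rw [pow_zero, pow_one]
      rw [div_le_div_iff₀ (by norm_num) hn0]
      have h5 : ‖N b‖ ^ 2 * ‖-z (b + 1 + 1) - 1‖ ^ 2 ≤ 41 / 10 := h4
      have h6 : (‖-z (b + 2) - 1‖ * ‖N b‖) ^ 2 ≤ 41 / 10 := by
        rw [mul_pow, mul_comm]
        exact h5
      nlinarith [mul_nonneg (norm_nonneg (-z (b + 2) - 1)) hn0.le]
  | succ i ih =>
    obtain ⟨w, ε, k1, k2, k3⟩ := ih (by omega)
    have hp := size_pow (b := b) (i := i) (S := S) (by omega) (hbig.trans hNb)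
    have hP : (0 : ℝ) < 2 * 10 ^ 7 * 324 ^ S * (64 ^ 2 ^ b) ^ 2 := by positivity
    have he := eps_size (norm_nonneg ε) hP k3 hp
    have h9 : (9 : ℝ) ^ i ≤ 324 ^ S :=
      (pow_le_pow_left₀ (by norm_num) (by norm_num) i).trans
        (pow_le_pow_right₀ (by norm_num) (by omega))
    have hsm : (3 ^ i * (2 * 64 ^ 2 ^ b) : ℝ) ^ 2 * ‖ε‖ ≤ 1 / 10 ^ 6 := by
      have e1 : (3 ^ i * (2 * 64 ^ 2 ^ b) : ℝ) ^ 2 = 9 ^ i * 4 * (64 ^ 2 ^ b) ^ 2 := by
        rw [mul_pow, mul_pow, ← pow_mul, mul_comm i 2, pow_mul]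
        norm_num
        ring
      rw [e1]
      have e2 : (9 : ℝ) ^ i * 4 * (64 ^ 2 ^ b) ^ 2 * ‖ε‖ ≤
          324 ^ S * 4 * (64 ^ 2 ^ b) ^ 2 * ‖ε‖ := by
        apply mul_le_mul_of_nonneg_right _ (norm_nonneg _)
        apply mul_le_mul_of_nonneg_right _ (by positivity)
        linarith
      nlinarith
    have hε6 : ‖ε‖ ≤ 1 / 10 ^ 6 := by
      have h1 : 1 * ‖ε‖ ≤ (3 ^ i * (2 * 64 ^ 2 ^ b) : ℝ) ^ 2 * ‖ε‖ :=
        mul_le_mul_of_nonneg_right (by nlinarith [k2.hA]) (norm_nonneg _)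
      linarith
    have h5 := k2.step hsm k1 (hz3 (b + 2 + i))
    have h6 := (num_step k2.w2 k1 (hz3 (b + 2 + i)) hε6).2.1
    refine ⟨1, z (b + 2 + i + 1) - 1, by rw [← add_assoc]; ring, ?_, ?_⟩
    · have e1 : (3 : ℝ) ^ (i + 1) * (2 * 64 ^ 2 ^ b) = 3 * (3 ^ i * (2 * 64 ^ 2 ^ b)) := by ring
      have e2 : (2 : ℝ) ^ (i + 1) * (2 * (2 * (3 ^ b * D))) =
          2 * (2 ^ i * (2 * (2 * (3 ^ b * D)))) := by ring
      rw [e1, e2]
      exact h5
    · rw [pow_succ', pow_mul]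
      refine le_trans (pow_le_pow_left₀ (by positivity) ?_ _) k3
      rw [div_pow, div_le_div_iff₀ (by norm_num) (by norm_num)]
      linarith

/-- The regulator integrals of the conjugate symbols are at most one. -/
theorem prK_flip (hbS : b < S) (hD : D ≤ 7) (hx : PP (fun t => it z (x t) S))
    (hy : PP (fun t => it z (y t) S)) :
    |prK (fun t => it z (x t) S) (fun t => it z (y t) S)| ≤ 1 := by
  have hNb := norm_mono hrel hN1 b
  have hn0 : 0 < ‖N b‖ := by linarith [hN1 b]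
  have hD0 := h.hD
  have hQ : (1 : ℝ) ≤ 64 ^ 2 ^ b := one_le_pow₀ (by norm_num)
  have h324 : (1 : ℝ) ≤ 324 ^ S := one_le_pow₀ (by norm_num)
  rcases Nat.lt_or_ge (b + 1) S with hS | hS
  · obtain ⟨i, rfl⟩ : ∃ i, S = b + 2 + i := ⟨S - (b + 2), by omega⟩
    obtain ⟨w, ε, k1, k2, k3⟩ := nod_all hrel hN1 h hz1 hz2 hz3 hbig i (by omega)
    have hp := size_pow (b := b) (i := i) (S := b + 2 + i) (by omega) (hbig.trans hNb)
    have hP : (0 : ℝ) < 2 * 10 ^ 7 * 324 ^ (b + 2 + i) * (64 ^ 2 ^ b) ^ 2 := by positivity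
    have he := eps_size (norm_nonneg ε) hP k3 hp
    have h0 : 0 < ‖ε‖ := norm_pos_iff.2 k2.e0
    have hQ2 : (1 : ℝ) ≤ (64 ^ 2 ^ b) ^ 2 := one_le_pow₀ hQ
    have he2 : ‖ε‖ * (2 * 10 ^ 7 * 324 ^ (b + 2 + i)) ≤ 41 / 10 := by
      refine le_trans ?_ he
      have : ‖ε‖ * (2 * 10 ^ 7 * 324 ^ (b + 2 + i)) * 1 ≤
          ‖ε‖ * (2 * 10 ^ 7 * 324 ^ (b + 2 + i)) * (64 ^ 2 ^ b) ^ 2 :=
        mul_le_mul_of_nonneg_left hQ2 (by positivity)
      linarith
    have h9 : (9 : ℝ) ^ i ≤ 324 ^ (b + 2 + i) :=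
      (pow_le_pow_left₀ (by norm_num) (by norm_num) i).trans
        (pow_le_pow_right₀ (by norm_num) (by omega))
    have h49 : ((2 : ℝ) ^ i * 3 ^ b) ^ 2 ≤ 324 ^ (b + 2 + i) := by
      have e1 : (324 : ℝ) ^ (b + 2 + i) = 324 ^ i * 324 ^ b * 324 ^ 2 := by ring
      rw [e1, mul_pow, ← pow_mul, ← pow_mul, mul_comm i, mul_comm b, pow_mul, pow_mul]
      have e2 : ((2 : ℝ) ^ 2) ^ i ≤ 324 ^ i := pow_le_pow_left₀ (by norm_num) (by norm_num) i
      have e3 : ((3 : ℝ) ^ 2) ^ b ≤ 324 ^ b := pow_le_pow_left₀ (by norm_num) (by norm_num) b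
      calc ((2 : ℝ) ^ 2) ^ i * (3 ^ 2) ^ b ≤ 324 ^ i * 324 ^ b :=
            mul_le_mul e2 e3 (by positivity) (by positivity)
        _ ≤ 324 ^ i * 324 ^ b * 324 ^ 2 := le_mul_of_one_le_right (by positivity) (by norm_num)
    have hsm : (3 ^ i * (2 * 64 ^ 2 ^ b) : ℝ) ^ 2 * ‖ε‖ ≤ 1 / 10 ^ 6 := by
      have e1 : (3 ^ i * (2 * 64 ^ 2 ^ b) : ℝ) ^ 2 = 9 ^ i * 4 * (64 ^ 2 ^ b) ^ 2 := by
        rw [mul_pow, mul_pow, ← pow_mul, mul_comm i 2, pow_mul]
        norm_num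
        ring
      rw [e1]
      have e2 : (9 : ℝ) ^ i * 4 * (64 ^ 2 ^ b) ^ 2 * ‖ε‖ ≤
          324 ^ (b + 2 + i) * 4 * (64 ^ 2 ^ b) ^ 2 * ‖ε‖ := by
        apply mul_le_mul_of_nonneg_right _ (norm_nonneg _)
        apply mul_le_mul_of_nonneg_right _ (by positivity)
        linarith
      nlinarith
    have hf : ∀ u : ℝ, 0 ≤ u → ‖ε‖ ^ 2 ≤ 3 ^ i * (2 * 64 ^ 2 ^ b) * u ^ 3 →
        u ^ 3 ≤ 3 ^ i * (2 * 64 ^ 2 ^ b) * ‖ε‖ ^ 2 →
        100 * ‖ε‖ ≤ u ∧ 100 * u ^ 2 ≤ ‖ε‖ ∧ 10 ^ 4 * u ≤ 1 := by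
      intro u hu f1 f2
      have hu0 : 0 < u := by
        rcases hu.lt_or_eq with h1 | h1
        · exact h1
        · rw [← h1] at f1
          have : 0 < ‖ε‖ ^ 2 := by positivity
          norm_num at f1
          exact absurd f1 k2.e0
      exact facts h0 hu0 k2.hA f1 f2 hsm
    have hwn : ‖w‖ = 1 := by
      have h1 : ‖w‖ ^ 2 = 1 := by rw [← norm_pow, k2.w2, norm_one]
      nlinarith [norm_nonneg w]
    have hw0 : w ≠ 0 := by
      rintro rfl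
      rw [norm_zero] at hwn
      norm_num at hwn
    have fx := fun t => hf _ (norm_nonneg _) (k2.x1 t) (k2.x2 t)
    have fy := fun t => hf _ (norm_nonneg _) (k2.y1 t) (k2.y2 t)
    refine (prK_small hx hy hwn hw0 (fun t => by linarith [(fx t).2.2])
      (fun t => by linarith [(fy t).2.2]) (B := 1 / 2) fun t => ?_).trans (by norm_num)
    obtain ⟨δ, hδ, hδ2⟩ := k2.d t
    refine ⟨δ, hδ, hδ2.trans ?_⟩
    have f2 := (fx t).2.1
    have hu := norm_nonneg (w * it z (x t) (b + 2 + i) - 1)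
    generalize ‖w * it z (x t) (b + 2 + i) - 1‖ = u at *
    set q : ℝ := 2 ^ i * 3 ^ b with hq
    have hq0 : 0 < q := by rw [hq]; positivity
    have e1 : (2 : ℝ) ^ i * (2 * (2 * (3 ^ b * D))) * u = 4 * D * (q * u) := by
      rw [hq]
      ring
    rw [e1]
    have e2 : (q * u) ^ 2 * 10 ^ 8 ≤ 1 := by
      have g1 : q ^ 2 * (100 * u ^ 2) ≤ q ^ 2 * ‖ε‖ := mul_le_mul_of_nonneg_left f2 (by positivity)
      have g2 : q ^ 2 * ‖ε‖ ≤ 324 ^ (b + 2 + i) * ‖ε‖ := mul_le_mul_of_nonneg_right h49 h0.le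
      nlinarith
    have e3 : q * u ≤ 1 / 10 ^ 4 := by
      rw [← pow_le_pow_iff_left₀ (by positivity) (by positivity) (two_ne_zero)]
      linarith
    have e4 : 4 * D * (q * u) ≤ 4 * 7 * (1 / 10 ^ 4) :=
      mul_le_mul (by linarith) e3 (by positivity) (by norm_num)
    linarith
  · obtain rfl : S = b + 1 := by omega
    have h1 := fli_b hrel hN1 h hz1 hz2
    have hp := size_pow (b := b) (i := 0) (S := b + 1) (by omega) (hbig.trans hNb)
    rw [pow_zero, pow_one] at hp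
    have h27 : (27 : ℝ) ^ b ≤ 324 ^ (b + 1) :=
      (pow_le_pow_left₀ (by norm_num) (by norm_num) b).trans
        (pow_le_pow_right₀ (by norm_num) (by omega))
    refine (prK_small hx hy (w := -1) (w' := 1) (by norm_num) one_ne_zero (fun t => ?_)
      (fun t => ?_) (B := 1 / 2) fun t => ?_).trans (by norm_num)
    · have := h1.x3 t
      rw [neg_one_mul]
      linarith
    · have := h1.y3 t
      rw [one_mul]
      linarith
    · obtain ⟨δ, hδ, hδ2⟩ := h1.d t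
      refine ⟨δ, hδ, hδ2.trans ?_⟩
      have f2 := h1.x2 t
      have hu := norm_nonneg (-it z (x t) (b + 1) - 1)
      generalize ‖-it z (x t) (b + 1) - 1‖ = u at *
      have e1 : 2 * (3 ^ b * D) * u ≤ 14 * (3 ^ b * u) := by
        have : 2 * (3 ^ b * D) * u = 2 * D * (3 ^ b * u) := by ring
        rw [this]
        exact mul_le_mul_of_nonneg_right (by linarith) (by positivity)
      have e2 : (28 * (3 ^ b * u)) ^ 3 ≤ 1 ^ 3 := by
        have g1 : (28 * (3 ^ b * u)) ^ 3 = 21952 * (27 ^ b * u ^ 3) := by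
          rw [mul_pow, mul_pow, ← pow_mul, mul_comm b 3, pow_mul]
          norm_num
        rw [g1, one_pow]
        have hn1 : 0 < ‖N b‖ ^ 2 := by positivity
        refine le_of_mul_le_mul_left ?_ hn1
        have g2 : (27 : ℝ) ^ b * (‖N b‖ ^ 2 * u ^ 3) ≤ 324 ^ (b + 1) * (2 * 64 ^ 2 ^ b) :=
          mul_le_mul h27 f2 (by positivity) (by positivity)
        have g3 : (324 : ℝ) ^ (b + 1) * 64 ^ 2 ^ b ≤ 324 ^ (b + 1) * (64 ^ 2 ^ b) ^ 2 := by
          apply mul_le_mul_of_nonneg_left _ (by positivity)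
          nlinarith
        have g4 : 1 * ‖N b‖ ≤ ‖N b‖ * ‖N b‖ := mul_le_mul_of_nonneg_right (hN1 b) hn0.le
        nlinarith
      have e3 := (pow_le_pow_iff_left₀ (by positivity) zero_le_one (three_ne_zero)).1 e2
      linarith

end chain

end Pool.Agent.Run7.h770.PG
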