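import Mathlib
set_option autoImplicit false

/-!
A criterion for a vector to generate a free module over the group ring of a cyclic group whose
order is a power of two.
-/

namespace Pool.Agent.Run7.h770.PG

open Polynomial Finset

theorem irr2 (a : ℕ) : Irreducible (X ^ 2 ^ a + 1 : ℚ[X]) := by
  have h := cyclotomic.irreducible_rat (n := 2 ^ (a + 1)) (by positivity)
  rw [cyclotomic_prime_pow_eq_geom_sum Nat.prime_two] at h
  simpa [Finset.sum_range_succ, add_comm] using h

section

variable {V : Type*} [AddCommGroup V] [Module ℚ V] (S : Module.End ℚ V)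

theorem irr_dvd {q p : ℚ[X]} (hq : Irreducible q) {v : V} (hv : v ≠ 0) (h1 : aeval S q v = 0)
    (h2 : aeval S p v = 0) : q ∣ p := by
  by_contra hnd
  obtain ⟨u, w, huw⟩ := (hq.coprime_iff_not_dvd (n := p)).2 hnd
  apply hv
  have h3 : aeval S (u * q + w * p) v = aeval S (1 : ℚ[X]) v := by rw [huw]
  rw [map_add, map_mul, map_mul, map_one, LinearMap.add_apply, Module.End.mul_apply,
    Module.End.mul_apply, h1, h2, map_zero, map_zero, add_zero, Module.End.one_apply] at h3
  exact h3.symm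

theorem cyc_dvd {β : V} (hβ : β ≠ 0) (hSβ : S β = β) {δ : ℕ → V} (m : ℕ)
    (hδ : ∀ i, i < m → δ i ≠ 0) (hSδ : ∀ i, i < m → (S ^ 2 ^ i) (δ i) = -δ i) {p : ℚ[X]}
    (hp : aeval S p (∑ i ∈ range m, δ i + β) = 0) : (X ^ 2 ^ m - 1 : ℚ[X]) ∣ p := by
  induction m generalizing p with
  | zero =>
    rw [Finset.range_zero, Finset.sum_empty, zero_add] at hp
    have hirr : Irreducible (X ^ 2 ^ 0 - 1 : ℚ[X]) := by
      rw [pow_zero, pow_one, ← C_1]
      exact irreducible_X_sub_C 1
    refine irr_dvd S hirr hβ ?_ hp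
    rw [pow_zero, pow_one, map_sub, aeval_X, map_one, LinearMap.sub_apply, Module.End.one_apply,
      hSβ, sub_self]
  | succ m ih =>
    set α := ∑ i ∈ range m, δ i + β with hα
    have e1 : ∑ i ∈ range (m + 1), δ i + β = α + δ m := by
      rw [Finset.sum_range_succ, hα]
      abel
    rw [e1] at hp
    have hpow : ∀ (j : ℕ) (v : V), (S ^ j) v = v → ∀ k, (S ^ (j * k)) v = v := by
      intro j v h k
      induction k with
      | zero => rw [mul_zero, pow_zero, Module.End.one_apply]
      | succ k ihk => rw [mul_add, mul_one, pow_add, Module.End.mul_apply, h, ihk]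
    have hα1 : (S ^ 2 ^ m) α = α := by
      rw [hα, map_add, map_sum]
      congr 1
      · refine Finset.sum_congr rfl fun i hi => ?_
        have hi' := Finset.mem_range.1 hi
        have h1 : (S ^ 2 ^ (i + 1)) (δ i) = δ i := by
          rw [pow_succ, pow_mul, sq, Module.End.mul_apply, hSδ i (by omega), map_neg,
            hSδ i (by omega), neg_neg]
        obtain ⟨d, hd⟩ : ∃ d, m = i + 1 + d := ⟨m - (i + 1), by omega⟩
        have h2 := hpow _ _ h1 (2 ^ d)
        rwa [← pow_add, ← hd] at h2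
      · have h2 := hpow 1 β (by rw [pow_one]; exact hSβ) (2 ^ m)
        rwa [one_mul] at h2
    have hδm := hSδ m (Nat.lt_succ_self m)
    have hq1 : aeval S (X ^ 2 ^ m - 1 : ℚ[X]) α = 0 := by
      rw [map_sub, map_pow, aeval_X, map_one, LinearMap.sub_apply, Module.End.one_apply, hα1,
        sub_self]
    have hq2 : aeval S (X ^ 2 ^ m - 1 : ℚ[X]) (δ m) = (-2 : ℚ) • δ m := by
      rw [map_sub, map_pow, aeval_X, map_one, LinearMap.sub_apply, Module.End.one_apply, hδm]
      module
    have hpδ : aeval S p (δ m) = 0 := by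
      have h1 : aeval S (p * (X ^ 2 ^ m - 1)) (α + δ m) = 0 := by
        rw [mul_comm, map_mul, Module.End.mul_apply, hp, map_zero]
      rw [map_mul, Module.End.mul_apply, map_add, hq1, hq2, zero_add, map_smul] at h1
      rcases smul_eq_zero.1 h1 with h2 | h2
      · norm_num at h2
      · exact h2
    have hdvd1 : (X ^ 2 ^ m + 1 : ℚ[X]) ∣ p := by
      refine irr_dvd S (irr2 m) (hδ m (Nat.lt_succ_self m)) ?_ hpδ
      rw [map_add, map_pow, aeval_X, map_one, LinearMap.add_apply, Module.End.one_apply, hδm]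
      abel
    have hdvd2 : (X ^ 2 ^ m - 1 : ℚ[X]) ∣ p := by
      refine ih (fun i hi => hδ i (by omega)) (fun i hi => hSδ i (by omega)) ?_
      rw [map_add, hpδ, add_zero] at hp
      exact hp
    have hcop : IsCoprime (X ^ 2 ^ m - 1 : ℚ[X]) (X ^ 2 ^ m + 1) := by
      refine ⟨C (-1 / 2), C (1 / 2), ?_⟩
      have h1 : (C (-1 / 2) : ℚ[X]) = -C (1 / 2) := by
        rw [← C_neg]
        congr 1
        norm_num
      have h2 : (C (1 / 2) : ℚ[X]) * 2 = 1 := by
        have h3 : (2 : ℚ[X]) = C 2 := (map_ofNat C 2).symm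
        rw [h3, ← C_mul]
        norm_num
      rw [h1]
      linear_combination h2
    have h3 := hcop.mul_dvd hdvd2 hdvd1
    have h4 : (X ^ 2 ^ (m + 1) - 1 : ℚ[X]) = (X ^ 2 ^ m - 1) * (X ^ 2 ^ m + 1) := by ring
    rw [h4]
    exact h3

/-- The translates of the sum are linearly independent. -/
theorem cyc_indep {β : V} (hβ : β ≠ 0) (hSβ : S β = β) {δ : ℕ → V} (m : ℕ)
    (hδ : ∀ i, i < m → δ i ≠ 0) (hSδ : ∀ i, i < m → (S ^ 2 ^ i) (δ i) = -δ i) :
    LinearIndependent ℚ (fun j : Fin (2 ^ m) => (S ^ (j : ℕ)) (∑ i ∈ range m, δ i + β)) := by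
  rw [Fintype.linearIndependent_iff]
  intro c hc
  set p : ℚ[X] := ∑ j : Fin (2 ^ m), C (c j) * X ^ (j : ℕ) with hp
  have hdeg : p.degree < (2 ^ m : ℕ) := by
    rw [hp]
    refine (degree_sum_le _ _).trans_lt ?_
    rw [Finset.sup_lt_iff (WithBot.bot_lt_coe _)]
    intro j _
    refine (degree_C_mul_X_pow_le (j : ℕ) (c j)).trans_lt ?_
    exact_mod_cast j.2
  have hpα : aeval S p (∑ i ∈ range m, δ i + β) = 0 := by
    rw [← hc, hp, map_sum, LinearMap.sum_apply]
    refine Finset.sum_congr rfl fun j _ => ?_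
    rw [map_mul, aeval_C, map_pow, aeval_X, Module.End.mul_apply, Module.algebraMap_end_apply]
  have hdvd := cyc_dvd S hβ hSβ m hδ hSδ hpα
  have hp0 : p = 0 := by
    by_contra h0
    have h1 := degree_le_of_dvd hdvd h0
    have h2 : (X ^ 2 ^ m - 1 : ℚ[X]).degree = (2 ^ m : ℕ) := by
      have := degree_X_pow_sub_C (R := ℚ) (n := 2 ^ m) (by positivity) 1
      rwa [C_1] at this
    rw [h2] at h1
    exact absurd h1 (not_le.2 hdeg)
  intro j
  have h5 : p.coeff j = c j := by
    rw [hp, finsetSum_coeff, Finset.sum_eq_single j]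
    · simp
    · intro b _ hb
      rw [coeff_C_mul_X_pow, if_neg fun h => hb (Fin.ext h.symm)]
    · intro h
      exact absurd (Finset.mem_univ j) h
  rw [← h5, hp0, coeff_zero]

end

end Pool.Agent.Run7.h770.PG
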