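import Pool.Agent.Run7.h770.UB.Basic
set_option autoImplicit false

/-!
The square of an automorphism that inverts one of the roots inverts the next root.
-/

namespace Pool.Agent.Run7.h770.PG

section dbl

variable {Ω : Type*} [Field Ω]

theorem dbl_step (g : Ω →+* Ω) {I n m : Ω} (hI : I ^ 2 = -1) (hgI : g I = I) (hn : n ≠ 0)
    (hrel : m ^ 2 + 1 = 2 * n ^ 2 * m) (hg : g n = n⁻¹) : g (g n) = n ∧ g (g m) = m⁻¹ := by
  have h1 : g (g n) = n := by rw [hg, map_inv₀, hg, inv_inv]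
  refine ⟨h1, ?_⟩
  set s : Ω := m - n ^ 2 with hs
  have hs2 : s ^ 2 = n ^ 4 - 1 := by
    rw [hs]
    linear_combination hrel
  have hm : m = n ^ 2 + s := by rw [hs]; ring
  clear_value s
  have hinv : m⁻¹ = n ^ 2 - s := by
    have h2 : m * (n ^ 2 - s) = 1 := by
      rw [hm]
      linear_combination -hs2
    exact (eq_inv_of_mul_eq_one_right h2).symm
  have h3 : (g s) ^ 2 = (I * s * (n ^ 2)⁻¹) ^ 2 := by
    have h4 := congrArg g hs2
    rw [map_pow, map_sub, map_pow, map_one, hg] at h4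
    rw [h4, mul_pow, mul_pow, hI, hs2]
    field_simp
    ring
  have h5 : g (g s) = -s := by
    rcases sq_eq_sq_iff_eq_or_eq_neg.1 h3 with h6 | h6
    · rw [h6, map_mul, map_mul, hgI, map_inv₀, map_pow, hg, h6]
      field_simp
      linear_combination s * hI
    · rw [h6, map_neg, map_mul, map_mul, hgI, map_inv₀, map_pow, hg, h6]
      field_simp
      linear_combination s * hI
  rw [hinv, hm, map_add, map_add, map_pow, map_pow, h1, h5]
  ring

end dbl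

section flip

variable {M Ω : Type*} [Field M] [Field Ω] [Algebra M Ω]

/-- All powers `γ ^ (2 ^ a)` of an automorphism that inverts the first moved root invert exactly
the next first moved root. -/
theorem flip (γ : Ω ≃ₐ[M] Ω) {I : Ω} (hI : I ^ 2 = -1) (hγ : γ I = I) {n : ℕ → Ω}
    (hn : ∀ i, n i ≠ 0) (hrel : ∀ i, n (i + 1) ^ 2 + 1 = 2 * n i ^ 2 * n (i + 1)) {J : ℕ}
    (hfix : ∀ i, i < J → γ (n i) = n i) (hflip : γ (n J) = (n J)⁻¹) (a : ℕ) :
    (γ ^ 2 ^ a) I = I ∧ (∀ i, i < J + a → (γ ^ 2 ^ a) (n i) = n i) ∧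
      (γ ^ 2 ^ a) (n (J + a)) = (n (J + a))⁻¹ := by
  induction a with
  | zero =>
    rw [pow_zero, pow_one]
    exact ⟨hγ, hfix, hflip⟩
  | succ a ih =>
    obtain ⟨h1, h2, h3⟩ := ih
    have hp : ∀ z, (γ ^ 2 ^ (a + 1)) z = (γ ^ 2 ^ a) ((γ ^ 2 ^ a) z) := by
      intro z
      rw [pow_succ, pow_mul, sq, AlgEquiv.mul_apply]
    obtain ⟨h4, h5⟩ := dbl_step ((γ ^ 2 ^ a : Ω ≃ₐ[M] Ω) : Ω →+* Ω) hI h1 (hn (J + a))
      (hrel (J + a)) h3
    refine ⟨by rw [hp, h1, h1], fun i hi => ?_, ?_⟩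
    · rw [hp]
      rcases Nat.lt_succ_iff_lt_or_eq.1 (show i < (J + a) + 1 by omega) with h6 | h6
      · rw [h2 i h6, h2 i h6]
      · rw [h6]
        exact h4
    · rw [hp]
      exact h5

/-- The powers `γ ^ (2 ^ (a + 1))` fix the first `J + a + 1` roots. -/
theorem flip_fix (γ : Ω ≃ₐ[M] Ω) {I : Ω} (hI : I ^ 2 = -1) (hγ : γ I = I) {n : ℕ → Ω}
    (hn : ∀ i, n i ≠ 0) (hrel : ∀ i, n (i + 1) ^ 2 + 1 = 2 * n i ^ 2 * n (i + 1)) {J : ℕ}
    (hfix : ∀ i, i < J → γ (n i) = n i) (hflip : γ (n J) = (n J)⁻¹) (a : ℕ) {i : ℕ}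
    (hi : i ≤ J + a) : (γ ^ 2 ^ (a + 1)) (n i) = n i :=
  (flip γ hI hγ hn hrel hfix hflip (a + 1)).2.1 i (by omega)

end flip

end Pool.Agent.Run7.h770.PG
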