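import Pool.Agent.Run7.h770.PG.Pt
set_option autoImplicit false

/-!
The fields of the `2 ^ m`-torsion points: their degree is at most `16 ^ m`.
-/

namespace Pool.Agent.Run7.h770.PG

open WeierstrassCurve

open scoped WeierstrassCurve.Affine

open Pool.Agent.Run7.h770.IJ (crv)

open Pool.Agent.Run7.h770.UB (Chain)

section field

set_option linter.unusedSectionVars false

variable {M : Type*} [Field M] (W : WeierstrassCurve.Affine M)

/-- the coordinates of the points annihilated by `2 ^ m` -/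
def crd (Ω : Type*) [Field Ω] [Algebra M Ω] [DecidableEq Ω] (m : ℕ) : Set Ω :=
  {x | ∃ (X Y : Ω) (h : (W⁄Ω).Nonsingular X Y),
    (Affine.Point.some X Y h : (W⁄Ω).Point) ∈ tor (W⁄Ω).Point m ∧ (x = X ∨ x = Y)}

/-- the field generated by the coordinates of the points annihilated by `2 ^ m` -/
noncomputable def TF (Ω : Type*) [Field Ω] [Algebra M Ω] [DecidableEq Ω] (m : ℕ) :
    IntermediateField M Ω := IntermediateField.adjoin M (crd W Ω m)

variable {W} {Ω : Type*} [Field Ω] [Algebra M Ω] [DecidableEq Ω]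

/-- the coordinates as functions of the point -/
def cx : (W⁄Ω).Point → Ω
  | 0 => 0
  | .some X _ _ => X

/-- the coordinates as functions of the point -/
def cy : (W⁄Ω).Point → Ω
  | 0 => 0
  | .some _ Y _ => Y

theorem crd_finite {m : ℕ} (h : Finite (tor (W⁄Ω).Point m)) : (crd W Ω m).Finite := by
  have h1 : (tor (W⁄Ω).Point m : Set (W⁄Ω).Point).Finite := h
  refine ((h1.image cx).union (h1.image cy)).subset ?_
  rintro x ⟨X, Y, hn, hm, rfl | rfl⟩
  · exact Or.inl ⟨_, hm, rfl⟩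
  · exact Or.inr ⟨_, hm, rfl⟩

theorem map_mem_tor (g : Ω →ₐ[M] Ω) {m : ℕ} {P : (W⁄Ω).Point} (hP : P ∈ tor (W⁄Ω).Point m) :
    Affine.Point.map (W' := W) g P ∈ tor (W⁄Ω).Point m := by
  rw [mem_tor] at hP ⊢
  rw [← map_nsmul, hP, map_zero]

/-- The field of torsion points is stable. -/
theorem TF_stable (g : Ω →ₐ[M] Ω) {m : ℕ} {x : Ω} (hx : x ∈ TF W Ω m) : g x ∈ TF W Ω m := by
  have h1 : IntermediateField.map g (TF W Ω m) ≤ TF W Ω m := by
    unfold TF
    rw [IntermediateField.adjoin_map]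
    refine IntermediateField.adjoin_le_iff.2 ?_
    rintro _ ⟨x, ⟨X, Y, h, hm, hx⟩, rfl⟩
    have h2 := map_mem_tor g hm
    rw [Affine.Point.map_some] at h2
    refine IntermediateField.subset_adjoin M _ ⟨g X, g Y, _, h2, ?_⟩
    rcases hx with rfl | rfl
    · exact Or.inl rfl
    · exact Or.inr rfl
  exact h1 ⟨x, hx, rfl⟩

theorem TF_mono {m m' : ℕ} (h : m ≤ m') : TF W Ω m ≤ TF W Ω m' := by
  refine IntermediateField.adjoin.mono M _ _ ?_
  rintro x ⟨X, Y, hn, hm, hx⟩
  exact ⟨X, Y, hn, tor_mono h hm, hx⟩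

variable [CharZero M] [IsAlgClosed Ω] [Algebra.IsAlgebraic M Ω]

theorem TF_fd {m : ℕ} (h : Finite (tor (W⁄Ω).Point m)) : FiniteDimensional M (TF W Ω m) := by
  have _ : Finite (crd W Ω m) := crd_finite h
  exact IntermediateField.finiteDimensional_adjoin fun x _ =>
    (Algebra.IsAlgebraic.isAlgebraic x).isIntegral

theorem TF_deg (h1 : Finite (tor (W⁄Ω).Point 1)) (h4 : Nat.card (tor (W⁄Ω).Point 1) ≤ 4) (m : ℕ) :
    Module.finrank M (TF W Ω m) ≤ 16 ^ m := by
  obtain ⟨hf, hc⟩ := tor_card h1 h4 m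
  have _ := TF_fd hf
  obtain ⟨a, b, ha, hb, hab⟩ := tor_gen h1 h4 m
  have hext : ∀ σ : TF W Ω m →ₐ[M] Ω, ∃ g : Ω →ₐ[M] Ω, ∀ x : TF W Ω m, g x = σ x := by
    intro σ
    obtain ⟨g, hg⟩ := IsAlgClosed.surjective_domRestrict_of_isAlgebraic (K := M)
      (L := TF W Ω m) (M := Ω) (E := Ω) σ
    exact ⟨g, fun x => by rw [← hg]; rfl⟩
  choose e he using hext
  let Θ : (TF W Ω m →ₐ[M] Ω) → tor (W⁄Ω).Point m × tor (W⁄Ω).Point m := fun σ =>
    (⟨Affine.Point.map (W' := W) (e σ) a, map_mem_tor _ ha⟩,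
      ⟨Affine.Point.map (W' := W) (e σ) b, map_mem_tor _ hb⟩)
  have hΘ : Function.Injective Θ := by
    intro σ σ' hσ
    have g1 : Affine.Point.map (W' := W) (e σ) a = Affine.Point.map (W' := W) (e σ') a :=
      congrArg (fun z : tor (W⁄Ω).Point m × tor (W⁄Ω).Point m => (z.1 : (W⁄Ω).Point)) hσ
    have g2 : Affine.Point.map (W' := W) (e σ) b = Affine.Point.map (W' := W) (e σ') b :=
      congrArg (fun z : tor (W⁄Ω).Point m × tor (W⁄Ω).Point m => (z.2 : (W⁄Ω).Point)) hσ
    have hle : tor (W⁄Ω).Point m ≤ (Affine.Point.map (W' := W) (e σ)).eqLocus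
        (Affine.Point.map (W' := W) (e σ')) := by
      rw [← hab]
      refine (AddSubgroup.closure_le _).2 ?_
      rintro x (rfl | rfl)
      · exact g1
      · exact g2
    refine IntermediateField.algHom_ext_of_eq_adjoin M (S := TF W Ω m) (s := crd W Ω m) rfl ?_
    rintro x ⟨X, Y, hn, hm, hx⟩
    have h5 : Affine.Point.map (W' := W) (e σ) (Affine.Point.some X Y hn) =
      Affine.Point.map (W' := W) (e σ') (Affine.Point.some X Y hn) := hle hm
    rw [Affine.Point.map_some, Affine.Point.map_some, Affine.Point.some.injEq] at h5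
    rw [← he, ← he]
    rcases hx with rfl | rfl
    · exact h5.1
    · exact h5.2
  have hcard : Fintype.card (TF W Ω m →ₐ[M] Ω) = Module.finrank M (TF W Ω m) := AlgHom.card M _ Ω
  rw [← hcard, ← Nat.card_eq_fintype_card]
  refine (Nat.card_le_card_of_injective Θ hΘ).trans ?_
  rw [Nat.card_prod]
  calc Nat.card (tor (W⁄Ω).Point m) * Nat.card (tor (W⁄Ω).Point m) ≤ 4 ^ m * 4 ^ m :=
        Nat.mul_le_mul hc hc
    _ = 16 ^ m := by
        rw [← mul_pow]
        norm_num

theorem VV_eq (κ : M) : (WeierstrassCurve.Affine.baseChange (crv κ : WeierstrassCurve.Affine M) Ω) =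
    crv (algebraMap M Ω κ) :=
  Pool.Agent.Run7.h770.IJ.map_crv (algebraMap M Ω) κ

/-- The roots belong to the fields of torsion points. -/
theorem root_mem {κ : M} (h0 : algebraMap M Ω κ ≠ 0) (h16 : algebraMap M Ω κ ^ 2 ≠ 16)
    (hW : W = crv κ) {k n : ℕ → Ω} (hk0 : k 0 = algebraMap M Ω κ) (hc : ∀ J, Chain k n J)
    (hn4 : ∀ i, n i ^ 4 ≠ 1) (J : ℕ) : n J ∈ TF W Ω (J + 1) := by
  induction J using Nat.strong_induction_on with
  | _ J ih =>
  have _ : CharZero Ω := charZero_of_injective_algebraMap (algebraMap M Ω).injective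
  have hV : (W⁄Ω) = crv (algebraMap M Ω κ) := by rw [hW]; exact VV_eq κ
  have _ : IsAlgClosure M Ω := ⟨inferInstance, inferInstance⟩
  have _ : IsGalois M Ω := inferInstance
  have hfix : ∀ g : Ω ≃ₐ[TF W Ω (J + 1)] Ω, g (n J) = n J := by
    intro g
    have hmem : ∀ x ∈ TF W Ω (J + 1), g x = x := fun x hx => g.commutes ⟨x, hx⟩
    have hlow : ∀ i, i < J → g (n i) = n i := fun i hi =>
      hmem _ (TF_mono (by omega) (ih i hi))
    have hkJ : g (k J) = k J := by
      cases J with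
      | zero =>
        rw [hk0]
        exact hmem _ ((TF W Ω (0 + 1)).algebraMap_mem κ)
      | succ J =>
        rw [(hc (J + 1)).k2 J (by omega), map_mul, map_pow, hlow J (by omega), map_ofNat]
    have hn0 : n J ≠ 0 := (hc (J + 1)).n0 J (by omega)
    have hsq : g (n J) ^ 2 = n J ^ 2 := by
      refine fix_sq two_ne_zero ((g : Ω →ₐ[TF W Ω (J + 1)] Ω) : Ω →+* Ω) (hc (J + 1))
        (fun i _ => hn4 i) hlow fun X hX => ?_
      rw [hk0] at hX
      obtain ⟨Y, hY⟩ := exists_pt hV h0 h16 X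
      have h1 := tors_of_TT hV (J + 1) hY hX
      exact hmem X (IntermediateField.subset_adjoin M _ ⟨X, Y, hY, h1, Or.inl rfl⟩)
    have h1 := (hc (J + 1)).k1 J (by omega)
    have h2 : k J * n J = 2 * (n J ^ 2 + 1) := by
      rw [h1]
      field_simp
    have h3 := congrArg g h2
    rw [map_mul, hkJ, map_mul, map_add, map_pow, map_one, map_ofNat] at h3
    have h4 : (g (n J) - n J) * (2 * (g (n J) * n J - 1)) = 0 := by
      linear_combination g (n J) * h2 - n J * h3
    rcases mul_eq_zero.1 h4 with h5 | h5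
    · exact sub_eq_zero.1 h5
    · exfalso
      have h6 : g (n J) * n J = 1 := by
        rcases mul_eq_zero.1 h5 with h7 | h7
        · exact absurd h7 two_ne_zero
        · exact sub_eq_zero.1 h7
      apply hn4 J
      have h8 : (g (n J)) ^ 2 * n J ^ 2 = 1 := by
        rw [← mul_pow, h6, one_pow]
      rw [hsq] at h8
      rw [← h8]
      ring
  have h1 := (InfiniteGalois.mem_bot_iff_fixed (k := TF W Ω (J + 1)) (K := Ω) (n J)).2 hfix
  obtain ⟨y, hy⟩ := IntermediateField.mem_bot.1 h1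
  rw [← hy]
  exact y.2

end field

end Pool.Agent.Run7.h770.PG
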