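import Pool.Agent.W367.KT.Reg
import Pool.Agent.T6.H7.SX.Wei
set_option autoImplicit false

/-!
Functoriality of `K_2` and the automorphisms of a function field induced by automorphisms of the
field of constants.
-/

namespace Pool.Agent.Run7.h770.PG

open Pool.Agent.W367.KT Pool.Agent.T6.H7.SX

open Polynomial

open scoped TensorProduct

section k2

variable {F F' : Type*} [Field F] [Field F']

theorem symb_mul_left (a b c : Fˣ) : symb (a * b) c = symb a c + symb b c := by
  unfold symb
  rw [ofMul_mul, TensorProduct.add_tmul, map_add]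
  rfl

theorem symb_mul_right (a b c : Fˣ) : symb a (b * c) = symb a b + symb a c := by
  unfold symb
  rw [ofMul_mul, TensorProduct.tmul_add, map_add]
  rfl

theorem symb_steinberg (a b : Fˣ) (h : (a : F) + (b : F) = 1) : symb a b = 0 :=
  (QuotientAddGroup.eq_zero_iff _).2 (AddSubgroup.subset_closure ⟨a, b, h, rfl⟩)

/-- the homomorphism on `K_2` induced by a homomorphism of fields -/
noncomputable def K2map (f : F →+* F') : K2 F →+ K2 F' :=
  K2lift (fun a b => symb (Units.map (f : F →* F') a) (Units.map (f : F →* F') b))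
    (fun a b c => by rw [map_mul, symb_mul_left]) (fun a b c => by rw [map_mul, symb_mul_right])
    (fun a b h => symb_steinberg _ _ (by
      show f (a : F) + f (b : F) = 1
      rw [← map_add, h, map_one]))

theorem K2map_symb (f : F →+* F') (a b : Fˣ) :
    K2map f (symb a b) = symb (Units.map (f : F →* F') a) (Units.map (f : F →* F') b) := rfl

/-- the linear map on `K_2 ⊗ ℚ` induced by a homomorphism of fields -/
noncomputable def K2Q (f : F →+* F') : ℚ ⊗[ℤ] K2 F →ₗ[ℚ] ℚ ⊗[ℤ] K2 F' :=
  LinearMap.baseChange ℚ (K2map f).toIntLinearMap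

theorem K2Q_tmul (f : F →+* F') (q : ℚ) (a b : Fˣ) : K2Q f (q ⊗ₜ[ℤ] symb a b) =
    q ⊗ₜ[ℤ] symb (Units.map (f : F →* F') a) (Units.map (f : F →* F') b) := rfl

end k2

section ff

variable {L : Type*} [Field L] (W : WeierstrassCurve L)

/-- the coefficients of the curve are fixed by the homomorphism -/
structure Fix (g : L →+* L) : Prop where
  h1 : g W.a₁ = W.a₁
  h2 : g W.a₂ = W.a₂
  h3 : g W.a₃ = W.a₃
  h4 : g W.a₄ = W.a₄
  h6 : g W.a₆ = W.a₆

variable {W} {g : L →+* L} (hg : Fix W g)

include hg

theorem poly_eval : (WeierstrassCurve.Affine.polynomial W.toAffine : L[X][X]).eval₂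
    (eval₂RingHom ((cst W).comp g) (Xf W)) (Yf W) = 0 := by
  have h := weq W
  have key : ∀ q : L[X][X], q = X ^ 2 + C (C W.a₁ * X + C W.a₃) * X -
      C (X ^ 3 + C W.a₂ * X ^ 2 + C W.a₄ * X + C W.a₆) →
      q.eval₂ (eval₂RingHom ((cst W).comp g) (Xf W)) (Yf W) = 0 := by
    rintro q rfl
    simp only [eval₂_add, eval₂_sub, eval₂_mul, eval₂_pow, eval₂_X, eval₂_C, coe_eval₂RingHom,
      RingHom.comp_apply, hg.h1, hg.h2, hg.h3, hg.h4, hg.h6]
    linear_combination h
  exact key _ rfl

/-- the homomorphism on the coordinate ring -/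
noncomputable def thC : W.toAffine.CoordinateRing →+* W.toAffine.FunctionField :=
  AdjoinRoot.lift (eval₂RingHom ((cst W).comp g) (Xf W)) (Yf W) (poly_eval hg)

theorem thC_of (p : L[X]) : thC hg (AdjoinRoot.of W.toAffine.polynomial p) =
    p.eval₂ ((cst W).comp g) (Xf W) := by
  unfold thC
  rw [AdjoinRoot.lift_of]
  rfl

theorem thC_root : thC hg (AdjoinRoot.root W.toAffine.polynomial) = Yf W := by
  unfold thC
  rw [AdjoinRoot.lift_root]

theorem thC_injective : Function.Injective (thC hg) := by
  have hfin : Module.Finite L[X] W.toAffine.CoordinateRing :=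
    Module.Finite.of_basis (WeierstrassCurve.Affine.CoordinateRing.basis W.toAffine)
  have hint : Algebra.IsIntegral L[X] W.toAffine.CoordinateRing := Algebra.IsIntegral.of_finite _ _
  rw [RingHom.injective_iff_ker_eq_bot]
  apply Ideal.eq_bot_of_comap_eq_bot (R := L[X])
  rw [eq_bot_iff]
  intro p hp
  rw [Ideal.mem_comap, RingHom.mem_ker] at hp
  have h2 : p.eval₂ ((cst W).comp g) (Xf W) = 0 := by
    rw [← thC_of hg p]
    exact hp
  rw [← eval₂_map] at h2
  rw [Ideal.mem_bot]
  by_contra hp0
  exact tr_X W (p.map g) ((Polynomial.map_ne_zero_iff g.injective).2 hp0) h2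

/-- the homomorphism of the function field -/
noncomputable def th : W.toAffine.FunctionField →+* W.toAffine.FunctionField :=
  IsFractionRing.lift (thC_injective hg)

theorem th_algebraMap (a : W.toAffine.CoordinateRing) :
    th hg (algebraMap W.toAffine.CoordinateRing W.toAffine.FunctionField a) = thC hg a :=
  IsFractionRing.lift_algebraMap (thC_injective hg) a

theorem th_cst (c : L) : th hg (cst W c) = cst W (g c) := by
  have h : cst W c = algebraMap W.toAffine.CoordinateRing W.toAffine.FunctionField
      (AdjoinRoot.of W.toAffine.polynomial (C c)) := rfl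
  rw [h, th_algebraMap, thC_of, eval₂_C]
  rfl

theorem th_Xf : th hg (Xf W) = Xf W := by
  have h : Xf W = algebraMap W.toAffine.CoordinateRing W.toAffine.FunctionField
      (AdjoinRoot.of W.toAffine.polynomial X) := rfl
  conv_lhs => rw [h]
  rw [th_algebraMap, thC_of, eval₂_X]

theorem th_Yf : th hg (Yf W) = Yf W := by
  have h : Yf W = algebraMap W.toAffine.CoordinateRing W.toAffine.FunctionField
      (AdjoinRoot.root W.toAffine.polynomial) := rfl
  conv_lhs => rw [h]
  rw [th_algebraMap, thC_root]

end ff

end Pool.Agent.Run7.h770.PG
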