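import Pool.Agent.Run7.h770.PG.Many
import Pool.Agent.Run7.h770.PG.Fun
import Pool.Agent.Run7.h770.PG.Cyc
set_option autoImplicit false

/-!
A class whose translates by a cyclic group of automorphisms are linearly independent.
-/

namespace Pool.Agent.Run7.h770.UB

open Pool.Agent.W367.KT

/-- The regulator integral of the last symbol does not vanish. -/
theorem top_ne0 {n : ℂ} {R : ℝ} (hn : 100 ≤ ‖n‖) (hR1 : 1 < R) (hR2 : R < 2) :
    prK (fun t => gg n (circ R t)) (fun t => gg n (yt n R t)) ≠ 0 := by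
  have hR : 0 < R := by linarith
  have h0 := n_ne hn hR1 hR2
  have e2 := pr_estimate hR (by norm_num) (mul_ne_zero (by norm_num) (pow_ne_zero 2 h0)) 2 0
    (rep_xp hn hR1 hR2) (rep_yp hn hR1 hR2)
  have hlog : 2 ≤ Real.log ‖4 * n ^ 2‖ := by
    rw [Real.le_log_iff_exp_le (norm_pos_iff.2 (mul_ne_zero (by norm_num) (pow_ne_zero 2 h0)))]
    rw [norm_mul, norm_pow, Complex.norm_ofNat]
    have h1 : (100 : ℝ) ^ 2 ≤ ‖n‖ ^ 2 := pow_le_pow_left₀ (by norm_num) hn 2
    have h2 : Real.exp 2 ≤ 9 := by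
      have h3 : Real.exp 2 = Real.exp 1 ^ 2 := by
        rw [← Real.exp_nat_mul]
        norm_num
      rw [h3]
      have h4 := Real.exp_one_lt_d9
      have h5 := Real.exp_pos 1
      nlinarith
    linarith
  have hpi := Real.pi_pos
  simp only [norm_neg, norm_one, Real.log_one, mul_zero, Int.cast_zero, zero_mul, sub_zero,
    abs_zero, zero_add, Int.cast_ofNat, zero_sub] at e2
  rw [abs_le] at e2
  rw [abs_of_pos (by norm_num : (0 : ℝ) < 2)] at e2
  intro h
  rw [h] at e2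
  nlinarith [e2.1, e2.2, mul_le_mul_of_nonneg_left hlog hpi.le]

end Pool.Agent.Run7.h770.UB

namespace Pool.Agent.Run7.h770.PG

open Pool.Agent.W367.KT Pool.Agent.T6.H7.SX

open Pool.Agent.Run7.h770.IJ (crv)

open Pool.Agent.Run7.h770.UB

open WeierstrassCurve

open scoped TensorProduct

/-- A closed path for which the regulator integral does not vanish. -/
theorem exists_path0 {k n : ℕ → ℂ} {J : ℕ} (hc : Chain k n (J + 1))
    (hn : ∀ i, IsAlgebraic ℚ (n i)) (hk : ∀ i, IsAlgebraic ℚ (k i)) (hbig : 100 ≤ ‖n J‖) :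
    ∃ X Y : ℝ → ℂ, PP X ∧ PP Y ∧ (∀ t, Sm (k 0) (X t) (Y t)) ∧ (∀ t, Transcendental ℚ (X t)) ∧
      rgl n X Y (J + 1) ≠ 0 := by
  obtain ⟨R, hR1, hR2, hRt⟩ := exists_transcendental_between (r := 1) (s := 2) (by norm_num)
  have hR : 0 < R := by linarith
  have ppc := pp_circ hbig hR1 hR2
  have ppy := pp_yt hbig hR1 hR2
  have hsm : ∀ t, Sm (k J) (circ R t) (yt (n J) R t) := by
    intro t
    rw [hc.k1 J (Nat.lt_succ_self J)]
    exact sm_yt hbig hR1 hR2 t
  obtain ⟨X, Y, hX, hY, hS, hXJ, hYJ⟩ := lift_all J (hc.mono (Nat.le_succ J)) ppc ppy hsm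
  have hXt : ∀ t, Transcendental ℚ (X t) := by
    intro t h
    have h1 := alg_it (n := n) (i := J) (fun j _ => hn j) h
    rw [hXJ] at h1
    exact transcendental_circ hR hRt _ h1
  have hne : ∀ {z a : ℂ}, Transcendental ℚ z → IsAlgebraic ℚ a → z ≠ a := by
    intro z a hz ha h0
    apply hz
    rw [h0]
    exact ha
  refine ⟨X, Y, hX, hY, hS, hXt, ?_⟩
  have e1 : ∀ t, it n (X t) (J + 1) =
      (fun s => UB.gg (n J) (circ R s)) (((2 ^ J : ℕ) : ℝ) * t) := by
    intro t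
    show UB.gg (n J) (it n (X t) J) = _
    rw [hXJ]
    push_cast
    rfl
  have e2 : ∀ t, it n (Y t) (J + 1) =
      (fun s => UB.gg (n J) (yt (n J) R s)) (((2 ^ J : ℕ) : ℝ) * t) := by
    intro t
    show UB.gg (n J) (it n (Y t) J) = _
    rw [hYJ]
    push_cast
    rfl
  have hna : IsAlgebraic ℚ (n J) := hn J
  have hct : ∀ t, Transcendental ℚ (circ R t) := transcendental_circ hR hRt
  have hka : IsAlgebraic ℚ (2 * (n J + (n J)⁻¹)) := by
    rw [← hc.k1 J (Nat.lt_succ_self J)]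
    exact hk J
  have hyt : ∀ t, Transcendental ℚ (yt (n J) R t) := fun t =>
    tr_y hka (hct t) (sm_yt hbig hR1 hR2 t)
  have hmul : ∀ {z : ℂ}, Transcendental ℚ z → n J * z ≠ 1 := by
    intro z hz h0
    refine hne hz hna.inv ?_
    rw [eq_inv_of_mul_eq_one_right h0]
  have p1 := ppc.gg (fun t => hne (hct t) hna) (fun t => hmul (hct t))
  have p2 := ppy.gg (fun t => hne (hyt t) hna) (fun t => hmul (hyt t))
  unfold rgl
  simp only [e1, e2]
  rw [prK_mul p1 p2]
  have h2 : ((2 ^ J : ℕ) : ℝ) ≠ 0 := by positivity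
  exact mul_ne_zero h2 (top_ne0 hbig hR1 hR2)

section equi

variable {L : Type*} [Field L] [NumberField L] {W : WeierstrassCurve L} {C : VariableChange L}
  {k0 : L}

theorem cls_congr {kL kL' nL nL' : ℕ → L} (h0 : kL 0 = kL' 0) {i : ℕ}
    (h : ∀ j, j < i → nL j = nL' j) : cls W C kL nL i = cls W C kL' nL' i := by
  unfold cls xi yi
  rw [h0, it_congr (n := fun j => cst W (nL j)) (n' := fun j => cst W (nL' j)) fun j hj => by
    show cst W (nL j) = cst W (nL' j)
    rw [h j hj], it_congr (n := fun j => cst W (nL j)) (n' := fun j => cst W (nL' j)) fun j hj => by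
    show cst W (nL j) = cst W (nL' j)
    rw [h j hj]]

/-- the variable change is fixed -/
structure FixC (C : VariableChange L) (g : L →+* L) : Prop where
  u : g (C.u : L) = C.u
  r : g C.r = C.r
  s : g C.s = C.s
  t : g C.t = C.t

variable {g : L →+* L} (hg : Fix W g) (hgC : FixC C g)

include hgC

theorem th_X1 : th hg (X1 W C) = X1 W C := by
  unfold X1
  rw [map_div₀, map_sub, map_pow, th_Xf, th_cst, th_cst, hgC.u, hgC.r]

theorem th_Y1 : th hg (Y1 W C) = Y1 W C := by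
  unfold Y1
  rw [map_div₀, map_sub, map_sub, map_mul, map_sub, map_pow, th_Xf, th_Yf, th_cst, th_cst, th_cst,
    th_cst, hgC.u, hgC.r, hgC.s, hgC.t]

theorem th_x0 : th hg (x0 W C) = x0 W C := by
  unfold x0
  rw [map_div₀, map_sub, map_one, th_X1 hg hgC, th_Y1 hg hgC]

theorem th_y0 (hk : g k0 = k0) : th hg (y0 W C k0) = y0 W C k0 := by
  unfold y0
  rw [map_div₀, map_neg, map_add, map_mul, map_sub, map_one, th_X1 hg hgC, th_Y1 hg hgC, th_cst,
    hk]

theorem th_xi (nL : ℕ → L) (i : ℕ) : th hg (xi W C nL i) = xi W C (fun j => g (nL j)) i := by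
  unfold xi
  rw [map_it, th_x0 hg hgC]
  congr 1
  funext j
  exact th_cst hg _

theorem th_yi (hk : g k0 = k0) (nL : ℕ → L) (i : ℕ) :
    th hg (yi W C k0 nL i) = yi W C k0 (fun j => g (nL j)) i := by
  unfold yi
  rw [map_it, th_y0 hg hgC hk]
  congr 1
  funext j
  exact th_cst hg _

omit hgC in
theorem map_tu {F F' : Type*} [Field F] [Field F'] (f : F →+* F') (x : F) :
    Units.map (f : F →* F') (tu x) = tu (f x) := by
  by_cases h : x = 0
  · rw [h, map_zero]
    unfold tu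
    rw [dif_pos rfl, dif_pos rfl, map_one]
  · apply Units.ext
    rw [tu_val ((map_ne_zero f).2 h)]
    show f (tu x : F) = f x
    rw [tu_val h]

/-- The action on the classes. -/
theorem K2Q_cls {kL kL' : ℕ → L} (hk : g (kL 0) = kL 0) (hk' : kL' 0 = kL 0) (nL : ℕ → L) (i : ℕ) :
    K2Q (th hg) (cls W C kL nL i) = cls W C kL' (fun j => g (nL j)) i := by
  unfold cls
  rw [K2Q_tmul, map_tu, map_tu, th_xi hg hgC, th_yi hg hgC hk, hk']

end equi

/-- Let `g` be an endomorphism of the field `L` that fixes the coefficients of the curve. There is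
an element of the integral part of `K_2 ⊗ ℚ` of the curve whose `r` first translates by `g` (acting
on the function field through the field of constants) belong to the integral part and are
linearly independent. -/
def FreeOrbit {L : Type*} [Field L] (W : WeierstrassCurve L) (g : L →+* L) (r : ℕ) : Prop :=
  ∃ Γ : W.toAffine.FunctionField →+* W.toAffine.FunctionField,
    (∀ c, Γ (cst W c) = cst W (g c)) ∧ Γ (Xf W) = Xf W ∧ Γ (Yf W) = Yf W ∧
      ∃ α : ℚ ⊗[ℤ] K2 W.toAffine.FunctionField,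
        (∀ j : ℕ, (K2Q Γ ^ j) α ∈ H2MZ W.toAffine.FunctionField) ∧
          LinearIndependent ℚ (fun j : Fin r => (K2Q Γ ^ (j : ℕ)) α)

theorem eqv {L : Type*} [Field L] [NumberField L] {W : WeierstrassCurve L} {C : VariableChange L}
    {k0 : L} (hC : C • W = crv k0) (hk : k0 ≠ 0) {g : L →+* L} (hg : Fix W g) (hgC : FixC C g)
    (gk : g k0 = k0) {J m : ℕ} (ν : ℕ → ℕ → L)
    (hc : ∀ j, Chain (kof k0 (ν j)) (ν j) (J + 1 + m))
    (hint : ∀ j i, i ≤ J + 1 + m → IsIntegral ℤ (kof k0 (ν j) i))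
    (hν : ∀ j i, i < J + 1 + m → g (ν j i) = ν (j + 1) i) (σ : L →+* ℂ)
    (hbig : ∀ i, J ≤ i → i < J + 1 + m → 100 ≤ ‖σ (ν 0 i)‖)
    (hlow : ∀ i, i < J + 1 → ν 1 i = ν 0 i)
    (hfix : ∀ a, a < m → ∀ i, i < J + 1 + a → ν (2 ^ a) i = ν 0 i)
    (hper : ∀ a, a < m → ∀ i, i ≤ J + 1 + a → ν (2 ^ (a + 1)) i = ν 0 i)
    (hflip : ∀ a, a < m → ν (2 ^ a) (J + 1 + a) = (ν 0 (J + 1 + a))⁻¹) :
    FreeOrbit W g (2 ^ m) := by
  have halg : ∀ c : L, IsAlgebraic ℚ (σ c) := fun c => algebraic_sigma' σ c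
  have hcσ := (hc 0).map σ
  set S : Module.End ℚ (ℚ ⊗[ℤ] K2 W.toAffine.FunctionField) := K2Q (th hg) with hSdef
  set cc : ℕ → ℕ → ℚ ⊗[ℤ] K2 W.toAffine.FunctionField := fun j i =>
    cls W C (kof k0 (ν j)) (ν j) i with hcc
  have hcong : ∀ j j' i, (∀ l, l < i → ν j l = ν j' l) → cc j i = cc j' i := fun j j' i h =>
    cls_congr rfl h
  have hS1 : ∀ j i, i ≤ J + 1 + m → S (cc j i) = cc (j + 1) i := by
    intro j i hi
    have h1 := K2Q_cls (W := W) (C := C) hg hgC (kL := kof k0 (ν j)) (kL' := kof k0 (ν (j + 1)))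
      gk rfl (ν j) i
    rw [hSdef, hcc]
    refine h1.trans (cls_congr rfl fun l hl => hν j l (by omega))
  have hSl : ∀ l j i, i ≤ J + 1 + m → (S ^ l) (cc j i) = cc (j + l) i := by
    intro l
    induction l with
    | zero => intro j i _; rfl
    | succ l ih =>
      intro j i hi
      rw [pow_succ, Module.End.mul_apply, hS1 j i hi, ih _ _ hi]
      congr 1
      ring
  have hσ0 : σ (kof k0 (ν 0) 0) = σ k0 := rfl
  -- a path for the last but lower class
  obtain ⟨X, Y, hX, hY, hXY, hXt, hr0⟩ := exists_path0 (hcσ.mono (by omega : J + 1 ≤ J + 1 + m))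
    (fun _ => halg _) (fun _ => halg _) (hbig J le_rfl (by omega))
  have hXY' : ∀ t, Sm (σ k0) (X t) (Y t) := hXY
  have hgood := fun j i (hi : i ≤ J + 1 + m) => xi_good hC hk hX hY hXY' hXt σ rfl (hc j) rfl hi
  have hmem : ∀ j i, i ≤ J + 1 + m → cc j i ∈ H2MZ W.toAffine.FunctionField := by
    intro j i hi
    obtain ⟨a1, a2, a3⟩ := hgood j i hi
    exact cls_mem W C (kof k0 (ν j)) (ν j) a1 a2 a3 (hint j i hi)
  have hreg : ∀ (lp : Loop W.toAffine.FunctionField) (X Y : ℝ → ℂ),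
      (∀ (nL : ℕ → L) t i, lp.e t (xi W C nL i) = it (fun j => σ (nL j)) (X t) i) →
      (∀ (nL : ℕ → L) t i, lp.e t (yi W C k0 nL i) = it (fun j => σ (nL j)) (Y t) i) →
      ∀ j i, i ≤ J + 1 + m → lp.regQ (cc j i) = rgl (fun l => σ (ν j l)) X Y i := by
    intro lp X Y vx vy j i hi
    obtain ⟨a1, a2, a3⟩ := hgood j i hi
    have h1 := regQ_cls W C (kof k0 (ν j)) (ν j) lp (i := i) a1 a2
    refine h1.trans ?_
    have e1 : (fun t => lp.e t (xi W C (ν j) i)) = fun t => it (fun i => σ (ν j i)) (X t) i := by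
      funext t
      exact vx (ν j) t i
    have e2 : (fun t => lp.e t (yi W C (kof k0 (ν j) 0) (ν j) i)) =
        fun t => it (fun i => σ (ν j i)) (Y t) i := by
      funext t
      exact vy (ν j) t i
    rw [e1, e2]
    rfl
  have hβ : cc 0 (J + 1) ≠ 0 := by
    intro h
    obtain ⟨lp, g1, vx, vy⟩ := exists_lp hC hk hX hY hXY' hXt σ rfl
    have h1 := hreg lp X Y vx vy 0 (J + 1) (by omega)
    rw [h, map_zero] at h1
    exact hr0 h1.symm
  have hSβ : S (cc 0 (J + 1)) = cc 0 (J + 1) := by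
    rw [hS1 0 (J + 1) (by omega)]
    exact hcong _ _ _ fun l hl => hlow l hl
  set δ : ℕ → ℚ ⊗[ℤ] K2 W.toAffine.FunctionField := fun a =>
    cc (2 ^ a) (J + 1 + a + 1) - cc 0 (J + 1 + a + 1) with hδdef
  have hδ : ∀ a, a < m → δ a ≠ 0 := by
    intro a ha h
    obtain ⟨X, Y, hX, hY, hXY, hXt, hsep⟩ := exists_path
      (hcσ.mono (by omega : J + 1 + a + 1 ≤ J + 1 + m))
      (fun _ => halg _) (fun _ => halg _) (hbig (J + 1 + a) (by omega) (by omega))
    have hXY' : ∀ t, Sm (σ k0) (X t) (Y t) := hXY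
    obtain ⟨lp, g1, vx, vy⟩ := exists_lp hC hk hX hY hXY' hXt σ rfl
    have h1 := hreg lp X Y vx vy 0 (J + 1 + a + 1) (by omega)
    have h2 := hreg lp X Y vx vy (2 ^ a) (J + 1 + a + 1) (by omega)
    have h3 : cc (2 ^ a) (J + 1 + a + 1) = cc 0 (J + 1 + a + 1) := sub_eq_zero.1 h
    rw [h3] at h2
    refine hsep (fun l => σ (ν (2 ^ a) l)) (fun i hi => ?_) ?_ (h1.symm.trans h2)
    · show σ (ν (2 ^ a) i) = σ (ν 0 i)
      rw [hfix a ha i hi]
    · show σ (ν (2 ^ a) (J + 1 + a)) = (σ (ν 0 (J + 1 + a)))⁻¹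
      rw [hflip a ha, map_inv₀]
  have hSδ : ∀ a, a < m → (S ^ 2 ^ a) (δ a) = -δ a := by
    intro a ha
    rw [hδdef]
    show (S ^ 2 ^ a) (cc (2 ^ a) (J + 1 + a + 1) - cc 0 (J + 1 + a + 1)) =
      -(cc (2 ^ a) (J + 1 + a + 1) - cc 0 (J + 1 + a + 1))
    rw [map_sub, hSl _ _ _ (by omega), hSl _ _ _ (by omega), zero_add, ← two_mul, ← pow_succ',
      hcong (2 ^ (a + 1)) 0 (J + 1 + a + 1) fun l hl => hper a ha l (by omega)]
    abel
  refine ⟨th hg, fun c => th_cst hg c, th_Xf hg, th_Yf hg,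
    ∑ a ∈ Finset.range m, δ a + cc 0 (J + 1), fun j => ?_, cyc_indep S hβ hSβ m hδ hSδ⟩
  show (S ^ j) _ ∈ _
  rw [map_add, map_sum]
  refine Submodule.add_mem _ (Submodule.sum_mem _ fun a ha => ?_) ?_
  · have ha' := Finset.mem_range.1 ha
    rw [hδdef]
    show (S ^ j) (cc (2 ^ a) (J + 1 + a + 1) - cc 0 (J + 1 + a + 1)) ∈ _
    rw [map_sub, hSl _ _ _ (by omega), hSl _ _ _ (by omega)]
    exact Submodule.sub_mem _ (hmem _ _ (by omega)) (hmem _ _ (by omega))
  · rw [hSl _ _ _ (by omega)]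
    exact hmem _ _ (by omega)

end Pool.Agent.Run7.h770.PG
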