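import Pool.Agent.Run7.h770.PG.Nd
set_option autoImplicit false

/-!
Estimates for the iterates of the isogenies before a flip, and for the flip.
-/

namespace Pool.Agent.Run7.h770.PG

open Pool.Agent.Run7.h770.UB (gg Sm Sm.step)

section size

theorem unf_size {n X Q : ℝ} (hN : 10 ^ 6 ≤ n) (hQ : Q * 10 ^ 9 ≤ n ^ 2) (hX : 0 ≤ X)
    (x1 : 8 * n ≤ X ^ 3) (x2 : X ^ 3 ≤ Q * n) : 200 ≤ X ∧ 1000 * X ≤ n := by
  constructor
  · rw [← pow_le_pow_iff_left₀ (by norm_num) hX (three_ne_zero)]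
    linarith
  · rw [← pow_le_pow_iff_left₀ (by positivity) (by linarith) (three_ne_zero)]
    have h1 : Q * 10 ^ 9 * n ≤ n ^ 2 * n := mul_le_mul_of_nonneg_right hQ (by linarith)
    nlinarith

variable {x y N : ℂ} (h1 : 200 ≤ ‖x‖) (h2 : 1000 * ‖x‖ ≤ ‖N‖) (hN : 10 ^ 6 ≤ ‖N‖)

include h1 h2 hN

theorem size_a : ‖N * x - 1‖ ≤ 1001 / 1000 * (‖N‖ * ‖x‖) ∧
    999 / 1000 * (‖N‖ * ‖x‖) ≤ ‖N * x - 1‖ := by
  have k1 := norm_sub_le (N * x) 1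
  have k2 := norm_sub_norm_le (N * x) 1
  rw [norm_mul, norm_one] at k1 k2
  have k3 : 1000 ≤ ‖N‖ * ‖x‖ := by nlinarith
  constructor <;> linarith

theorem size_b : ‖x - N‖ ≤ 1001 / 1000 * ‖N‖ ∧ 999 / 1000 * ‖N‖ ≤ ‖x - N‖ := by
  have k1 := norm_sub_le x N
  have k2 := norm_sub_norm_le N x
  rw [norm_sub_rev] at k2
  constructor <;> linarith

theorem size_c : ‖1 - x ^ 2‖ ≤ 1001 / 1000 * ‖x‖ ^ 2 ∧ 999 / 1000 * ‖x‖ ^ 2 ≤ ‖1 - x ^ 2‖ := by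
  have k1 := norm_sub_le 1 (x ^ 2)
  have k2 := norm_sub_norm_le (x ^ 2) 1
  rw [norm_sub_rev] at k2
  rw [norm_pow, norm_one] at k1 k2
  constructor <;> nlinarith

theorem size_gg : ‖gg N x‖ ≤ 1003 / 1000 * ‖x‖ ^ 2 ∧ 997 / 1000 * ‖x‖ ^ 2 ≤ ‖gg N x‖ := by
  obtain ⟨a1, a2⟩ := size_a h1 h2 hN
  obtain ⟨b1, b2⟩ := size_b h1 h2 hN
  have hb : 0 < ‖x - N‖ := by linarith
  have e : ‖gg N x‖ * ‖x - N‖ = ‖x‖ * ‖N * x - 1‖ := by
    unfold gg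
    rw [norm_div, norm_mul, div_mul_cancel₀ _ hb.ne']
  have hg : 0 ≤ ‖gg N x‖ := norm_nonneg _
  generalize ‖gg N x‖ = g at *
  generalize ‖x - N‖ = b at *
  generalize ‖N * x - 1‖ = a at *
  have hN0 : 0 < ‖N‖ := by linarith
  have hx0 : 0 < ‖x‖ := by linarith
  generalize ‖N‖ = n at *
  generalize ‖x‖ = X at *
  have c1 : g * (999 / 1000 * n) ≤ X * (1001 / 1000 * (n * X)) := by
    calc g * (999 / 1000 * n) ≤ g * b := mul_le_mul_of_nonneg_left b2 hg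
      _ = X * a := e
      _ ≤ _ := mul_le_mul_of_nonneg_left a1 hx0.le
  have c2 : X * (999 / 1000 * (n * X)) ≤ g * (1001 / 1000 * n) := by
    calc X * (999 / 1000 * (n * X)) ≤ X * a := mul_le_mul_of_nonneg_left a2 hx0.le
      _ = g * b := e.symm
      _ ≤ _ := mul_le_mul_of_nonneg_left b1 hg
  constructor
  · refine le_of_mul_le_mul_right ?_ hN0
    nlinarith [mul_pos hN0 (pow_pos hx0 2)]
  · refine le_of_mul_le_mul_right ?_ hN0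
    nlinarith [mul_pos hN0 (pow_pos hx0 2)]

theorem flip_x : -gg N⁻¹ x - 1 = (1 - x ^ 2) / (N * x - 1) ∧
    ‖-gg N⁻¹ x - 1‖ * ‖N‖ ≤ 1003 / 1000 * ‖x‖ ∧ 997 / 1000 * ‖x‖ ≤ ‖-gg N⁻¹ x - 1‖ * ‖N‖ := by
  obtain ⟨a1, a2⟩ := size_a h1 h2 hN
  obtain ⟨c1, c2⟩ := size_c h1 h2 hN
  have hN0 : 0 < ‖N‖ := by linarith
  have hx0 : 0 < ‖x‖ := by linarith
  have hNx : 0 < ‖N * x - 1‖ := by
    have : 0 < ‖N‖ * ‖x‖ := mul_pos hN0 hx0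
    linarith
  have hne : N * x - 1 ≠ 0 := norm_pos_iff.1 hNx
  have hN1 : N ≠ 0 := norm_pos_iff.1 hN0
  have e0 : -gg N⁻¹ x - 1 = (1 - x ^ 2) / (N * x - 1) := by
    have h5 : x - N⁻¹ = (N * x - 1) / N := by
      field_simp
    unfold gg
    rw [h5]
    clear h5 a1 a2 hNx
    generalize ha : N * x - 1 = a at *
    field_simp
    linear_combination ha
  refine ⟨e0, ?_⟩
  have e : ‖-gg N⁻¹ x - 1‖ * ‖N * x - 1‖ = ‖1 - x ^ 2‖ := by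
    rw [e0, norm_div, div_mul_cancel₀ _ hNx.ne']
  have hg : 0 ≤ ‖-gg N⁻¹ x - 1‖ := norm_nonneg _
  generalize ‖-gg N⁻¹ x - 1‖ = g at *
  generalize ‖N * x - 1‖ = a at *
  generalize ‖1 - x ^ 2‖ = c at *
  generalize ‖N‖ = n at *
  generalize ‖x‖ = X at *
  have d1 : g * (999 / 1000 * (n * X)) ≤ 1001 / 1000 * X ^ 2 := by
    calc g * (999 / 1000 * (n * X)) ≤ g * a := mul_le_mul_of_nonneg_left a2 hg
      _ = c := e
      _ ≤ _ := c1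
  have d2 : 999 / 1000 * X ^ 2 ≤ g * (1001 / 1000 * (n * X)) := by
    calc 999 / 1000 * X ^ 2 ≤ c := c2
      _ = g * a := e.symm
      _ ≤ _ := mul_le_mul_of_nonneg_left a1 hg
  constructor
  · refine le_of_mul_le_mul_right ?_ hx0
    nlinarith [pow_pos hx0 2]
  · refine le_of_mul_le_mul_right ?_ hx0
    nlinarith [pow_pos hx0 2]

theorem flip_y (hy : ‖N‖ ≤ ‖y‖) (hs : Sm (2 * (N + N⁻¹)) x y) :
    ‖gg N⁻¹ y - 1‖ * ‖N‖ ≤ 1010 / 1000 * ‖x‖ ∧ 990 / 1000 * ‖x‖ ≤ ‖gg N⁻¹ y - 1‖ * ‖N‖ := by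
  have hN0 : 0 < ‖N‖ := by linarith
  have hx0 : 0 < ‖x‖ := by linarith
  have hy0 : 0 < ‖y‖ := by linarith
  have hN1 : N ≠ 0 := norm_pos_iff.1 hN0
  have hx1 : x ≠ 0 := norm_pos_iff.1 hx0
  have hy1 : y ≠ 0 := norm_pos_iff.1 hy0
  have k1 := norm_sub_le (N * y) 1
  have k2 := norm_sub_norm_le (N * y) 1
  rw [norm_mul, norm_one] at k1 k2
  have k3 : 1000 ≤ ‖N‖ * ‖y‖ := by nlinarith
  have hNy : 0 < ‖N * y - 1‖ := by linarith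
  have hne : N * y - 1 ≠ 0 := norm_pos_iff.1 hNy
  have e0 : gg N⁻¹ y - 1 = y * (2 / N - x - x⁻¹) / (N * y - 1) := by
    have h5 : y - N⁻¹ = (N * y - 1) / N := by
      field_simp
    unfold gg
    rw [h5]
    unfold Sm at hs
    have h6 : x + x⁻¹ = 2 * (N + N⁻¹) - y - y⁻¹ := by linear_combination hs
    have h7 : 2 / N - x - x⁻¹ = y + y⁻¹ - 2 * N := by
      rw [sub_sub, h6]
      field_simp
      ring
    rw [h7]
    clear h5 h6 h7 k1 k2 hNy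
    generalize ha : N * y - 1 = a at *
    field_simp
    linear_combination ha
  have e : ‖gg N⁻¹ y - 1‖ * ‖N * y - 1‖ = ‖y‖ * ‖2 / N - x - x⁻¹‖ := by
    rw [e0, norm_div, norm_mul, div_mul_cancel₀ _ hNy.ne']
  have i1 : ‖2 / N‖ ≤ 1 / 100 := by
    rw [norm_div, Complex.norm_ofNat, div_le_iff₀ hN0]
    linarith
  have i2 : ‖x⁻¹‖ ≤ 1 / 200 := by
    rw [norm_inv]
    rw [inv_le_comm₀ hx0 (by norm_num)]
    linarith
  have p1 : ‖2 / N - x - x⁻¹‖ ≤ 1001 / 1000 * ‖x‖ := by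
    have q1 := norm_sub_le (2 / N - x) x⁻¹
    have q2 := norm_sub_le (2 / N) x
    linarith
  have p2 : 999 / 1000 * ‖x‖ ≤ ‖2 / N - x - x⁻¹‖ := by
    have q1 := norm_sub_norm_le x (2 / N - x⁻¹)
    have q2 := norm_sub_le (2 / N) x⁻¹
    have q3 : ‖x - (2 / N - x⁻¹)‖ = ‖2 / N - x - x⁻¹‖ := by
      rw [norm_sub_rev]
      congr 1
      ring
    rw [q3] at q1
    linarith
  have hg : 0 ≤ ‖gg N⁻¹ y - 1‖ := norm_nonneg _
  generalize ‖gg N⁻¹ y - 1‖ = g at *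
  generalize ‖N * y - 1‖ = a at *
  generalize ‖2 / N - x - x⁻¹‖ = c at *
  generalize ‖N‖ = n at *
  generalize ‖x‖ = X at *
  generalize ‖y‖ = Y at *
  have m1 : a ≤ 1001 / 1000 * (n * Y) := by linarith
  have m2 : 999 / 1000 * (n * Y) ≤ a := by linarith
  have d1 : g * (999 / 1000 * (n * Y)) ≤ Y * (1001 / 1000 * X) := by
    calc g * (999 / 1000 * (n * Y)) ≤ g * a := mul_le_mul_of_nonneg_left m2 hg
      _ = Y * c := e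
      _ ≤ _ := mul_le_mul_of_nonneg_left p1 hy0.le
  have d2 : Y * (999 / 1000 * X) ≤ g * (1001 / 1000 * (n * Y)) := by
    calc Y * (999 / 1000 * X) ≤ Y * c := mul_le_mul_of_nonneg_left p2 hy0.le
      _ = g * a := e.symm
      _ ≤ _ := mul_le_mul_of_nonneg_left m1 hg
  constructor
  · refine le_of_mul_le_mul_right ?_ hy0
    nlinarith [mul_pos hx0 hy0]
  · refine le_of_mul_le_mul_right ?_ hy0
    nlinarith [mul_pos hx0 hy0]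

end size

/-- The functions before the flip. -/
structure Unf (N : ℂ) (Q D : ℝ) (x y : ℝ → ℂ) : Prop where
  hN : 10 ^ 6 ≤ ‖N‖
  hQ1 : 1 ≤ Q
  hQ : Q * 10 ^ 9 ≤ ‖N‖ ^ 2
  hD : 0 ≤ D
  x1 : ∀ t, 8 * ‖N‖ ≤ ‖x t‖ ^ 3
  x2 : ∀ t, ‖x t‖ ^ 3 ≤ Q * ‖N‖
  y1 : ∀ t, ‖N‖ ≤ ‖y t‖
  s : ∀ t, Sm (2 * (N + N⁻¹)) (x t) (y t)
  d : ∀ t, ∃ δ, HasDerivAt x δ t ∧ ‖δ‖ ≤ D * ‖x t‖

/-- the size of the next large parameter -/
theorem next_size {N N' : ℂ} (h : N' ^ 2 + 1 = 2 * N ^ 2 * N') (h1 : 1 ≤ ‖N'‖) :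
    2 * ‖N‖ ^ 2 - 1 ≤ ‖N'‖ ∧ ‖N'‖ ≤ 2 * ‖N‖ ^ 2 + 1 := by
  have h0 : N' ≠ 0 := by
    rintro rfl
    rw [norm_zero] at h1
    norm_num at h1
  have e : 2 * N ^ 2 = N' + N'⁻¹ := by
    field_simp
    linear_combination -h
  have h3 : ‖N'⁻¹‖ ≤ 1 := by
    rw [norm_inv]
    exact inv_le_one_of_one_le₀ h1
  have e2 : ‖2 * N ^ 2‖ = 2 * ‖N‖ ^ 2 := by rw [norm_mul, norm_pow, Complex.norm_ofNat]
  constructor
  · have := norm_add_le N' N'⁻¹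
    rw [← e, e2] at this
    linarith
  · have := norm_sub_norm_le N' (-N'⁻¹)
    rw [sub_neg_eq_add, ← e, e2, norm_neg] at this
    linarith

theorem Unf.size {N : ℂ} {Q D : ℝ} {x y : ℝ → ℂ} (h : Unf N Q D x y) (t : ℝ) :
    200 ≤ ‖x t‖ ∧ 1000 * ‖x t‖ ≤ ‖N‖ := unf_size h.hN h.hQ (norm_nonneg _) (h.x1 t) (h.x2 t)

theorem Unf.step {N N' : ℂ} {Q D : ℝ} {x y : ℝ → ℂ} (h : Unf N Q D x y)
    (hN' : N' ^ 2 + 1 = 2 * N ^ 2 * N') (h1 : 1 ≤ ‖N'‖) :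
    Unf N' (Q ^ 2) (3 * D) (fun t => gg N (x t)) (fun t => gg N (y t)) := by
  obtain ⟨s1, s2⟩ := next_size hN' h1
  have hN := h.hN
  have hQ := h.hQ
  have hQ1 := h.hQ1
  have hN0 : 0 < ‖N‖ := by linarith
  have hNN : 10 ^ 12 ≤ ‖N‖ ^ 2 := by nlinarith
  have hgg := fun t => size_gg (h.size t).1 (h.size t).2 hN
  have hx1 : ∀ t, 8 * ‖N'‖ ≤ ‖gg N (x t)‖ ^ 3 := by
    intro t
    have k1 := (hgg t).2
    have k2 : (997 / 1000 * ‖x t‖ ^ 2) ^ 3 ≤ ‖gg N (x t)‖ ^ 3 :=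
      pow_le_pow_left₀ (by positivity) k1 3
    have k3 : (8 * ‖N‖) ^ 2 ≤ (‖x t‖ ^ 3) ^ 2 := pow_le_pow_left₀ (by positivity) (h.x1 t) 2
    have k4 : (997 / 1000 * ‖x t‖ ^ 2) ^ 3 = (997 / 1000) ^ 3 * (‖x t‖ ^ 3) ^ 2 := by ring
    rw [k4] at k2
    nlinarith
  have hx2 : ∀ t, ‖gg N (x t)‖ ^ 3 ≤ Q ^ 2 * ‖N'‖ := by
    intro t
    have k1 := (hgg t).1
    have k2 : ‖gg N (x t)‖ ^ 3 ≤ (1003 / 1000 * ‖x t‖ ^ 2) ^ 3 :=
      pow_le_pow_left₀ (norm_nonneg _) k1 3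
    have k3 : (‖x t‖ ^ 3) ^ 2 ≤ (Q * ‖N‖) ^ 2 := pow_le_pow_left₀ (by positivity) (h.x2 t) 2
    have k4 : (1003 / 1000 * ‖x t‖ ^ 2) ^ 3 = (1003 / 1000) ^ 3 * (‖x t‖ ^ 3) ^ 2 := by ring
    rw [k4] at k2
    have k5 : Q ^ 2 * (2 * ‖N‖ ^ 2 - 1) ≤ Q ^ 2 * ‖N'‖ :=
      mul_le_mul_of_nonneg_left s1 (by positivity)
    have k6 : Q ^ 2 * 10 ^ 12 ≤ Q ^ 2 * ‖N‖ ^ 2 := mul_le_mul_of_nonneg_left hNN (by positivity)
    have k7 : 0 < Q ^ 2 := by positivity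
    nlinarith
  have hN'1 : ‖N‖ ^ 2 ≤ ‖N'‖ := by linarith
  have hN'2 : 10 ^ 6 ≤ ‖N'‖ := by linarith
  have hQ2 : Q ^ 2 * 10 ^ 9 ≤ ‖N'‖ ^ 2 := by
    have k1 : (Q * 10 ^ 9) ^ 2 ≤ (‖N‖ ^ 2) ^ 2 := pow_le_pow_left₀ (by positivity) hQ 2
    have k2 : (‖N‖ ^ 2) ^ 2 ≤ ‖N'‖ ^ 2 := pow_le_pow_left₀ (by positivity) hN'1 2
    nlinarith
  have hsz := fun t => unf_size hN'2 hQ2 (norm_nonneg (gg N (x t))) (hx1 t) (hx2 t)
  have hNne : N ≠ 0 := norm_pos_iff.1 hN0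
  have hN'ne : N' ≠ 0 := norm_pos_iff.1 (by linarith)
  have hsm : ∀ t, ‖gg N (y t)‖ ≥ 1 ∧ Sm (2 * (N' + N'⁻¹)) (gg N (x t)) (gg N (y t)) := by
    intro t
    obtain ⟨x200, x1000⟩ := h.size t
    obtain ⟨a1, a2⟩ := size_a x200 x1000 hN
    obtain ⟨b1, b2⟩ := size_b x200 x1000 hN
    have hx0 : 0 < ‖x t‖ := by linarith
    have hy0 : 0 < ‖y t‖ := lt_of_lt_of_le hN0 (h.y1 t)
    have hy1 := h.y1 t
    have c1 : x t ≠ N := by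
      intro h0
      rw [h0, sub_self, norm_zero] at b2
      linarith
    have c2 : N * x t ≠ 1 := by
      intro h0
      rw [h0, sub_self, norm_zero] at a2
      have : 0 < ‖N‖ * ‖x t‖ := mul_pos hN0 hx0
      linarith
    have k2 := norm_sub_norm_le (N * y t) 1
    rw [norm_mul, norm_one] at k2
    have k3 : ‖N‖ * ‖N‖ ≤ ‖N‖ * ‖y t‖ := mul_le_mul_of_nonneg_left hy1 hN0.le
    have k4 : 0 < ‖N * y t - 1‖ := by nlinarith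
    have c4 : N * y t ≠ 1 := fun h0 => (norm_pos_iff.1 k4) (sub_eq_zero.2 h0)
    have hs := h.s t
    have c3 : y t ≠ N := by
      intro h0
      unfold Sm at hs
      rw [h0] at hs
      have h5 : N = x t + (x t)⁻¹ - N⁻¹ := by linear_combination -hs
      have h6 : ‖(x t)⁻¹‖ ≤ 1 := by
        rw [norm_inv]
        exact inv_le_one_of_one_le₀ (by linarith)
      have h7 : ‖N⁻¹‖ ≤ 1 := by
        rw [norm_inv]
        exact inv_le_one_of_one_le₀ (by linarith)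
      have h8 : ‖N‖ ≤ ‖x t‖ + ‖(x t)⁻¹‖ + ‖N⁻¹‖ := by
        conv_lhs => rw [h5]
        exact (norm_sub_le _ _).trans (by
          have := norm_add_le (x t) (x t)⁻¹
          linarith)
      linarith
    have hst := Sm.step hNne (norm_pos_iff.1 hx0) (norm_pos_iff.1 hy0) c1 c2 c3 c4 hs
    have e4 : 4 * N ^ 2 = 2 * (N' + N'⁻¹) := by
      field_simp
      linear_combination -2 * hN'
    refine ⟨?_, e4 ▸ hst⟩
    have d1 : ‖y t - N‖ ≤ 2 * ‖y t‖ := by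
      have := norm_sub_le (y t) N
      linarith
    have d2 : 0 < ‖y t - N‖ := norm_pos_iff.2 (sub_ne_zero.2 c3)
    have d3 : ‖gg N (y t)‖ * ‖y t - N‖ = ‖y t‖ * ‖N * y t - 1‖ := by
      unfold gg
      rw [norm_div, norm_mul, div_mul_cancel₀ _ d2.ne']
    have d4 : ‖y t‖ * ‖N * y t - 1‖ ≤ ‖gg N (y t)‖ * (2 * ‖y t‖) := by
      rw [← d3]
      exact mul_le_mul_of_nonneg_left d1 (norm_nonneg _)
    have d5 : ‖N * y t - 1‖ ≤ ‖gg N (y t)‖ * 2 := by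
      refine le_of_mul_le_mul_left ?_ hy0
      linarith
    nlinarith
  refine ⟨hN'2, by nlinarith, hQ2, by linarith [h.hD], hx1, hx2, fun t => ?_, fun t => (hsm t).2,
    fun t => ?_⟩
  · obtain ⟨m1, m2⟩ := hsm t
    obtain ⟨m3, m4⟩ := hsz t
    unfold Sm at m2
    have e5 : N' = gg N (x t) + (gg N (x t))⁻¹ + gg N (y t) + (gg N (y t))⁻¹ - N' - 2 * N'⁻¹ := by
      linear_combination -m2
    have g1 : ‖(gg N (x t))⁻¹‖ ≤ 1 := by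
      rw [norm_inv]
      exact inv_le_one_of_one_le₀ (by linarith)
    have g2 : ‖(gg N (y t))⁻¹‖ ≤ 1 := by
      rw [norm_inv]
      exact inv_le_one_of_one_le₀ m1
    have g3 : ‖2 * N'⁻¹‖ ≤ 1 := by
      rw [norm_mul, norm_inv, Complex.norm_ofNat]
      have : ‖N'‖⁻¹ ≤ 1 / 2 := by
        rw [inv_le_comm₀ (by linarith) (by norm_num)]
        linarith
      linarith
    have e6 : gg N (y t) = 2 * N' + (2 * N'⁻¹ - gg N (x t) - (gg N (x t))⁻¹ - (gg N (y t))⁻¹) := by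
      linear_combination m2
    have g4 : 2 * ‖N'‖ - ‖2 * N'⁻¹ - gg N (x t) - (gg N (x t))⁻¹ - (gg N (y t))⁻¹‖ ≤
        ‖gg N (y t)‖ := by
      have := norm_sub_norm_le (2 * N') (-(2 * N'⁻¹ - gg N (x t) - (gg N (x t))⁻¹ - (gg N (y t))⁻¹))
      rw [sub_neg_eq_add, ← e6, norm_neg, norm_mul, Complex.norm_ofNat] at this
      exact this
    have g5 : ‖2 * N'⁻¹ - gg N (x t) - (gg N (x t))⁻¹ - (gg N (y t))⁻¹‖ ≤
        ‖2 * N'⁻¹‖ + ‖gg N (x t)‖ + ‖(gg N (x t))⁻¹‖ + ‖(gg N (y t))⁻¹‖ := by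
      refine (norm_sub_le _ _).trans (add_le_add_left ?_ _)
      refine (norm_sub_le _ _).trans (add_le_add_left ?_ _)
      exact norm_sub_le _ _
    show ‖N'‖ ≤ ‖gg N (y t)‖
    linarith
  · obtain ⟨δ, hδ, hδ2⟩ := h.d t
    obtain ⟨x200, x1000⟩ := h.size t
    obtain ⟨a1, a2⟩ := size_a x200 x1000 hN
    obtain ⟨b1, b2⟩ := size_b x200 x1000 hN
    have hx0 : 0 < ‖x t‖ := by linarith
    have ha0 : 0 < ‖N * x t - 1‖ := by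
      have : 0 < ‖N‖ * ‖x t‖ := mul_pos hN0 hx0
      linarith
    have hb0 : 0 < ‖x t - N‖ := by linarith
    have n1 := norm_pos_iff.1 ha0
    have n2 := norm_pos_iff.1 hb0
    have n3 := norm_pos_iff.1 hx0
    refine ⟨gg N (x t) * (δ * ((x t)⁻¹ + N / (N * x t - 1) - (x t - N)⁻¹)), ?_, ?_⟩
    · have k1 := ((hδ.mul ((hδ.const_mul N).sub_const 1)).div (hδ.sub_const N) n2)
      refine k1.congr_deriv ?_
      unfold gg
      simp only [Pi.mul_apply]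
      field_simp
    · rw [norm_mul, norm_mul]
      have k1 : ‖(x t)⁻¹ + N / (N * x t - 1) - (x t - N)⁻¹‖ ≤
          ‖(x t)⁻¹‖ + ‖N / (N * x t - 1)‖ + ‖(x t - N)⁻¹‖ :=
        (norm_sub_le _ _).trans (add_le_add_left (norm_add_le _ _) _)
      have k2 : ‖x t‖ * ‖(x t)⁻¹‖ = 1 := by rw [norm_inv, mul_inv_cancel₀ hx0.ne']
      have k3 : ‖x t‖ * ‖N / (N * x t - 1)‖ ≤ 3 / 2 := by
        rw [norm_div, mul_div_assoc', div_le_iff₀ ha0]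
        nlinarith [mul_pos hN0 hx0]
      have k4 : ‖x t‖ * ‖(x t - N)⁻¹‖ ≤ 1 / 2 := by
        rw [norm_inv, ← div_eq_mul_inv, div_le_iff₀ hb0]
        linarith
      have k5 : ‖δ‖ * ‖(x t)⁻¹ + N / (N * x t - 1) - (x t - N)⁻¹‖ ≤ 3 * D := by
        calc ‖δ‖ * ‖(x t)⁻¹ + N / (N * x t - 1) - (x t - N)⁻¹‖
            ≤ (D * ‖x t‖) * (‖(x t)⁻¹‖ + ‖N / (N * x t - 1)‖ + ‖(x t - N)⁻¹‖) :=
              mul_le_mul hδ2 k1 (norm_nonneg _) (mul_nonneg h.hD hx0.le)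
          _ = D * (‖x t‖ * ‖(x t)⁻¹‖ + ‖x t‖ * ‖N / (N * x t - 1)‖ +
              ‖x t‖ * ‖(x t - N)⁻¹‖) := by ring
          _ ≤ D * 3 := mul_le_mul_of_nonneg_left (by linarith) h.hD
          _ = 3 * D := by ring
      calc ‖gg N (x t)‖ * (‖δ‖ * ‖(x t)⁻¹ + N / (N * x t - 1) - (x t - N)⁻¹‖)
          ≤ ‖gg N (x t)‖ * (3 * D) := mul_le_mul_of_nonneg_left k5 (norm_nonneg _)
        _ = 3 * D * ‖gg N (x t)‖ := by ring

end Pool.Agent.Run7.h770.PG
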