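import Pool.Agent.Run7.h770.PG.Fl
set_option autoImplicit false

/-!
The flip.
-/

namespace Pool.Agent.Run7.h770.PG

open Pool.Agent.Run7.h770.UB (gg Sm Sm.step)

/-- The functions after the flip. -/
structure Fli (n Q D : ℝ) (x y : ℝ → ℂ) : Prop where
  hn : 10 ^ 6 ≤ n
  hQ1 : 1 ≤ Q
  hD : 0 ≤ D
  x1 : ∀ t, 5 ≤ n ^ 2 * ‖-x t - 1‖ ^ 3
  x2 : ∀ t, n ^ 2 * ‖-x t - 1‖ ^ 3 ≤ 2 * Q
  x3 : ∀ t, ‖-x t - 1‖ ≤ 1 / 500
  y1 : ∀ t, 5 ≤ n ^ 2 * ‖y t - 1‖ ^ 3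
  y2 : ∀ t, n ^ 2 * ‖y t - 1‖ ^ 3 ≤ 2 * Q
  y3 : ∀ t, ‖y t - 1‖ ≤ 1 / 500
  d : ∀ t, ∃ δ, HasDerivAt x δ t ∧ ‖δ‖ ≤ D * ‖-x t - 1‖

theorem cube_bounds {n u X Q : ℝ} (hn : 10 ^ 6 ≤ n) (hu : 0 ≤ u) (hX : 0 ≤ X)
    (h1 : u * n ≤ 1010 / 1000 * X) (h2 : 990 / 1000 * X ≤ u * n) (x1 : 8 * n ≤ X ^ 3)
    (x2 : X ^ 3 ≤ Q * n) (x3 : 1000 * X ≤ n) (_hQ : 1 ≤ Q) :
    5 ≤ n ^ 2 * u ^ 3 ∧ n ^ 2 * u ^ 3 ≤ 2 * Q ∧ u ≤ 1 / 500 := by
  have hn0 : 0 < n := by linarith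
  have c1 : (u * n) ^ 3 ≤ (1010 / 1000 * X) ^ 3 := pow_le_pow_left₀ (by positivity) h1 3
  have c2 : (990 / 1000 * X) ^ 3 ≤ (u * n) ^ 3 := pow_le_pow_left₀ (by positivity) h2 3
  refine ⟨?_, ?_, ?_⟩
  · refine le_of_mul_le_mul_right ?_ hn0
    nlinarith
  · refine le_of_mul_le_mul_right ?_ hn0
    nlinarith [mul_le_mul_of_nonneg_right _hQ hn0.le]
  · refine le_of_mul_le_mul_right ?_ hn0
    linarith

theorem Unf.flip {N : ℂ} {Q D : ℝ} {x y : ℝ → ℂ} (h : Unf N Q D x y) :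
    Fli ‖N‖ Q (2 * D) (fun t => gg N⁻¹ (x t)) (fun t => gg N⁻¹ (y t)) := by
  have hN := h.hN
  have hN0 : 0 < ‖N‖ := by linarith
  have hX := fun t => flip_x (h.size t).1 (h.size t).2 hN
  have hY := fun t => flip_y (h.size t).1 (h.size t).2 hN (h.y1 t) (h.s t)
  have bx := fun t => cube_bounds hN (norm_nonneg (-gg N⁻¹ (x t) - 1)) (norm_nonneg (x t))
    (by linarith [(hX t).2.1, norm_nonneg (x t)]) (by linarith [(hX t).2.2, norm_nonneg (x t)])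
    (h.x1 t) (h.x2 t) (h.size t).2 h.hQ1
  have bY := fun t => cube_bounds hN (norm_nonneg (gg N⁻¹ (y t) - 1)) (norm_nonneg (x t))
    (hY t).1 (hY t).2 (h.x1 t) (h.x2 t) (h.size t).2 h.hQ1
  refine ⟨hN, h.hQ1, by linarith [h.hD], fun t => (bx t).1, fun t => (bx t).2.1,
    fun t => (bx t).2.2, fun t => (bY t).1, fun t => (bY t).2.1, fun t => (bY t).2.2, fun t => ?_⟩
  obtain ⟨δ, hδ, hδ2⟩ := h.d t
  obtain ⟨x200, x1000⟩ := h.size t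
  obtain ⟨a1, a2⟩ := size_a x200 x1000 hN
  have hx0 : 0 < ‖x t‖ := by linarith
  have hNx : 0 < ‖N‖ * ‖x t‖ := mul_pos hN0 hx0
  have ha0 : 0 < ‖N * x t - 1‖ := by linarith
  have n1 : N * x t - 1 ≠ 0 := norm_pos_iff.1 ha0
  refine ⟨δ * ((N * x t ^ 2 - 2 * x t + N) / (N * x t - 1) ^ 2), ?_, ?_⟩
  · have e1 : (fun t => gg N⁻¹ (x t)) = fun s => -1 - (1 - x s ^ 2) / (N * x s - 1) := by
      funext s
      linear_combination -(hX s).1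
    rw [e1]
    have k1 := (((hδ.pow 2).const_sub 1).div ((hδ.const_mul N).sub_const 1) n1).const_sub (-1)
    refine k1.congr_deriv ?_
    simp only [Pi.pow_apply]
    push_cast
    field_simp
    ring
  · have k1 : ‖N * x t ^ 2 - 2 * x t + N‖ ≤ ‖N‖ * ‖x t‖ ^ 2 + 2 * ‖x t‖ + ‖N‖ := by
      have q1 := norm_add_le (N * x t ^ 2 - 2 * x t) N
      have q2 := norm_sub_le (N * x t ^ 2) (2 * x t)
      rw [norm_mul, norm_mul, norm_pow, Complex.norm_ofNat] at q2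
      linarith
    have k2 : ‖N‖ * ‖x t‖ ^ 2 + 2 * ‖x t‖ + ‖N‖ ≤ 1001 / 1000 * (‖N‖ * ‖x t‖ ^ 2) := by
      have q1 : ‖N‖ * 40000 ≤ ‖N‖ * ‖x t‖ ^ 2 := by
        apply mul_le_mul_of_nonneg_left _ hN0.le
        nlinarith
      have q2 : ‖x t‖ * 10 ^ 6 ≤ ‖x t‖ * (‖N‖ * ‖x t‖) := by
        apply mul_le_mul_of_nonneg_left _ hx0.le
        nlinarith
      nlinarith
    have k3 : 0 < ‖N * x t - 1‖ ^ 2 := by positivity
    have k4 : (999 / 1000 * (‖N‖ * ‖x t‖)) ^ 2 ≤ ‖N * x t - 1‖ ^ 2 :=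
      pow_le_pow_left₀ (by positivity) a2 2
    rw [norm_mul, norm_div, norm_pow]
    have k5 : ‖N * x t ^ 2 - 2 * x t + N‖ / ‖N * x t - 1‖ ^ 2 * ‖N‖ ≤ 101 / 100 := by
      rw [div_mul_eq_mul_div, div_le_iff₀ k3]
      have : ‖N * x t ^ 2 - 2 * x t + N‖ * ‖N‖ ≤ 1001 / 1000 * (‖N‖ * ‖x t‖ ^ 2) * ‖N‖ :=
        mul_le_mul_of_nonneg_right (k1.trans k2) hN0.le
      nlinarith [mul_pos hNx hNx]
    have k6 := (hX t).2.2
    have k7 : 0 ≤ ‖N * x t ^ 2 - 2 * x t + N‖ / ‖N * x t - 1‖ ^ 2 := by positivity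
    generalize ‖N * x t ^ 2 - 2 * x t + N‖ / ‖N * x t - 1‖ ^ 2 = q at *
    have k8 : ‖x t‖ * q ≤ 2 * ‖-gg N⁻¹ (x t) - 1‖ := by
      refine le_of_mul_le_mul_right ?_ hN0
      nlinarith
    calc ‖δ‖ * q ≤ D * ‖x t‖ * q := mul_le_mul_of_nonneg_right hδ2 k7
      _ = D * (‖x t‖ * q) := by ring
      _ ≤ D * (2 * ‖-gg N⁻¹ (x t) - 1‖) := mul_le_mul_of_nonneg_left k8 h.hD
      _ = 2 * D * ‖-gg N⁻¹ (x t) - 1‖ := by ring

section second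

/-- the parameter after the flip -/
theorem z_bounds {N z z' : ℂ} (hN : 10 ^ 6 ≤ ‖N‖) (h : z ^ 2 + 1 = 2 * N⁻¹ ^ 2 * z)
    (h' : z' ^ 2 + 1 = 2 * z ^ 2 * z') :
    (999 / 1000 ≤ ‖z‖ ∧ ‖z‖ ≤ 1001 / 1000) ∧ (141 / 100 ≤ ‖1 + z‖ ∧ ‖1 + z‖ ≤ 142 / 100) ∧
      (141 / 100 ≤ ‖1 + -z‖ ∧ ‖1 + -z‖ ≤ 142 / 100) ∧ 39 / 10 ≤ ‖N‖ ^ 2 * ‖-z' - 1‖ ^ 2 ∧
      ‖N‖ ^ 2 * ‖-z' - 1‖ ^ 2 ≤ 41 / 10 := by
  have hN0 : 0 < ‖N‖ := by linarith
  set c : ℂ := N⁻¹ ^ 2 with hc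
  have hcn : ‖c‖ * ‖N‖ ^ 2 = 1 := by
    rw [hc, norm_pow, norm_inv, ← mul_pow, inv_mul_cancel₀ hN0.ne', one_pow]
  have hc1 : ‖c‖ ≤ 1 / 10 ^ 10 := by
    have h1 : (10 : ℝ) ^ 10 ≤ ‖N‖ ^ 2 := by nlinarith
    have h2 : ‖c‖ * 10 ^ 10 ≤ ‖c‖ * ‖N‖ ^ 2 := mul_le_mul_of_nonneg_left h1 (norm_nonneg _)
    rw [hcn] at h2
    rw [le_div_iff₀ (by norm_num)]
    exact h2
  have hc0 := norm_nonneg c
  have e1 : ‖z‖ ^ 2 ≤ 1 + 2 * ‖c‖ * ‖z‖ := by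
    have h1 : z ^ 2 = 2 * c * z - 1 := by linear_combination h
    have h2 := norm_sub_le (2 * c * z) 1
    rw [← h1, norm_pow, norm_mul, norm_mul, Complex.norm_ofNat, norm_one] at h2
    linarith
  have e2 : 1 ≤ ‖z‖ ^ 2 + 2 * ‖c‖ * ‖z‖ := by
    have h1 : (1 : ℂ) = 2 * c * z - z ^ 2 := by linear_combination h
    have h2 := norm_sub_le (2 * c * z) (z ^ 2)
    rw [← h1, norm_pow, norm_mul, norm_mul, Complex.norm_ofNat, norm_one] at h2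
    linarith
  have hz0 := norm_nonneg z
  have a1 : ‖z‖ ≤ 1001 / 1000 := by
    by_contra hcon
    push Not at hcon
    have : 2 * ‖c‖ * ‖z‖ ≤ 2 * (1 / 10 ^ 10) * ‖z‖ := by
      apply mul_le_mul_of_nonneg_right _ hz0
      linarith
    nlinarith
  have a2 : 999 / 1000 ≤ ‖z‖ := by
    by_contra hcon
    push Not at hcon
    have : 2 * ‖c‖ * ‖z‖ ≤ 2 * (1 / 10 ^ 10) * 1 :=
      mul_le_mul (by linarith) (by linarith) hz0 (by positivity)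
    nlinarith
  have q1 : ‖1 + c‖ ≤ 1001 / 1000 := by
    have := norm_add_le 1 c
    rw [norm_one] at this
    linarith
  have q2 : 999 / 1000 ≤ ‖1 + c‖ := by
    have := norm_sub_norm_le 1 (-c)
    rw [norm_one, norm_neg, sub_neg_eq_add] at this
    linarith
  have q3 : ‖1 - c‖ ≤ 1001 / 1000 := by
    have := norm_sub_le 1 c
    rw [norm_one] at this
    linarith
  have q4 : 999 / 1000 ≤ ‖1 - c‖ := by
    have := norm_sub_norm_le 1 c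
    rw [norm_one] at this
    linarith
  have sqb : ∀ v c' : ℂ, v ^ 2 = 2 * z * c' ∨ v ^ 2 = -(2 * z * c') → ‖c'‖ ≤ 1001 / 1000 →
      999 / 1000 ≤ ‖c'‖ → 141 / 100 ≤ ‖v‖ ∧ ‖v‖ ≤ 142 / 100 := by
    intro v c' hv k1 k2
    have h1 : ‖v‖ ^ 2 = 2 * (‖z‖ * ‖c'‖) := by
      rcases hv with hv | hv
      · rw [← norm_pow, hv, norm_mul, norm_mul, Complex.norm_ofNat, mul_assoc]
      · rw [← norm_pow, hv, norm_neg, norm_mul, norm_mul, Complex.norm_ofNat, mul_assoc]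
    have h2 : ‖z‖ * ‖c'‖ ≤ 1001 / 1000 * (1001 / 1000) :=
      mul_le_mul a1 k1 (norm_nonneg _) (by norm_num)
    have h3 : 999 / 1000 * (999 / 1000) ≤ ‖z‖ * ‖c'‖ :=
      mul_le_mul a2 k2 (by norm_num) hz0
    have h4 := norm_nonneg v
    constructor <;> nlinarith
  refine ⟨⟨a2, a1⟩, sqb _ (1 + c) (Or.inl (by linear_combination h)) q1 q2,
    sqb _ (1 - c) (Or.inr (by linear_combination h)) q3 q4, ?_⟩
  have m1 : (-z' - 1) ^ 2 = 4 * c * z * z' := by linear_combination h' + 2 * z' * h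
  have m2 : ‖-z' - 1‖ ^ 2 = 4 * ‖c‖ * ‖z‖ * ‖z'‖ := by
    rw [← norm_pow, m1, norm_mul, norm_mul, norm_mul, Complex.norm_ofNat]
  have m3 : ‖z'‖ ≤ 1 + ‖-z' - 1‖ := by
    have := norm_add_le (1 : ℂ) (-z' - 1)
    rw [add_sub_cancel, norm_neg, norm_one] at this
    exact this
  have m4 : 1 - ‖-z' - 1‖ ≤ ‖z'‖ := by
    have := norm_sub_norm_le (1 : ℂ) (-(-z' - 1))
    rw [norm_neg, norm_one] at this
    have e : (1 : ℂ) - -(-z' - 1) = -z' := by ring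
    rw [e, norm_neg] at this
    exact this
  have m0 := norm_nonneg (-z' - 1)
  have m00 := norm_nonneg z'
  generalize ‖-z' - 1‖ = s at *
  have m5 : s ≤ 1 / 1000 := by
    by_contra hcon
    push Not at hcon
    have p1 : 4 * ‖c‖ * ‖z‖ ≤ 4 * (1 / 10 ^ 10) * (1001 / 1000) :=
      mul_le_mul (by linarith) a1 hz0 (by positivity)
    have p2 : 4 * ‖c‖ * ‖z‖ * ‖z'‖ ≤ 4 * (1 / 10 ^ 10) * (1001 / 1000) * (1 + s) :=
      mul_le_mul p1 m3 m00 (by positivity)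
    nlinarith
  have m6 : ‖N‖ ^ 2 * s ^ 2 = 4 * (‖z‖ * ‖z'‖) := by
    rw [m2]
    linear_combination 4 * ‖z‖ * ‖z'‖ * hcn
  have m7 : ‖z‖ * ‖z'‖ ≤ 1001 / 1000 * (1001 / 1000) :=
    mul_le_mul a1 (by linarith) m00 (by norm_num)
  have m8 : 999 / 1000 * (999 / 1000) ≤ ‖z‖ * ‖z'‖ :=
    mul_le_mul a2 (by linarith) (by norm_num) hz0
  rw [m6]
  constructor <;> linarith

/-- the map on the deviations -/
noncomputable def Fm (z s : ℂ) : ℂ := z * s * (2 + s) / (1 + z + s)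

/-- the derivative of the map on the deviations -/
noncomputable def Fm' (z s : ℂ) : ℂ :=
  z * ((2 + 2 * s) * (1 + z + s) - s * (2 + s)) / (1 + z + s) ^ 2

theorem Fm_bounds {z s : ℂ} (h1 : 999 / 1000 ≤ ‖z‖) (h2 : ‖z‖ ≤ 1001 / 1000)
    (h3 : 141 / 100 ≤ ‖1 + z‖) (h4 : ‖1 + z‖ ≤ 142 / 100) (hs : ‖s‖ ≤ 1 / 500) :
    1 + z + s ≠ 0 ∧ ‖Fm z s‖ ≤ 144 / 100 * ‖s‖ ∧ 139 / 100 * ‖s‖ ≤ ‖Fm z s‖ ∧
      ‖Fm' z s‖ ≤ 3 / 2 := by
  have k1 := norm_add_le (1 + z) s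
  have k2 := norm_sub_norm_le (1 + z) (-s)
  rw [sub_neg_eq_add, norm_neg] at k2
  have k3 := norm_add_le 2 s
  have k4 := norm_sub_norm_le 2 (-s)
  rw [sub_neg_eq_add, norm_neg] at k4
  rw [Complex.norm_ofNat] at k3 k4
  have h0 := norm_nonneg s
  have hq : 0 < ‖1 + z + s‖ := by linarith
  have hF : ‖Fm z s‖ * ‖1 + z + s‖ = ‖z‖ * ‖s‖ * ‖2 + s‖ := by
    unfold Fm
    rw [norm_div, norm_mul, norm_mul, div_mul_cancel₀ _ hq.ne']
  have hF' : ‖Fm' z s‖ * ‖1 + z + s‖ ^ 2 ≤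
      ‖z‖ * ((2 + 2 * ‖s‖) * ‖1 + z + s‖ + ‖s‖ * ‖2 + s‖) := by
    unfold Fm'
    rw [norm_div, norm_pow, norm_mul, div_mul_cancel₀ _ (by positivity)]
    refine mul_le_mul_of_nonneg_left ?_ (norm_nonneg _)
    refine (norm_sub_le _ _).trans ?_
    rw [norm_mul, norm_mul]
    refine add_le_add_left (mul_le_mul_of_nonneg_right ?_ hq.le) _
    have := norm_add_le 2 (2 * s)
    rw [norm_mul, Complex.norm_ofNat] at this
    exact this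
  have hf0 := norm_nonneg (Fm z s)
  have hf1 := norm_nonneg (Fm' z s)
  have hz0 := norm_nonneg z
  refine ⟨norm_pos_iff.1 hq, ?_⟩
  generalize ‖Fm z s‖ = f at *
  generalize ‖Fm' z s‖ = f' at *
  generalize ‖1 + z + s‖ = q at *
  generalize ‖2 + s‖ = p at *
  generalize ‖z‖ = a at *
  generalize ‖s‖ = u at *
  have b1 : a * p ≤ 1001 / 1000 * (2002 / 1000) :=
    mul_le_mul h2 (by linarith) (by linarith) (by norm_num)
  have b2 : 999 / 1000 * (1998 / 1000) ≤ a * p :=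
    mul_le_mul h1 (by linarith) (by norm_num) hz0
  have b3 : f * (1408 / 1000) ≤ f * q := mul_le_mul_of_nonneg_left (by linarith) hf0
  have b4 : f * q ≤ f * (1422 / 1000) := mul_le_mul_of_nonneg_left (by linarith) hf0
  have b5 : u * (a * p) ≤ u * (1001 / 1000 * (2002 / 1000)) := mul_le_mul_of_nonneg_left b1 h0
  have b6 : u * (999 / 1000 * (1998 / 1000)) ≤ u * (a * p) := mul_le_mul_of_nonneg_left b2 h0
  have hF2 : f * q = u * (a * p) := by rw [hF]; ring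
  refine ⟨by nlinarith, by nlinarith, ?_⟩
  have c1 : (2 + 2 * u) * q ≤ 2004 / 1000 * (1422 / 1000) :=
    mul_le_mul (by linarith) (by linarith) hq.le (by norm_num)
  have c2 : u * p ≤ 1 / 500 * (2002 / 1000) := mul_le_mul hs (by linarith) (by linarith) (by norm_num)
  have c3 : a * ((2 + 2 * u) * q + u * p) ≤ 1001 / 1000 *
      (2004 / 1000 * (1422 / 1000) + 1 / 500 * (2002 / 1000)) :=
    mul_le_mul h2 (by linarith) (add_nonneg (mul_nonneg (by linarith) hq.le)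
      (mul_nonneg h0 (by linarith))) (by norm_num)
  have c4 : f' * (1408 / 1000) ^ 2 ≤ f' * q ^ 2 := by
    apply mul_le_mul_of_nonneg_left _ hf1
    exact pow_le_pow_left₀ (by norm_num) (by linarith) 2
  nlinarith

theorem Fli.step {N z z' : ℂ} {Q D : ℝ} {x y : ℝ → ℂ} (h : Fli ‖N‖ Q D x y)
    (hz : z ^ 2 + 1 = 2 * N⁻¹ ^ 2 * z) (hz' : z' ^ 2 + 1 = 2 * z ^ 2 * z') :
    Nod (-1) (-z' - 1) (2 * Q) (2 * D) (fun t => gg z (x t)) (fun t => gg z (y t)) ∧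
      ‖N‖ ^ 2 * ‖-z' - 1‖ ^ 2 ≤ 41 / 10 := by
  obtain ⟨⟨z1, z2⟩, ⟨z3, z4⟩, ⟨z5, z6⟩, z7, z8⟩ := z_bounds h.hn hz hz'
  have hN0 : 0 < ‖N‖ := by linarith [h.hn]
  have hN2 : 0 < ‖N‖ ^ 2 := by positivity
  have bx := fun t => Fm_bounds z1 z2 z3 z4 (h.x3 t)
  have bY := fun t => Fm_bounds (z := -z) (by rwa [norm_neg]) (by rwa [norm_neg]) z5 z6 (h.y3 t)
  have ex : ∀ t, -1 * gg z (x t) - 1 = Fm z (-x t - 1) := by
    intro t
    have h1 := (bx t).1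
    have h2 : x t - z ≠ 0 := by
      intro h0
      apply h1
      linear_combination -h0
    unfold gg Fm
    field_simp
    have h3 : 1 + z + (-x t - 1) = -(x t - z) := by ring
    rw [h3]
    generalize hv : x t - z = v at *
    field_simp
    have h4 : x t = v + z := by rw [← hv]; ring
    rw [h4]
    ring
  have ey : ∀ t, -1 * gg z (y t) - 1 = Fm (-z) (y t - 1) := by
    intro t
    have h1 := (bY t).1
    have h2 : y t - z ≠ 0 := by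
      intro h0
      apply h1
      linear_combination h0
    unfold gg Fm
    have h3 : 1 + -z + (y t - 1) = (y t - z) := by ring
    rw [h3]
    generalize hv : y t - z = v at *
    field_simp
    have h4 : y t = v + z := by rw [← hv]; ring
    rw [h4]
    ring
  have key : ∀ {u f : ℝ}, 0 ≤ u → f ≤ 144 / 100 * u → 139 / 100 * u ≤ f → 5 ≤ ‖N‖ ^ 2 * u ^ 3 →
      ‖N‖ ^ 2 * u ^ 3 ≤ 2 * Q → ‖-z' - 1‖ ^ 2 ≤ 2 * Q * f ^ 3 ∧ f ^ 3 ≤ 2 * Q * ‖-z' - 1‖ ^ 2 := by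
    intro u f hu f1 f2 u1 u2
    have g1 : f ^ 3 ≤ (144 / 100 * u) ^ 3 := pow_le_pow_left₀ (by linarith) f1 3
    have g2 : (139 / 100 * u) ^ 3 ≤ f ^ 3 := pow_le_pow_left₀ (by positivity) f2 3
    have hQ1 := h.hQ1
    constructor
    · refine le_of_mul_le_mul_left ?_ hN2
      have g3 : ‖N‖ ^ 2 * (139 / 100 * u) ^ 3 ≤ ‖N‖ ^ 2 * f ^ 3 :=
        mul_le_mul_of_nonneg_left g2 hN2.le
      have g4 : 13 ≤ ‖N‖ ^ 2 * f ^ 3 := by nlinarith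
      have g5 : 1 * (‖N‖ ^ 2 * f ^ 3) ≤ 2 * Q * (‖N‖ ^ 2 * f ^ 3) :=
        mul_le_mul_of_nonneg_right (by linarith) (by linarith)
      nlinarith
    · refine le_of_mul_le_mul_left ?_ hN2
      have g3 : ‖N‖ ^ 2 * f ^ 3 ≤ ‖N‖ ^ 2 * (144 / 100 * u) ^ 3 :=
        mul_le_mul_of_nonneg_left g1 hN2.le
      have g4 : 2 * Q * (39 / 10) ≤ 2 * Q * (‖N‖ ^ 2 * ‖-z' - 1‖ ^ 2) :=
        mul_le_mul_of_nonneg_left z7 (by linarith)
      nlinarith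
  have kx := fun t => key (norm_nonneg _) (bx t).2.1 (bx t).2.2.1 (h.x1 t) (h.x2 t)
  have ky := fun t => key (norm_nonneg _) (bY t).2.1 (bY t).2.2.1 (h.y1 t) (h.y2 t)
  refine ⟨⟨by norm_num, ?_, by linarith [h.hQ1], by linarith [h.hD], fun t => ?_, fun t => ?_,
    fun t => ?_, fun t => ?_, fun t => ?_⟩, z8⟩
  · intro h0
    rw [h0, norm_zero] at z7
    norm_num at z7
  · rw [ex]
    exact (kx t).1
  · rw [ex]
    exact (kx t).2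
  · rw [ey]
    exact (ky t).1
  · rw [ey]
    exact (ky t).2
  · obtain ⟨δ, hδ, hδ2⟩ := h.d t
    refine ⟨δ * Fm' z (-x t - 1), ?_, ?_⟩
    · have e1 : (fun t => gg z (x t)) = fun s => -1 - Fm z (-x s - 1) := by
        funext s
        linear_combination -(ex s)
      rw [e1]
      have d1 : HasDerivAt (fun s => -x s - 1) (-δ) t := hδ.neg.sub_const 1
      have d2 := ((((d1.const_mul z).mul (d1.const_add 2)).div (d1.const_add (1 + z))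
        (bx t).1)).const_sub (-1)
      refine (d2.congr_deriv ?_).congr_of_eventuallyEq (Filter.Eventually.of_forall fun s => rfl)
      unfold Fm'
      have := (bx t).1
      simp only [Pi.mul_apply]
      field_simp
      ring
    · rw [ex, norm_mul]
      have c1 := (bx t).2.2.2
      have c2 := (bx t).2.2.1
      calc ‖δ‖ * ‖Fm' z (-x t - 1)‖ ≤ D * ‖-x t - 1‖ * (3 / 2) :=
            mul_le_mul hδ2 c1 (norm_nonneg _) (mul_nonneg h.hD (norm_nonneg _))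
        _ = D * (3 / 2 * ‖-x t - 1‖) := by ring
        _ ≤ D * (2 * ‖Fm z (-x t - 1)‖) := mul_le_mul_of_nonneg_left
            (by linarith [norm_nonneg (-x t - 1)]) h.hD
        _ = 2 * D * ‖Fm z (-x t - 1)‖ := by ring

end second

end Pool.Agent.Run7.h770.PG
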