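import Mathlib
set_option autoImplicit false

/-!
Abelian groups with at most four elements of order dividing two.
-/

namespace Pool.Agent.Run7.h770.PG

section gen

variable {A : Type*} [AddCommGroup A]

/-- doubling -/
def dbl (A : Type*) [AddCommGroup A] : A →+ A := nsmulAddMonoidHom 2

theorem dbl_apply (x : A) : dbl A x = 2 • x := rfl

/-- A finite group of exponent `2 ^ m` with at most four elements of order dividing two is
generated by two elements. -/
theorem two_gen [Finite A] {m : ℕ} (hm : ∀ x : A, 2 ^ m • x = 0)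
    (h4 : Nat.card (dbl A).ker ≤ 4) : ∃ a b : A, AddSubgroup.closure {a, b} = ⊤ := by
  set H := (dbl A).range with hH
  have hidx : H.index = Nat.card (dbl A).ker := by
    have h1 : Nat.card (dbl A).ker * (dbl A).ker.index = Nat.card A :=
      AddSubgroup.card_mul_index _
    have h2 : Nat.card H * H.index = Nat.card A := AddSubgroup.card_mul_index _
    have h3 : (dbl A).ker.index = Nat.card H := AddSubgroup.index_ker _
    rw [h3, ← h2, mul_comm] at h1
    exact (Nat.eq_of_mul_eq_mul_left (Nat.card_pos) h1).symm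
  have hnil : ∀ S : AddSubgroup A, S ⊔ H = ⊤ → S = ⊤ := by
    intro S hS
    have h1 : ∀ j : ℕ, ∀ x : A, ∃ s ∈ S, ∃ y : A, x = s + 2 ^ j • y := by
      intro j
      induction j with
      | zero => exact fun x => ⟨0, S.zero_mem, x, by simp⟩
      | succ j ih =>
        intro x
        obtain ⟨s, hs, y, hy⟩ := ih x
        have h2 : y ∈ S ⊔ H := by rw [hS]; trivial
        obtain ⟨s', hs', z, hz, hsz⟩ := AddSubgroup.mem_sup.1 h2
        obtain ⟨w, rfl⟩ := hz
        refine ⟨s + 2 ^ j • s', S.add_mem hs (S.nsmul_mem hs' _), w, ?_⟩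
        rw [hy, ← hsz, dbl_apply, smul_add, smul_smul, ← pow_succ, add_assoc]
    rw [AddSubgroup.eq_top_iff']
    intro x
    obtain ⟨s, hs, y, hy⟩ := h1 m x
    rw [hy, hm, add_zero]
    exact hs
  have hpos : ∀ S : AddSubgroup A, S.index ≠ 0 := fun S => AddSubgroup.index_ne_zero_of_finite
  have hrel : ∀ S T : AddSubgroup A, S < T → 2 * T.index ≤ S.index := by
    intro S T hlt
    have h1 := AddSubgroup.relIndex_mul_index hlt.le
    have h2 : S.relIndex T ≠ 1 := by
      intro h
      exact hlt.not_ge (AddSubgroup.relIndex_eq_one.1 h)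
    have h3 : S.relIndex T ≠ 0 := by
      intro h
      rw [h, zero_mul] at h1
      exact hpos S h1.symm
    have h4 : 2 ≤ S.relIndex T := by omega
    calc 2 * T.index ≤ S.relIndex T * T.index := Nat.mul_le_mul_right _ h4
      _ = S.index := h1
  by_cases hH1 : H = ⊤
  · refine ⟨0, 0, hnil _ ?_⟩
    rw [hH1]
    simp
  obtain ⟨a, ha⟩ : ∃ a, a ∉ H := by
    by_contra hcon
    push Not at hcon
    exact hH1 ((AddSubgroup.eq_top_iff' H).2 hcon)
  set S1 := AddSubgroup.closure {a} ⊔ H with hS1
  have hlt1 : H < S1 := by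
    refine lt_of_le_of_ne le_sup_right fun h => ha ?_
    rw [h]
    exact (le_sup_left : AddSubgroup.closure {a} ≤ S1) (AddSubgroup.subset_closure rfl)
  by_cases hS1t : S1 = ⊤
  · refine ⟨a, a, hnil _ ?_⟩
    rw [← hS1t, hS1]
    simp
  obtain ⟨b, hb⟩ : ∃ b, b ∉ S1 := by
    by_contra hcon
    push Not at hcon
    exact hS1t ((AddSubgroup.eq_top_iff' S1).2 hcon)
  set S2 := AddSubgroup.closure {a, b} ⊔ H with hS2
  have hle : S1 ≤ S2 := sup_le_sup_right (AddSubgroup.closure_mono (by simp)) _
  have hlt2 : S1 < S2 := by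
    refine lt_of_le_of_ne hle fun h => hb ?_
    rw [h]
    exact (le_sup_left : AddSubgroup.closure {a, b} ≤ S2)
      (AddSubgroup.subset_closure (by simp))
  refine ⟨a, b, hnil _ ?_⟩
  have h1 := hrel _ _ hlt1
  have h2 := hrel _ _ hlt2
  have h3 := hpos S2
  have h5 : S2.index = 1 := by omega
  exact AddSubgroup.index_eq_one.1 h5

end gen

section tors

variable {G : Type*} [AddCommGroup G]

/-- the elements annihilated by `2 ^ m` -/
def tor (G : Type*) [AddCommGroup G] (m : ℕ) : AddSubgroup G :=
  (nsmulAddMonoidHom (2 ^ m) : G →+ G).ker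

theorem mem_tor {m : ℕ} {x : G} : x ∈ tor G m ↔ 2 ^ m • x = 0 := Iff.rfl

theorem tor_mono {m m' : ℕ} (h : m ≤ m') : tor G m ≤ tor G m' := by
  intro x hx
  rw [mem_tor] at hx ⊢
  obtain ⟨d, rfl⟩ := Nat.exists_eq_add_of_le h
  rw [pow_add, mul_comm, mul_smul, hx, smul_zero]

variable (hfin : Finite (tor G 1)) (h4 : Nat.card (tor G 1) ≤ 4)

include hfin h4

theorem tor_card (m : ℕ) : Finite (tor G m) ∧ Nat.card (tor G m) ≤ 4 ^ m := by
  induction m with
  | zero =>
    have h1 : tor G 0 = ⊥ := by
      ext x
      rw [mem_tor, pow_zero, one_smul, AddSubgroup.mem_bot]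
    rw [h1]
    refine ⟨inferInstance, ?_⟩
    simp
  | succ m ih =>
    obtain ⟨i1, i2⟩ := ih
    let f : tor G (m + 1) →+ tor G m :=
      { toFun := fun x => ⟨2 • (x : G), by
          have h := x.2
          rw [mem_tor] at h ⊢
          rw [smul_smul, ← pow_succ]
          exact h⟩
        map_zero' := by
          apply Subtype.ext
          show 2 • ((0 : tor G (m + 1)) : G) = _
          rw [AddSubgroup.coe_zero, smul_zero]
          rfl
        map_add' := fun x y => by
          apply Subtype.ext
          show 2 • ((x + y : tor G (m + 1)) : G) = _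
          rw [AddSubgroup.coe_add, smul_add]
          rfl }
    have hker : ∀ x : f.ker, ((x : tor G (m + 1)) : G) ∈ tor G 1 := by
      intro x
      have h := x.2
      rw [AddMonoidHom.mem_ker] at h
      have h2 := congrArg Subtype.val h
      rw [mem_tor, pow_one]
      exact h2
    let e : f.ker → tor G 1 := fun x => ⟨((x : tor G (m + 1)) : G), hker x⟩
    have he : Function.Injective e := by
      intro x y hxy
      apply Subtype.ext
      apply Subtype.ext
      exact (congrArg (fun z : tor G 1 => (z : G)) hxy :)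
    have hkf : Finite f.ker := Finite.of_injective e he
    have hkc : Nat.card f.ker ≤ 4 := (Nat.card_le_card_of_injective e he).trans h4
    have hrc : Nat.card f.range ≤ 4 ^ m :=
      (Nat.card_le_card_of_injective _ (Subtype.val_injective)).trans i2
    have hidx : f.ker.index = Nat.card f.range := AddSubgroup.index_ker _
    have hrpos : Nat.card f.range ≠ 0 := Nat.card_pos.ne'
    have hfin2 : Finite (tor G (m + 1)) := by
      have h1 : Finite (tor G (m + 1) ⧸ f.ker) :=
        Finite.of_equiv _ (QuotientAddGroup.quotientKerEquivRange f).symm.toEquiv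
      exact Finite.of_equiv _ (AddSubgroup.addGroupEquivQuotientProdAddSubgroup (s := f.ker)).symm
    refine ⟨hfin2, ?_⟩
    have h1 : Nat.card f.ker * f.ker.index = Nat.card (tor G (m + 1)) :=
      AddSubgroup.card_mul_index _
    rw [← h1, hidx, pow_succ, mul_comm (4 ^ m)]
    exact Nat.mul_le_mul hkc hrc

/-- Two generators of the elements annihilated by `2 ^ m`. -/
theorem tor_gen (m : ℕ) : ∃ a b : G, a ∈ tor G m ∧ b ∈ tor G m ∧
    AddSubgroup.closure {a, b} = tor G m := by
  obtain ⟨hf, -⟩ := tor_card hfin h4 m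
  have hk : Nat.card (dbl (tor G m)).ker ≤ 4 := by
    refine le_trans (Nat.card_le_card_of_injective
      (fun x : (dbl (tor G m)).ker => (⟨((x : tor G m) : G), ?_⟩ : tor G 1)) ?_) h4
    · have h := x.2
      rw [AddMonoidHom.mem_ker, dbl_apply] at h
      have h2 := congrArg Subtype.val h
      rw [mem_tor, pow_one]
      exact h2
    · intro x y hxy
      apply Subtype.ext
      apply Subtype.ext
      exact (congrArg (fun z : tor G 1 => (z : G)) hxy :)
  obtain ⟨a, b, hab⟩ := two_gen (A := tor G m) (m := m) (fun x => Subtype.ext x.2) hk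
  refine ⟨a, b, a.2, b.2, ?_⟩
  have h1 := congrArg (AddSubgroup.map (tor G m).subtype) hab
  rw [AddMonoidHom.map_closure, Set.image_pair] at h1
  rw [show AddSubgroup.map (tor G m).subtype ⊤ = tor G m by
    rw [← AddMonoidHom.range_eq_map, AddSubgroup.range_subtype]] at h1
  exact h1

end tors

end Pool.Agent.Run7.h770.PG
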