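import Mathlib
set_option autoImplicit false

/-!
Linear independence over `ℚ` of the translates of a sequence whose smallest period is a power
of two.
-/

namespace Pool.Agent.Run7.h770.PG

open Polynomial Finset

/-- the shift of sequences -/
noncomputable def shift : Module.End ℚ (ℕ → ℝ) where
  toFun f l := f (l + 1)
  map_add' _ _ := rfl
  map_smul' _ _ := rfl

theorem shift_pow (j : ℕ) (f : ℕ → ℝ) : (shift ^ j) f = fun l => f (l + j) := by
  induction j with
  | zero => rfl
  | succ j ih =>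
    rw [pow_succ', Module.End.mul_apply, ih]
    funext l
    show f (l + 1 + j) = f (l + (j + 1))
    congr 1
    ring

theorem irr (a : ℕ) : Irreducible (X ^ 2 ^ a + 1 : ℚ[X]) := by
  have h := cyclotomic.irreducible_rat (n := 2 ^ (a + 1)) (by positivity)
  rw [cyclotomic_prime_pow_eq_geom_sum Nat.prime_two] at h
  simpa [Finset.sum_range_succ, add_comm] using h

theorem lin (a : ℕ) (ρ : ℕ → ℝ) (hper : ∀ j, ρ (j + 2 ^ (a + 1)) = ρ j)
    (hne : ∃ j, ρ (j + 2 ^ a) ≠ ρ j) (c : ℕ → ℚ)
    (h : ∀ l, ∑ j ∈ range (2 ^ a), (c j : ℝ) * ρ (j + l) = 0) : ∀ j < 2 ^ a, c j = 0 := by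
  set p : ℚ[X] := ∑ j ∈ range (2 ^ a), C (c j) * X ^ j with hp
  have hdeg : p.degree < (2 ^ a : ℕ) := by
    rw [hp]
    refine (degree_sum_le _ _).trans_lt ?_
    rw [Finset.sup_lt_iff (WithBot.bot_lt_coe _)]
    intro j hj
    refine (degree_C_mul_X_pow_le j (c j)).trans_lt ?_
    exact_mod_cast Finset.mem_range.1 hj
  have hcoef : ∀ j < 2 ^ a, p.coeff j = c j := by
    intro j hj
    rw [hp, finsetSum_coeff]
    rw [Finset.sum_eq_single j]
    · simp
    · intro b _ hb
      rw [coeff_C_mul_X_pow, if_neg (Ne.symm hb)]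
    · intro hj'
      exact absurd (Finset.mem_range.2 hj) hj'
  have hpρ : aeval shift p ρ = 0 := by
    funext l
    rw [hp, map_sum, LinearMap.sum_apply, Finset.sum_apply, Pi.zero_apply]
    rw [← h l]
    refine Finset.sum_congr rfl fun j _ => ?_
    rw [map_mul, aeval_C, map_pow, aeval_X, Module.End.mul_apply, shift_pow]
    show (algebraMap ℚ (Module.End ℚ (ℕ → ℝ)) (c j)) (fun l => ρ (l + j)) l = _
    rw [Module.algebraMap_end_apply]
    show c j • ρ (l + j) = _
    rw [Rat.smul_def, add_comm]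
  set w : ℕ → ℝ := (shift ^ 2 ^ a) ρ - ρ with hw
  have hw0 : w ≠ 0 := by
    obtain ⟨j, hj⟩ := hne
    intro h0
    have h1 := congrFun h0 j
    rw [hw, shift_pow] at h1
    exact hj (sub_eq_zero.1 h1)
  have hqw : aeval shift (X ^ 2 ^ a + 1 : ℚ[X]) w = 0 := by
    rw [map_add, map_pow, aeval_X, map_one, LinearMap.add_apply, Module.End.one_apply, hw,
      map_sub, ← Module.End.mul_apply, ← pow_add, ← two_mul, ← pow_succ']
    have h1 : (shift ^ 2 ^ (a + 1)) ρ = ρ := by
      rw [shift_pow]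
      funext l
      exact hper l
    rw [h1]
    abel
  have hpw : aeval shift p w = 0 := by
    have h1 : w = aeval shift (X ^ 2 ^ a - 1 : ℚ[X]) ρ := by
      rw [map_sub, map_pow, aeval_X, map_one, LinearMap.sub_apply, Module.End.one_apply]
    rw [h1, ← Module.End.mul_apply, ← map_mul, mul_comm, map_mul, Module.End.mul_apply, hpρ,
      map_zero]
  by_contra hcon
  push Not at hcon
  obtain ⟨j, hj, hcj⟩ := hcon
  have hp0 : p ≠ 0 := by
    intro h0
    apply hcj
    rw [← hcoef j hj, h0, coeff_zero]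
  have hndvd : ¬ (X ^ 2 ^ a + 1 : ℚ[X]) ∣ p := by
    intro hd
    have h1 := degree_le_of_dvd hd hp0
    have h2 : (X ^ 2 ^ a + 1 : ℚ[X]).degree = (2 ^ a : ℕ) := by
      have := degree_X_pow_add_C (R := ℚ) (n := 2 ^ a) (by positivity) 1
      rwa [C_1] at this
    rw [h2] at h1
    exact absurd h1 (not_le.2 hdeg)
  obtain ⟨u, v, huv⟩ := ((irr a).coprime_iff_not_dvd (n := p)).2 hndvd
  apply hw0
  have h1 : aeval shift (u * (X ^ 2 ^ a + 1) + v * p) w = aeval shift (1 : ℚ[X]) w := by rw [huv]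
  rw [map_add, map_mul, map_mul, map_one, LinearMap.add_apply, Module.End.mul_apply,
    Module.End.mul_apply, hpw, hqw, map_zero, map_zero, add_zero, Module.End.one_apply] at h1
  exact h1.symm

end Pool.Agent.Run7.h770.PG
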