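import Pool.Agent.Run7.h770.PG.Many
import Pool.Agent.Run7.h770.PG.Deg
import Pool.Agent.Run7.h770.PG.Dbl
set_option autoImplicit false

/-!
Polynomial growth of the rank of the integral part of `K_2` of elliptic curves with integral
`j`-invariant.
-/

namespace Pool.Agent.Run7.h770.PG

open Pool.Agent.W367.KT Pool.Agent.T6.H7.SX

open Pool.Agent.Run7.h770.IJ (crv jk exists_crv descend)

open Pool.Agent.Run7.h770.UB

open WeierstrassCurve

open scoped TensorProduct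

section tower

set_option linter.unusedSectionVars false

variable (K : Type*) [Field K] [NumberField K] {Ω : Type*} [Field Ω] [CharZero Ω]
  [IsAlgClosure ℚ Ω] [Algebra K Ω] [Algebra.IsAlgebraic K Ω] (τ : Ω →+* ℂ)

/-- the fields generated by a set and the first `J` roots -/
noncomputable def LJ (S : Set Ω) (k0 : Ω) (J : ℕ) : IntermediateField K Ω :=
  IntermediateField.adjoin K (S ∪ ns τ k0 '' Set.Iio J)

variable {S : Set Ω} {k0 : Ω}

theorem LJ_left {J : ℕ} {x : Ω} (h : x ∈ S) : x ∈ LJ K τ S k0 J :=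
  IntermediateField.subset_adjoin _ _ (Or.inl h)

theorem LJ_ns {J i : ℕ} (h : i < J) : ns τ k0 i ∈ LJ K τ S k0 J :=
  IntermediateField.subset_adjoin _ _ (Or.inr ⟨i, h, rfl⟩)

theorem LJ_succ_le {J : ℕ} (h : ns τ k0 J ∈ LJ K τ S k0 J) :
    LJ K τ S k0 (J + 1) ≤ LJ K τ S k0 J := by
  refine IntermediateField.adjoin_le_iff.2 ?_
  rintro x (hx | ⟨i, hi, rfl⟩)
  · exact LJ_left K τ hx
  · rcases Nat.lt_succ_iff_lt_or_eq.1 hi with h1 | h1
    · exact LJ_ns K τ h1
    · rw [h1]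
      exact h

theorem LJ_fd (hfin : S.Finite) (J : ℕ) : FiniteDimensional K (LJ K τ S k0 J) := by
  have h1 : (S ∪ ns τ k0 '' Set.Iio J).Finite := hfin.union ((Set.finite_Iio J).image _)
  have _ : Finite (S ∪ ns τ k0 '' Set.Iio J : Set Ω) := h1
  exact IntermediateField.finiteDimensional_adjoin fun x _ =>
    (Algebra.IsAlgebraic.isAlgebraic x).isIntegral

variable (h0 : k0 ≠ 0) (h4 : k0 ^ 2 ≠ 16) (hi : IsIntegral ℤ k0)

include h0 h4 hi

/-- The tower does not become stationary. -/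
theorem exists_properK (hfin : S.Finite) (i0 : ℕ) :
    ∃ J, i0 ≤ J ∧ ns τ k0 J ∉ LJ K τ S k0 J := by
  by_contra hcon
  push Not at hcon
  have hle : ∀ m, LJ K τ S k0 (i0 + m) ≤ LJ K τ S k0 i0 := by
    intro m
    induction m with
    | zero => exact le_rfl
    | succ m ih => exact (LJ_succ_le K τ (hcon (i0 + m) (by omega))).trans ih
  have hmem : ∀ m, ns τ k0 (i0 + 1 + m) ∈ LJ K τ S k0 i0 := fun m =>
    hle (1 + m) (by rw [← add_assoc]; exact hcon (i0 + 1 + m) (by omega))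
  have _ := LJ_fd K τ (k0 := k0) hfin i0
  have _ : FiniteDimensional ℚ (LJ K τ S k0 i0) := Module.Finite.trans K _
  have _ : NumberField (LJ K τ S k0 i0) := ⟨⟩
  refine no_tower (M := LJ K τ S k0 i0) (fun m => ⟨ns τ k0 (i0 + 1 + m), hmem m⟩) (fun m h => ?_)
    (fun m => ?_) (fun m => ?_) (τ.comp (algebraMap (LJ K τ S k0 i0) Ω)).toRatAlgHom
    (A := ‖τ (ns τ k0 (i0 + 1))‖) ?_ (fun m => ?_)
  · exact ns_ne τ _ (congrArg Subtype.val h)
  · apply Subtype.val_injective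
    exact ns_rel τ (i0 + 1 + m)
  · have h1 := inv_int τ hi (i0 + 1 + m)
    have h2 : algebraMap (LJ K τ S k0 i0) Ω (2 * (⟨ns τ k0 (i0 + 1 + m), hmem m⟩ :
        LJ K τ S k0 i0)⁻¹) = 2 * (ns τ k0 (i0 + 1 + m))⁻¹ := by
      rw [map_mul, map_inv₀, map_ofNat]
      rfl
    rw [← h2] at h1
    exact (isIntegral_algebraMap_iff (algebraMap (LJ K τ S k0 i0) Ω).injective).1 h1
  · have := one_lt τ h0 h4 i0
    rwa [add_comm 1 i0] at this
  · exact grow_pow τ h0 h4 (i0 + 1) m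

omit hi h0 h4 in
/-- A conjugation over the `J`-th field. -/
theorem exists_conjK (hk : k0 ∈ S) {J : ℕ} (hJ : ns τ k0 J ∉ LJ K τ S k0 J) :
    ∃ g : Ω ≃ₐ[LJ K τ S k0 J] Ω, g (ns τ k0 J) = (ns τ k0 J)⁻¹ := by
  have _ : IsAlgClosed Ω := IsAlgClosure.isAlgClosed ℚ
  have _ : IsAlgClosure K Ω := ⟨inferInstance, inferInstance⟩
  have _ : IsGalois K Ω := inferInstance
  have hnot : ¬ ∀ f : Ω ≃ₐ[LJ K τ S k0 J] Ω, f (ns τ k0 J) = ns τ k0 J := by
    intro h
    apply hJ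
    have h1 := (InfiniteGalois.mem_bot_iff_fixed (k := LJ K τ S k0 J) (K := Ω) (ns τ k0 J)).2 h
    obtain ⟨y, hy⟩ := IntermediateField.mem_bot.1 h1
    rw [← hy]
    exact y.2
  push Not at hnot
  obtain ⟨g, hg⟩ := hnot
  have hfix : ∀ x ∈ LJ K τ S k0 J, g x = x := fun x hx => g.commutes ⟨x, hx⟩
  have hkJ : kk τ k0 J ∈ LJ K τ S k0 J := by
    cases J with
    | zero => exact LJ_left K τ hk
    | succ J =>
      rw [kk_succ]
      have h1 : ns τ k0 J ∈ LJ K τ S k0 (J + 1) := LJ_ns K τ (Nat.lt_succ_self J)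
      have h2 : (4 : Ω) ∈ LJ K τ S k0 (J + 1) := by simp
      exact mul_mem h2 (pow_mem h1 2)
  refine ⟨g, ?_⟩
  have he := ns_eq τ (k0 := k0) J
  have hn := ns_ne τ (k0 := k0) J
  have h1 := congrArg g he
  rw [map_mul, map_mul, map_add, map_pow, map_one, map_ofNat, hfix _ hkJ] at h1
  have h2 : (g (ns τ k0 J) - ns τ k0 J) * (2 * (g (ns τ k0 J) * ns τ k0 J - 1)) = 0 := by
    linear_combination ns τ k0 J * h1 - g (ns τ k0 J) * he
  rcases mul_eq_zero.1 h2 with h3 | h3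
  · exact absurd (sub_eq_zero.1 h3) hg
  · have h5 : g (ns τ k0 J) * ns τ k0 J - 1 = 0 := by
      rcases mul_eq_zero.1 h3 with h6 | h6
      · exact absurd h6 two_ne_zero
      · exact h6
    exact eq_inv_of_mul_eq_one_left (sub_eq_zero.1 h5)

end tower

/-- The field `F` has `r` linearly independent elements in the integral part. -/
def ManyClasses (F : Type*) [Field F] (r : ℕ) : Prop :=
  ∃ α : Fin r → ℚ ⊗[ℤ] K2 F, (∀ j, α j ∈ H2MZ F) ∧ LinearIndependent ℚ α

theorem pow_four_ne {Ω : Type*} [Field Ω] [CharZero Ω] [IsAlgClosure ℚ Ω] (τ : Ω →+* ℂ) {k0 : Ω}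
    (h0 : k0 ≠ 0) (h4 : k0 ^ 2 ≠ 16) (i : ℕ) : ns τ k0 i ^ 4 ≠ 1 := by
  intro h
  have h1 := (kk_good τ h0 h4 (i + 1)).2
  rw [kk_succ] at h1
  apply h1
  linear_combination 16 * h

/-- The classes over the fields of torsion points. -/
theorem grow_aux {K : Type*} [Field K] [NumberField K] {Ω : Type*} [Field Ω] [CharZero Ω]
    [Algebra K Ω] [IsAlgClosure K Ω] (E : WeierstrassCurve K) {k0 : Ω} (h0 : k0 ≠ 0)
    (h4 : k0 ^ 2 ≠ 16) (hi : IsIntegral ℤ k0) (C : VariableChange Ω)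
    (hC : C • E.map (algebraMap K Ω) = crv k0) :
    ∃ (c : ℕ) (L : ℕ → IntermediateField K Ω), Monotone L ∧ ∀ m,
      FiniteDimensional K (L m) ∧ Module.finrank K (L m) ≤ c * 16 ^ m ∧
        ManyClasses (E.map (algebraMap K (L m))).toAffine.FunctionField (2 ^ m) := by
  classical
  have _ : IsAlgClosure ℚ Ω := isAlgClosure_rat K
  have _ : Algebra.IsAlgebraic ℚ Ω := IsAlgClosure.isAlgebraic
  have _ : Algebra.IsAlgebraic K Ω := IsAlgClosure.isAlgebraic
  have _ : IsAlgClosed Ω := IsAlgClosure.isAlgClosed ℚ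
  have τ : Ω →+* ℂ := (IsAlgClosed.lift (R := ℚ) (S := Ω) (M := ℂ)).toRingHom
  obtain ⟨j0, hj0⟩ := exists_large τ h0 h4 100
  obtain ⟨I, hI⟩ := IsAlgClosed.exists_pow_nat_eq (-1 : Ω) (n := 2) (by norm_num)
  set S : Set Ω := {k0, (C.u : Ω), C.r, C.s, C.t, I} with hS
  have hfin : S.Finite := Set.toFinite _
  obtain ⟨J0, hJ0, hprop⟩ := exists_properK K τ h0 h4 hi hfin j0
  have hkS : k0 ∈ S := by rw [hS]; simp
  set M := LJ K τ S k0 J0 with hM
  obtain ⟨γ, hγ⟩ : ∃ g : Ω ≃ₐ[M] Ω, g (ns τ k0 J0) = (ns τ k0 J0)⁻¹ :=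
    exists_conjK K τ hkS hprop
  have hMfd : FiniteDimensional K M := LJ_fd K τ hfin J0
  have hMS : ∀ x ∈ S, x ∈ M := fun x hx => LJ_left K τ hx
  have _ : Algebra.IsAlgebraic M Ω := Algebra.IsAlgebraic.tower_top (K := K) M
  have hkM : k0 ∈ M := hMS _ hkS
  set κ : M := ⟨k0, hkM⟩ with hκ
  set W : WeierstrassCurve.Affine M := crv κ with hW
  have hκΩ : algebraMap M Ω κ = k0 := rfl
  obtain ⟨t1, t2⟩ := tor_one (V := WeierstrassCurve.Affine.baseChange W Ω) (k := k0)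
    (VV_eq κ) two_ne_zero
  have hfix : ∀ x ∈ M, ∀ j : ℕ, (γ ^ j) x = x := fun x hx j => (γ ^ j).commutes ⟨x, hx⟩
  have hγI : γ I = I := by
    have h1 : I ∈ M := hMS _ (by rw [hS]; simp)
    exact γ.commutes ⟨I, h1⟩
  have hγlow : ∀ i, i < J0 → γ (ns τ k0 i) = ns τ k0 i := fun i hi =>
    γ.commutes ⟨_, LJ_ns K τ hi⟩
  have hflip := flip γ hI hγI (fun i => ns_ne τ (k0 := k0) i) (fun i => ns_rel τ (k0 := k0) i)
    hγlow hγ
  have hchain := fun J => chain τ h0 h4 J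
  have hroot := root_mem (W := W) (Ω := Ω) (κ := κ) h0 h4 rfl (k := kk τ k0) (n := ns τ k0) rfl
    hchain (pow_four_ne τ h0 h4)
  refine ⟨Module.finrank K M * 16 ^ (J0 + 1),
    fun m => (TF W Ω (J0 + m + 1)).restrictScalars K, fun m m' h => ?_, fun m => ?_⟩
  · intro x hx
    exact TF_mono (W := W) (by omega : J0 + m + 1 ≤ J0 + m' + 1) hx
  · have hfd1 : FiniteDimensional M (TF W Ω (J0 + m + 1)) :=
      TF_fd (tor_card t1 t2 (J0 + m + 1)).1
    have hfd2 : FiniteDimensional K (TF W Ω (J0 + m + 1)) := Module.Finite.trans M _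
    have hfd3 : FiniteDimensional K ((TF W Ω (J0 + m + 1)).restrictScalars K) := hfd2
    refine ⟨hfd3, ?_, ?_⟩
    · have h1 : Module.finrank K M * Module.finrank M (TF W Ω (J0 + m + 1)) =
          Module.finrank K (TF W Ω (J0 + m + 1)) := Module.finrank_mul_finrank K M _
      have h2 : Module.finrank K ((TF W Ω (J0 + m + 1)).restrictScalars K) =
          Module.finrank K (TF W Ω (J0 + m + 1)) := rfl
      rw [h2, ← h1, mul_assoc, ← pow_add, show J0 + 1 + m = J0 + m + 1 by ring]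
      exact Nat.mul_le_mul_left _ (TF_deg t1 t2 _)
    · set L := (TF W Ω (J0 + m + 1)).restrictScalars K with hL
      have _ : FiniteDimensional ℚ L := Module.Finite.trans K L
      have _ : NumberField L := ⟨⟩
      have hLM : ∀ x ∈ M, x ∈ L := fun x hx => (TF W Ω (J0 + m + 1)).algebraMap_mem ⟨x, hx⟩
      have hkL : k0 ∈ L := hLM _ hkM
      have hLS : ∀ x ∈ S, x ∈ L := fun x hx => hLM _ (hMS x hx)
      obtain ⟨C', hC'⟩ := descend L E ⟨k0, hkL⟩ C (hLS _ (by rw [hS]; simp))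
        (hLS _ (by rw [hS]; simp)) (hLS _ (by rw [hS]; simp)) (hLS _ (by rw [hS]; simp)) hC
      have hmem : ∀ j i, i ≤ J0 + m → (γ ^ j) (ns τ k0 i) ∈ L := by
        intro j i hi
        have h1 : ns τ k0 i ∈ TF W Ω (J0 + m + 1) := TF_mono (W := W) (by omega) (hroot i)
        exact TF_stable ((γ ^ j : Ω ≃ₐ[M] Ω) : Ω →ₐ[M] Ω) h1
      set ν : ℕ → ℕ → L := fun j i => if h : i ≤ J0 + m then ⟨(γ ^ j) (ns τ k0 i), hmem j i h⟩
        else 1 with hν
      have νv : ∀ j i, i ≤ J0 + m → algebraMap L Ω (ν j i) = (γ ^ j) (ns τ k0 i) := by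
        intro j i h
        rw [hν]
        simp only [h, dif_pos]
        rfl
      have κv : ∀ j i, i ≤ J0 + m + 1 → algebraMap L Ω (kof (⟨k0, hkL⟩ : L) (ν j) i) =
          (γ ^ j) (kk τ k0 i) := by
        intro j i h
        cases i with
        | zero => exact (hfix k0 hkM j).symm
        | succ i =>
          show algebraMap L Ω (4 * ν j i ^ 2) = _
          rw [kk_succ, map_mul, map_pow, νv j i (by omega), map_ofNat, map_mul, map_pow,
            map_ofNat]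
      have hinj : Function.Injective (algebraMap L Ω) := (algebraMap L Ω).injective
      have hch : ∀ j, Chain (kof (⟨k0, hkL⟩ : L) (ν j)) (ν j) (J0 + m + 1) := by
        intro j
        have h1 := (hchain (J0 + m + 1)).map ((γ ^ j : Ω ≃ₐ[M] Ω) : Ω →+* Ω)
        refine ⟨fun i h h2 => h1.n0 i h ?_, fun i h h2 => h1.n2 i h ?_, fun i h => ?_,
          fun i _ => rfl⟩
        · show (γ ^ j) (ns τ k0 i) = 0
          rw [← νv j i (by omega), h2, map_zero]
        · show (γ ^ j) (ns τ k0 i) ^ 2 = 1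
          rw [← νv j i (by omega), ← map_pow, h2, map_one]
        · apply hinj
          rw [κv j i (by omega), map_mul, map_add, map_inv₀, map_ofNat, νv j i (by omega)]
          exact h1.k1 i h
      have hint : ∀ j, IsIntegral ℤ (kof (⟨k0, hkL⟩ : L) (ν j) (J0 + m + 1)) := by
        intro j
        have h1 : IsIntegral ℤ ((γ ^ j) (kk τ k0 (J0 + m + 1))) :=
          map_isIntegral_int ((γ ^ j : Ω ≃ₐ[M] Ω) : Ω →+* Ω) (kk_int τ hi _)
        rw [← κv j _ le_rfl] at h1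
        exact (isIntegral_algebraMap_iff hinj).1 h1
      refine many (J := J0 + m) (a := m) hC' (fun h => h0 (congrArg Subtype.val h)) ν hch hint
        (fun l => (τ.comp ((γ ^ l : Ω ≃ₐ[M] Ω) : Ω →+* Ω)).comp (algebraMap L Ω)) (κ := τ k0)
        (fun l => ?_) (fun j i => τ ((γ ^ j) (ns τ k0 i))) (fun l j i hi => ?_)
        (fun j i hi => ?_) (fun i hi => ?_) ?_ ?_
      · show τ ((γ ^ l) k0) = τ k0
        rw [hfix k0 hkM]
      · show τ ((γ ^ l) (algebraMap L Ω (ν j i))) = τ ((γ ^ (l + j)) (ns τ k0 i))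
        rw [νv j i hi, pow_add, AlgEquiv.mul_apply]
      · show τ ((γ ^ (j + 2 ^ (m + 1))) (ns τ k0 i)) = τ ((γ ^ j) (ns τ k0 i))
        rw [pow_add, AlgEquiv.mul_apply, (hflip (m + 1)).2.1 i (by omega)]
      · show τ ((γ ^ 2 ^ m) (ns τ k0 i)) = τ ((γ ^ 0) (ns τ k0 i))
        rw [(hflip m).2.1 i hi, pow_zero]
        rfl
      · show τ ((γ ^ 2 ^ m) (ns τ k0 (J0 + m))) = (τ ((γ ^ 0) (ns τ k0 (J0 + m))))⁻¹
        rw [(hflip m).2.2, map_inv₀, pow_zero]
        rfl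
      · show 100 ≤ ‖τ ((γ ^ 0) (ns τ k0 (J0 + m)))‖
        rw [pow_zero]
        exact hj0 _ (by omega)

end Pool.Agent.Run7.h770.PG
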