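import Pool.Agent.Run7.h770.PG.Main
import Pool.Agent.Run7.h770.PG.Eqv
set_option autoImplicit false

/-!
Free modules over the group rings of cyclic groups in the integral part of `K_2` of elliptic curves
with integral `j`-invariant.
-/

namespace Pool.Agent.Run7.h770.PG

open Pool.Agent.W367.KT Pool.Agent.T6.H7.SX

open Pool.Agent.Run7.h770.IJ (crv jk exists_crv map_crv)

open Pool.Agent.Run7.h770.UB

open WeierstrassCurve

open scoped TensorProduct

section desc

variable {K Ω : Type*} [Field K] [Field Ω] [Algebra K Ω]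

theorem descend2 (L : IntermediateField K Ω) (E : WeierstrassCurve K) (k : L)
    (C : VariableChange Ω) (hu : (C.u : Ω) ∈ L) (hr : C.r ∈ L) (hs : C.s ∈ L) (ht : C.t ∈ L)
    (h : C • E.map (algebraMap K Ω) = crv (k : Ω)) :
    ∃ C' : VariableChange L, C' • E.map (algebraMap K L) = crv k ∧
      ((C'.u : L) : Ω) = C.u ∧ (C'.r : Ω) = C.r ∧ (C'.s : Ω) = C.s ∧ (C'.t : Ω) = C.t := by
  have hu0 : (⟨(C.u : Ω), hu⟩ : L) ≠ 0 := by
    intro h0
    exact C.u.ne_zero (congrArg Subtype.val h0)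
  set C' : VariableChange L := ⟨Units.mk0 ⟨(C.u : Ω), hu⟩ hu0, ⟨C.r, hr⟩, ⟨C.s, hs⟩, ⟨C.t, ht⟩⟩
    with hC'
  refine ⟨C', ?_, rfl, rfl, rfl, rfl⟩
  have hC : C'.map (algebraMap L Ω) = C := by
    rw [hC']
    unfold VariableChange.map
    ext <;> rfl
  apply WeierstrassCurve.map_injective (algebraMap L Ω).injective
  show (C' • E.map (algebraMap K L)).map (algebraMap L Ω) = (crv k).map (algebraMap L Ω)
  rw [← WeierstrassCurve.map_variableChange, hC, map_crv, WeierstrassCurve.map_map,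
    ← IsScalarTower.algebraMap_eq]
  exact h

/-- the elements fixed by an automorphism -/
noncomputable def fixd (h : Ω ≃ₐ[K] Ω) : IntermediateField K Ω :=
  IntermediateField.fixedField (Subgroup.zpowers h)

theorem mem_fixd {h : Ω ≃ₐ[K] Ω} {x : Ω} : x ∈ fixd h ↔ h x = x := by
  unfold fixd
  rw [IntermediateField.mem_fixedField_iff]
  constructor
  · intro h1
    exact h1 h (Subgroup.mem_zpowers h)
  · intro h1 f hf
    have h2 : Subgroup.zpowers h ≤ MulAction.stabilizer (Ω ≃ₐ[K] Ω) x := by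
      rw [Subgroup.zpowers_le, MulAction.mem_stabilizer_iff]
      exact h1
    exact MulAction.mem_stabilizer_iff.1 (h2 hf)

theorem fixd_mono (h : Ω ≃ₐ[K] Ω) {m m' : ℕ} (hm : m ≤ m') :
    fixd (h ^ 2 ^ m) ≤ fixd (h ^ 2 ^ m') := by
  intro x hx
  rw [mem_fixd] at hx ⊢
  obtain ⟨d, rfl⟩ := Nat.exists_eq_add_of_le hm
  rw [pow_add, pow_mul]
  generalize h ^ 2 ^ m = f at hx
  have h1 : ∀ j : ℕ, (f ^ j) x = x := by
    intro j
    induction j with
    | zero => rfl
    | succ j ih => rw [pow_succ, AlgEquiv.mul_apply, hx, ih]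
  exact h1 _

end desc

/-- The classes over the fields of torsion points. -/
theorem grow_eqv {K : Type*} [Field K] [NumberField K] {Ω : Type*} [Field Ω] [CharZero Ω]
    [Algebra K Ω] [IsAlgClosure K Ω] (E : WeierstrassCurve K) {k0 : Ω} (h0 : k0 ≠ 0)
    (h4 : k0 ^ 2 ≠ 16) (hi : IsIntegral ℤ k0) (C : VariableChange Ω)
    (hC : C • E.map (algebraMap K Ω) = crv k0) :
    ∃ (c : ℕ) (γ : Ω ≃ₐ[K] Ω) (L : ℕ → IntermediateField K Ω), Monotone L ∧ ∀ m,
      FiniteDimensional K (L m) ∧ Module.finrank K (L m) ≤ c * 16 ^ m ∧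
        ∃ g : L m →ₐ[K] L m, (∀ x : L m, ((g x : L m) : Ω) = γ x) ∧
          (∀ x : L m, (γ ^ 2 ^ m) (x : Ω) = x) ∧
          FreeOrbit (E.map (algebraMap K (L m))) (g : L m →+* L m) (2 ^ m) := by
  classical
  have _ : IsAlgClosure ℚ Ω := isAlgClosure_rat K
  have _ : Algebra.IsAlgebraic ℚ Ω := IsAlgClosure.isAlgebraic
  have _ : Algebra.IsAlgebraic K Ω := IsAlgClosure.isAlgebraic
  have _ : IsAlgClosed Ω := IsAlgClosure.isAlgClosed ℚ
  have τ : Ω →+* ℂ := (IsAlgClosed.lift (R := ℚ) (S := Ω) (M := ℂ)).toRingHom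
  obtain ⟨j0, hj0⟩ := exists_large τ h0 h4 100
  obtain ⟨I, hI⟩ := IsAlgClosed.exists_pow_nat_eq (-1 : Ω) (n := 2) (by norm_num)
  set S : Set Ω := {k0, (C.u : Ω), C.r, C.s, C.t, I} with hS
  have hfin : S.Finite := Set.toFinite _
  obtain ⟨J0, hJ0, hprop⟩ := exists_properK K τ h0 h4 hi hfin (j0 + 1)
  obtain ⟨J, rfl⟩ : ∃ J, J0 = J + 1 := ⟨J0 - 1, by omega⟩
  have hkS : k0 ∈ S := by rw [hS]; simp
  set M := LJ K τ S k0 (J + 1) with hM
  obtain ⟨γ, hγ⟩ : ∃ g : Ω ≃ₐ[M] Ω, g (ns τ k0 (J + 1)) = (ns τ k0 (J + 1))⁻¹ :=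
    exists_conjK K τ hkS hprop
  have hMfd : FiniteDimensional K M := LJ_fd K τ hfin (J + 1)
  have hMS : ∀ x ∈ S, x ∈ M := fun x hx => LJ_left K τ hx
  have _ : Algebra.IsAlgebraic M Ω := Algebra.IsAlgebraic.tower_top (K := K) M
  have hkM : k0 ∈ M := hMS _ hkS
  set κ : M := ⟨k0, hkM⟩ with hκ
  set W : WeierstrassCurve.Affine M := crv κ with hW
  have hκΩ : algebraMap M Ω κ = k0 := rfl
  obtain ⟨t1, t2⟩ := tor_one (V := WeierstrassCurve.Affine.baseChange W Ω) (k := k0)
    (VV_eq κ) two_ne_zero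
  have hfix : ∀ x ∈ M, ∀ j : ℕ, (γ ^ j) x = x := fun x hx j => (γ ^ j).commutes ⟨x, hx⟩
  have hγI : γ I = I := by
    have h1 : I ∈ M := hMS _ (by rw [hS]; simp)
    exact γ.commutes ⟨I, h1⟩
  have hγlow : ∀ i, i < J + 1 → γ (ns τ k0 i) = ns τ k0 i := fun i hi =>
    γ.commutes ⟨_, LJ_ns K τ hi⟩
  have hflip := flip γ hI hγI (fun i => ns_ne τ (k0 := k0) i) (fun i => ns_rel τ (k0 := k0) i)
    hγlow hγ
  have hchain := fun J => chain τ h0 h4 J
  have hroot := root_mem (W := W) (Ω := Ω) (κ := κ) h0 h4 rfl (k := kk τ k0) (n := ns τ k0) rfl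
    hchain (pow_four_ne τ h0 h4)
  set γK : Ω ≃ₐ[K] Ω := AlgEquiv.restrictScalars K γ with hγK
  have hpow : ∀ (j : ℕ) (x : Ω), (γK ^ j) x = (γ ^ j) x := by
    intro j
    induction j with
    | zero => intro x; rfl
    | succ j ih =>
      intro x
      rw [pow_succ, pow_succ, AlgEquiv.mul_apply, AlgEquiv.mul_apply, ih]
      rfl
  set LL : ℕ → IntermediateField K Ω := fun m =>
    (TF W Ω (J + 1 + m)).restrictScalars K ⊓ fixd (γK ^ 2 ^ m) with hLL
  have memL : ∀ {m : ℕ} {x : Ω}, x ∈ LL m ↔ x ∈ TF W Ω (J + 1 + m) ∧ (γ ^ 2 ^ m) x = x := by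
    intro m x
    rw [← hpow, ← mem_fixd]
    exact Iff.rfl
  have hstab : ∀ {m : ℕ} {x : Ω}, x ∈ LL m → γ x ∈ LL m := by
    intro m x hx
    obtain ⟨h1, h2⟩ := memL.1 hx
    refine memL.2 ⟨TF_stable (γ : Ω →ₐ[M] Ω) h1, ?_⟩
    rw [← AlgEquiv.mul_apply, ← pow_succ, pow_succ', AlgEquiv.mul_apply, h2]
  refine ⟨Module.finrank K M * 16 ^ (J + 1), γK, LL, fun m m' h => ?_, fun m => ?_⟩
  · intro x hx
    obtain ⟨h1, h2⟩ := memL.1 hx
    refine memL.2 ⟨TF_mono (W := W) (by omega : J + 1 + m ≤ J + 1 + m') h1, ?_⟩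
    rw [← hpow, ← mem_fixd]
    refine fixd_mono γK h ?_
    rw [mem_fixd, hpow]
    exact h2
  · have hfd1 : FiniteDimensional M (TF W Ω (J + 1 + m)) := TF_fd (tor_card t1 t2 (J + 1 + m)).1
    have hfd2 : FiniteDimensional K (TF W Ω (J + 1 + m)) := Module.Finite.trans M _
    have hfd3 : FiniteDimensional K ((TF W Ω (J + 1 + m)).restrictScalars K) := hfd2
    have hle : LL m ≤ (TF W Ω (J + 1 + m)).restrictScalars K := inf_le_left
    have hfd4 : FiniteDimensional K (LL m) :=
      Module.Finite.of_injective (IntermediateField.inclusion hle).toLinearMap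
        (IntermediateField.inclusion hle).toRingHom.injective
    refine ⟨hfd4, ?_, ?_⟩
    · have h1 : Module.finrank K M * Module.finrank M (TF W Ω (J + 1 + m)) =
          Module.finrank K (TF W Ω (J + 1 + m)) := Module.finrank_mul_finrank K M _
      have h2 : Module.finrank K ((TF W Ω (J + 1 + m)).restrictScalars K) =
          Module.finrank K (TF W Ω (J + 1 + m)) := rfl
      have h3 : Module.finrank K (LL m) ≤
          Module.finrank K ((TF W Ω (J + 1 + m)).restrictScalars K) :=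
        LinearMap.finrank_le_finrank_of_injective
          (f := (IntermediateField.inclusion hle).toLinearMap)
          (IntermediateField.inclusion hle).toRingHom.injective
      refine h3.trans ?_
      rw [h2, ← h1, mul_assoc, ← pow_add]
      exact Nat.mul_le_mul_left _ (TF_deg t1 t2 _)
    · set L := LL m with hL
      have _ : FiniteDimensional ℚ L := Module.Finite.trans K L
      have _ : NumberField L := ⟨⟩
      have hLM : ∀ x ∈ M, x ∈ L := fun x hx =>
        memL.2 ⟨(TF W Ω (J + 1 + m)).algebraMap_mem ⟨x, hx⟩, hfix x hx _⟩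
      have hkL : k0 ∈ L := hLM _ hkM
      have hLS : ∀ x ∈ S, x ∈ L := fun x hx => hLM _ (hMS x hx)
      obtain ⟨C', hC', cu, cr, cs, ct⟩ := descend2 L E ⟨k0, hkL⟩ C (hLS _ (by rw [hS]; simp))
        (hLS _ (by rw [hS]; simp)) (hLS _ (by rw [hS]; simp)) (hLS _ (by rw [hS]; simp)) hC
      set g : L →ₐ[K] L := (((γK : Ω →ₐ[K] Ω).comp L.val).codRestrict L.toSubalgebra
        fun x => hstab x.2) with hg
      have hgv : ∀ x : L, ((g x : L) : Ω) = γ x := fun x => rfl
      have hinj : Function.Injective (algebraMap L Ω) := (algebraMap L Ω).injective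
      have gfix : ∀ {x : L}, (x : Ω) ∈ M → g x = x := by
        intro x hx
        apply hinj
        show ((g x : L) : Ω) = x
        rw [hgv]
        have := hfix _ hx 1
        rwa [pow_one] at this
      have hmem : ∀ j i, i < J + 1 + m → (γ ^ j) (ns τ k0 i) ∈ L := by
        intro j i hi
        have h1 : ns τ k0 i ∈ TF W Ω (J + 1 + m) := TF_mono (W := W) (by omega) (hroot i)
        refine memL.2 ⟨TF_stable ((γ ^ j : Ω ≃ₐ[M] Ω) : Ω →ₐ[M] Ω) h1, ?_⟩
        rw [← AlgEquiv.mul_apply, ← pow_add, add_comm, pow_add, AlgEquiv.mul_apply,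
          (hflip m).2.1 i hi]
      set ν : ℕ → ℕ → L := fun j i => if h : i < J + 1 + m then ⟨(γ ^ j) (ns τ k0 i), hmem j i h⟩
        else 1 with hν
      have νv : ∀ j i, i < J + 1 + m → algebraMap L Ω (ν j i) = (γ ^ j) (ns τ k0 i) := by
        intro j i h
        rw [hν]
        simp only [h, dif_pos]
        rfl
      have κv : ∀ j i, i ≤ J + 1 + m → algebraMap L Ω (kof (⟨k0, hkL⟩ : L) (ν j) i) =
          (γ ^ j) (kk τ k0 i) := by
        intro j i h
        cases i with
        | zero => exact (hfix k0 hkM j).symm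
        | succ i =>
          show algebraMap L Ω (4 * ν j i ^ 2) = _
          rw [kk_succ, map_mul, map_pow, νv j i (by omega), map_ofNat, map_mul, map_pow,
            map_ofNat]
      have hch : ∀ j, Chain (kof (⟨k0, hkL⟩ : L) (ν j)) (ν j) (J + 1 + m) := by
        intro j
        have h1 := (hchain (J + 1 + m)).map ((γ ^ j : Ω ≃ₐ[M] Ω) : Ω →+* Ω)
        refine ⟨fun i h h2 => h1.n0 i h ?_, fun i h h2 => h1.n2 i h ?_, fun i h => ?_,
          fun i _ => rfl⟩
        · show (γ ^ j) (ns τ k0 i) = 0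
          rw [← νv j i (by omega), h2, map_zero]
        · show (γ ^ j) (ns τ k0 i) ^ 2 = 1
          rw [← νv j i (by omega), ← map_pow, h2, map_one]
        · apply hinj
          rw [κv j i (by omega), map_mul, map_add, map_inv₀, map_ofNat, νv j i (by omega)]
          exact h1.k1 i h
      have hint : ∀ j i, i ≤ J + 1 + m → IsIntegral ℤ (kof (⟨k0, hkL⟩ : L) (ν j) i) := by
        intro j i hi'
        have h1 : IsIntegral ℤ ((γ ^ j) (kk τ k0 i)) :=
          map_isIntegral_int ((γ ^ j : Ω ≃ₐ[M] Ω) : Ω →+* Ω) (kk_int τ hi _)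
        rw [← κv j _ hi'] at h1
        exact (isIntegral_algebraMap_iff hinj).1 h1
      refine ⟨g, fun x => rfl, fun x => ?_, ?_⟩
      · rw [hpow]
        exact (memL.1 x.2).2
      refine eqv (J := J) (m := m) hC' (fun h => h0 (congrArg Subtype.val h)) ?_ ?_ ?_ ν hch hint
        (fun j i hi => ?_) (τ.comp (algebraMap L Ω)) (fun i hi1 hi2 => ?_) (fun i hi => ?_)
        (fun a ha i hi => ?_) (fun a ha i hi => ?_) (fun a ha => ?_)
      · exact ⟨g.commutes _, g.commutes _, g.commutes _, g.commutes _, g.commutes _⟩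
      · exact ⟨gfix (by rw [cu]; exact hMS _ (by rw [hS]; simp)),
          gfix (by rw [cr]; exact hMS _ (by rw [hS]; simp)),
          gfix (by rw [cs]; exact hMS _ (by rw [hS]; simp)),
          gfix (by rw [ct]; exact hMS _ (by rw [hS]; simp))⟩
      · exact gfix hkM
      · apply hinj
        rw [νv (j + 1) i hi]
        show γ ((ν j i : L) : Ω) = _
        have h1 : ((ν j i : L) : Ω) = (γ ^ j) (ns τ k0 i) := νv j i hi
        rw [h1, ← AlgEquiv.mul_apply, ← pow_succ']
      · show 100 ≤ ‖τ (algebraMap L Ω (ν 0 i))‖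
        rw [νv 0 i hi2, pow_zero]
        exact hj0 _ (by omega)
      · apply hinj
        rw [νv 1 i (by omega), νv 0 i (by omega), pow_one, pow_zero]
        exact hγlow i hi
      · apply hinj
        rw [νv _ i (by omega), νv 0 i (by omega), pow_zero]
        exact (hflip a).2.1 i hi
      · apply hinj
        rw [νv _ i (by omega), νv 0 i (by omega), pow_zero]
        exact (hflip (a + 1)).2.1 i (by omega)
      · apply hinj
        rw [map_inv₀, νv _ _ (by omega), νv 0 _ (by omega), pow_zero]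
        exact (hflip a).2.2

end Pool.Agent.Run7.h770.PG
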