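import Pool.Agent.Run7.h770.UB.Rows
set_option autoImplicit false

/-!
A closed path which separates two conjugate classes.
-/

namespace Pool.Agent.Run7.h770.PG

open Pool.Agent.W367.KT Pool.Agent.T6.H7.SX

open Pool.Agent.Run7.h770.IJ (crv)

open Pool.Agent.Run7.h770.UB

open WeierstrassCurve

/-- the regulator integral of the last symbol of a chain of isogenies -/
noncomputable def rgl (n : ℕ → ℂ) (X Y : ℝ → ℂ) (i : ℕ) : ℝ :=
  prK (fun t => it n (X t) i) (fun t => it n (Y t) i)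

theorem rgl_congr {n n' : ℕ → ℂ} {X Y : ℝ → ℂ} {i : ℕ} (h : ∀ j, j < i → n j = n' j) :
    rgl n X Y i = rgl n' X Y i := by
  unfold rgl
  have h1 : ∀ z, it n z i = it n' z i := fun z => it_congr h
  simp only [h1]

/-- A closed path for which the regulator integrals change if the last root is inverted. -/
theorem exists_path {k n : ℕ → ℂ} {J : ℕ} (hc : Chain k n (J + 1))
    (hn : ∀ i, IsAlgebraic ℚ (n i)) (hk : ∀ i, IsAlgebraic ℚ (k i)) (hbig : 100 ≤ ‖n J‖) :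
    ∃ X Y : ℝ → ℂ, PP X ∧ PP Y ∧ (∀ t, Sm (k 0) (X t) (Y t)) ∧ (∀ t, Transcendental ℚ (X t)) ∧
      ∀ n' : ℕ → ℂ, (∀ i, i < J → n' i = n i) → n' J = (n J)⁻¹ →
        rgl n X Y (J + 1) ≠ rgl n' X Y (J + 1) := by
  obtain ⟨R, hR1, hR2, hRt⟩ := exists_transcendental_between (r := 1) (s := 2) (by norm_num)
  have hR : 0 < R := by linarith
  have ppc := pp_circ hbig hR1 hR2
  have ppy := pp_yt hbig hR1 hR2
  have hsm : ∀ t, Sm (k J) (circ R t) (yt (n J) R t) := by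
    intro t
    rw [hc.k1 J (Nat.lt_succ_self J)]
    exact sm_yt hbig hR1 hR2 t
  obtain ⟨X, Y, hX, hY, hS, hXJ, hYJ⟩ := lift_all J (hc.mono (Nat.le_succ J)) ppc ppy hsm
  have hXt : ∀ t, Transcendental ℚ (X t) := by
    intro t h
    have h1 := alg_it (n := n) (i := J) (fun j _ => hn j) h
    rw [hXJ] at h1
    exact transcendental_circ hR hRt _ h1
  have hne : ∀ {z a : ℂ}, Transcendental ℚ z → IsAlgebraic ℚ a → z ≠ a := by
    intro z a hz ha h0
    apply hz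
    rw [h0]
    exact ha
  refine ⟨X, Y, hX, hY, hS, hXt, fun n' hn' hn'J => ?_⟩
  have hco : ∀ z : ℂ, it n' z J = it n z J := fun z => it_congr fun j hj => hn' j hj
  have e1 : ∀ t, it n (X t) (J + 1) =
      (fun s => UB.gg (n J) (circ R s)) (((2 ^ J : ℕ) : ℝ) * t) := by
    intro t
    show UB.gg (n J) (it n (X t) J) = _
    rw [hXJ]
    push_cast
    rfl
  have e2 : ∀ t, it n (Y t) (J + 1) =
      (fun s => UB.gg (n J) (yt (n J) R s)) (((2 ^ J : ℕ) : ℝ) * t) := by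
    intro t
    show UB.gg (n J) (it n (Y t) J) = _
    rw [hYJ]
    push_cast
    rfl
  have e1' : ∀ t, it n' (X t) (J + 1) =
      (fun s => UB.gg (n J)⁻¹ (circ R s)) (((2 ^ J : ℕ) : ℝ) * t) := by
    intro t
    show UB.gg (n' J) (it n' (X t) J) = _
    rw [hco, hXJ, hn'J]
    push_cast
    rfl
  have e2' : ∀ t, it n' (Y t) (J + 1) =
      (fun s => UB.gg (n J)⁻¹ (yt (n J) R s)) (((2 ^ J : ℕ) : ℝ) * t) := by
    intro t
    show UB.gg (n' J) (it n' (Y t) J) = _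
    rw [hco, hYJ, hn'J]
    push_cast
    rfl
  have hn0 : n J ≠ 0 := n_ne hbig hR1 hR2
  have hna : IsAlgebraic ℚ (n J) := hn J
  have hct : ∀ t, Transcendental ℚ (circ R t) := transcendental_circ hR hRt
  have hka : IsAlgebraic ℚ (2 * (n J + (n J)⁻¹)) := by
    rw [← hc.k1 J (Nat.lt_succ_self J)]
    exact hk J
  have hyt : ∀ t, Transcendental ℚ (yt (n J) R t) := fun t =>
    tr_y hka (hct t) (sm_yt hbig hR1 hR2 t)
  have hmul : ∀ {z : ℂ}, Transcendental ℚ z → n J * z ≠ 1 := by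
    intro z hz h0
    refine hne hz hna.inv ?_
    rw [eq_inv_of_mul_eq_one_right h0]
  have hmul' : ∀ {z : ℂ}, Transcendental ℚ z → (n J)⁻¹ * z ≠ 1 := by
    intro z hz h0
    refine hne hz hna ?_
    rw [eq_inv_of_mul_eq_one_right h0, inv_inv]
  have p1 := ppc.gg (fun t => hne (hct t) hna) (fun t => hmul (hct t))
  have p2 := ppy.gg (fun t => hne (hyt t) hna) (fun t => hmul (hyt t))
  have p3 := ppc.gg (fun t => hne (hct t) hna.inv) (fun t => hmul' (hct t))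
  have p4 := ppy.gg (fun t => hne (hyt t) hna.inv) (fun t => hmul' (hyt t))
  unfold rgl
  simp only [e1, e2, e1', e2']
  rw [prK_mul p1 p2, prK_mul p3 p4]
  intro h
  have h2 : ((2 ^ J : ℕ) : ℝ) ≠ 0 := by positivity
  exact top_ne hbig hR1 hR2 (mul_left_cancel₀ h2 h)

section loop

variable {L : Type*} [Field L] [NumberField L] {W : WeierstrassCurve L} {C : VariableChange L}
  {k0 : L}

/-- The closed path over an embedding. -/
theorem exists_lp (hC : C • W = crv k0) (hk : k0 ≠ 0) {X Y : ℝ → ℂ} {κ : ℂ} (hX : PP X)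
    (hY : PP Y) (hS : ∀ t, Sm κ (X t) (Y t)) (hXt : ∀ t, Transcendental ℚ (X t)) (σ : L →+* ℂ)
    (hσ : σ k0 = κ) :
    ∃ γ : Loop W.toAffine.FunctionField, (∀ t c, γ.e t (cst W c) = σ c) ∧
      (∀ (nL : ℕ → L) t i, γ.e t (xi W C nL i) = it (fun j => σ (nL j)) (X t) i) ∧
      ∀ (nL : ℕ → L) t i, γ.e t (yi W C k0 nL i) = it (fun j => σ (nL j)) (Y t) i := by
  have hS' : ∀ t, Sm (σ k0) (X t) (Y t) := by
    intro t
    rw [hσ]
    exact hS t
  obtain ⟨γ, g1, g2, g3⟩ := exists_loop_sm σ hC hk hX hY hS' hXt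
  refine ⟨γ, g1, fun nL t i => ?_, fun nL t i => ?_⟩
  · unfold xi
    rw [map_it, g2]
    congr 1
    funext j
    exact g1 t _
  · unfold yi
    rw [map_it, g3]
    congr 1
    funext j
    exact g1 t _

/-- The functions `x_i`, `y_i` are not zero and satisfy the equations. -/
theorem xi_good (hC : C • W = crv k0) (hk : k0 ≠ 0) {X Y : ℝ → ℂ} {κ : ℂ} (hX : PP X)
    (hY : PP Y) (hS : ∀ t, Sm κ (X t) (Y t)) (hXt : ∀ t, Transcendental ℚ (X t)) (σ : L →+* ℂ)
    (hσ : σ k0 = κ) {kL nL : ℕ → L} {N : ℕ} (hc : Chain kL nL N) (hk0 : kL 0 = k0) {i : ℕ}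
    (hi : i ≤ N) : xi W C nL i ≠ 0 ∧ yi W C k0 nL i ≠ 0 ∧
      Sm (cst W (kL i)) (xi W C nL i) (yi W C k0 nL i) := by
  obtain ⟨γ, g1, vx, vy⟩ := exists_lp hC hk hX hY hS hXt σ hσ
  have hcσ := hc.map σ
  have halg : ∀ c : L, IsAlgebraic ℚ (σ c) := fun c => algebraic_sigma' σ c
  have hne : ∀ {z a : ℂ}, Transcendental ℚ z → IsAlgebraic ℚ a → z ≠ a := by
    intro z a hz ha h0
    apply hz
    rw [h0]
    exact ha
  have hS0 : Sm (σ (kL 0)) (X 0) (Y 0) := by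
    rw [hk0, hσ]
    exact hS 0
  obtain ⟨a1, a2, a3⟩ := all_sm hcσ (fun j _ => halg _) (halg _) (hXt 0) hS0 i hi
  have b1 : γ.e 0 (xi W C nL i) ≠ 0 := by
    rw [vx]
    exact hne a1 isAlgebraic_zero
  have b2 : γ.e 0 (yi W C k0 nL i) ≠ 0 := by
    rw [vy]
    exact hne a2 isAlgebraic_zero
  refine ⟨fun h => b1 (by rw [h, map_zero]), fun h => b2 (by rw [h, map_zero]), ?_⟩
  unfold Sm at a3 ⊢
  apply (γ.e 0).injective
  rw [map_add, map_add, map_add, map_inv₀, map_inv₀, vx, vy, g1]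
  exact a3

end loop

end Pool.Agent.Run7.h770.PG
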