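import Pool.Agent.Run7.h770.PG.Big
import Pool.Agent.Run7.h770.PG.Pair
set_option autoImplicit false

/-!
A closed path on which the regulator integral of a symbol is much larger than those of its
conjugates.
-/

namespace Pool.Agent.Run7.h770.PG

open Pool.Agent.Run7.h770.UB

open Pool.Agent.Run7.h770.IJ (rt Off contDiff_rt Off.one_lt Off.rt_eq Off.rt_ne)

open Pool.Agent.W367.KT

section start

variable {n : ℂ} {R : ℝ} (hn : 10 ^ 6 ≤ ‖n‖) (hR1 : 1 ≤ R) (hR2 : 1000 * R ≤ ‖n‖)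

include hn hR1 hR2

theorem ph_near' (t : ℝ) : ‖ph n R t - 2 * n‖ ≤ R + 2 := by
  have e : ph n R t - 2 * n = 2 * n⁻¹ - circ R t - (circ R t)⁻¹ := by
    unfold ph
    ring
  have h1 : ‖circ R t‖ = R := norm_circ (by linarith) t
  have h2 : ‖(circ R t)⁻¹‖ ≤ 1 := by
    rw [norm_inv, h1]
    exact inv_le_one_of_one_le₀ hR1
  have h3 : ‖2 * n⁻¹‖ ≤ 1 := by
    rw [norm_mul, norm_inv, Complex.norm_ofNat]
    have : ‖n‖⁻¹ ≤ 1 / 2 := by
      rw [inv_le_comm₀ (by linarith) (by norm_num)]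
      linarith
    linarith
  rw [e]
  have h4 := norm_sub_le (2 * n⁻¹ - circ R t) (circ R t)⁻¹
  have h5 := norm_sub_le (2 * n⁻¹) (circ R t)
  linarith

theorem ph_gt (t : ℝ) : ‖n‖ + 1 < ‖ph n R t‖ := by
  have h1 := ph_near' hn hR1 hR2 t
  have h2 := norm_sub_norm_le (2 * n) (2 * n - ph n R t)
  rw [sub_sub_cancel, norm_mul, Complex.norm_ofNat, norm_sub_rev] at h2
  linarith

theorem off' (t : ℝ) : Off (ph n R t) := off_of_lt (by linarith [ph_gt hn hR1 hR2 t])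

theorem pp_circ' : PP (circ R) :=
  ⟨contDiff_circ R, fun t => Pool.Agent.TH826.MK.circ_add_one R t,
    fun t => circ_ne_zero (by linarith) t⟩

theorem pp_yt' : PP (yt n R) := by
  refine ⟨?_, fun t => ?_, fun t => ?_⟩
  · refine contDiff_rt ?_ fun t => off' hn hR1 hR2 t
    unfold ph
    exact contDiff_const.sub ((contDiff_circ R).add
      ((contDiff_circ R).inv fun t => circ_ne_zero (by linarith) t))
  · unfold yt ph
    rw [show circ R (t + 1) = circ R t from Pool.Agent.TH826.MK.circ_add_one R t]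
  · exact (off' hn hR1 hR2 t).rt_ne

theorem sm_yt' (t : ℝ) : Sm (2 * (n + n⁻¹)) (circ R t) (yt n R t) := by
  unfold Sm
  have h := (off' hn hR1 hR2 t).rt_eq
  have h2 : yt n R t + (yt n R t)⁻¹ = ph n R t := h
  rw [add_assoc, h2]
  unfold ph
  ring

theorem yt_ge (t : ℝ) : ‖n‖ ≤ ‖yt n R t‖ := by
  have h := (off' hn hR1 hR2 t).rt_eq
  have h2 : yt n R t + (yt n R t)⁻¹ = ph n R t := h
  have h3 : 1 < ‖yt n R t‖ := (off' hn hR1 hR2 t).one_lt
  have h4 : ‖(yt n R t)⁻¹‖ ≤ 1 := by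
    rw [norm_inv]
    exact inv_le_one_of_one_le₀ h3.le
  have h5 := norm_add_le (yt n R t) (yt n R t)⁻¹
  rw [h2] at h5
  linarith [ph_gt hn hR1 hR2 t]

end start

theorem unf_start {n : ℂ} {R : ℝ} (hn : 10 ^ 6 ≤ ‖n‖) (hR1 : 8 * ‖n‖ ≤ R ^ 3)
    (hR2 : R ^ 3 ≤ 64 * ‖n‖) (hR : 0 < R) : Unf n 64 7 (circ R) (yt n R) := by
  have hQ : (64 : ℝ) * 10 ^ 9 ≤ ‖n‖ ^ 2 := by nlinarith
  obtain ⟨s1, s2⟩ := unf_size hn hQ hR.le hR1 hR2
  have hc : ∀ t, ‖circ R t‖ = R := fun t => norm_circ hR t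
  refine ⟨hn, by norm_num, hQ, by norm_num, fun t => by rw [hc]; exact hR1,
    fun t => by rw [hc]; exact hR2, yt_ge hn (by linarith) s2, sm_yt' hn (by linarith) s2,
    fun t => ⟨_, hasDerivAt_circ R t, ?_⟩⟩
  rw [norm_mul, norm_mul, norm_mul, Complex.norm_ofNat, Complex.norm_I, Complex.norm_real,
    Real.norm_eq_abs, abs_of_pos Real.pi_pos]
  have := Real.pi_lt_d2
  have h0 := norm_nonneg (circ R t)
  nlinarith

/-- the functions of the chain are nonvanishing, smooth and periodic -/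
theorem pp_it {z : ℕ → ℂ} (hz : ∀ i, IsAlgebraic ℚ (z i)) (hz0 : ∀ i, z i ≠ 0) {X : ℝ → ℂ}
    (hX : PP X) (hXt : ∀ t, Transcendental ℚ (X t)) (i : ℕ) :
    PP (fun t => it z (X t) i) ∧ ∀ t, Transcendental ℚ (it z (X t) i) := by
  induction i with
  | zero => exact ⟨hX, hXt⟩
  | succ i ih =>
    obtain ⟨h1, h2⟩ := ih
    have hne : ∀ {v a : ℂ}, Transcendental ℚ v → IsAlgebraic ℚ a → v ≠ a := by
      intro v a hv ha h0
      apply hv
      rw [h0]
      exact ha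
    refine ⟨h1.gg (fun t => hne (h2 t) (hz i)) (fun t h0 => ?_), fun t => tr_gg (hz i) (hz0 i) (h2 t)⟩
    refine hne (h2 t) (hz i).inv ?_
    rw [eq_inv_of_mul_eq_one_right h0]

theorem it_add (z : ℕ → ℂ) (v : ℂ) (J i : ℕ) :
    it z v (J + i) = it (fun l => z (J + l)) (it z v J) i := by
  induction i with
  | zero => rfl
  | succ i ih =>
    show gg (z (J + i)) (it z v (J + i)) = gg (z (J + i)) (it (fun l => z (J + l)) (it z v J) i)
    rw [ih]

/-- The closed path. -/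
theorem exists_path2 {k n : ℕ → ℂ} {J S : ℕ} (hc : Chain k n (J + 1))
    (hn : ∀ i, IsAlgebraic ℚ (n i)) (hn0 : ∀ i, n i ≠ 0) (hk : ∀ i, IsAlgebraic ℚ (k i))
    (hrel : ∀ i, n (i + 1) ^ 2 + 1 = 2 * n i ^ 2 * n (i + 1)) (hn1 : ∀ i, 1 ≤ ‖n i‖)
    (hbig : (2 * 10 ^ 7 * 324 ^ S * 4096 : ℝ) ^ 2 ^ S ≤ ‖n J‖) :
    ∃ X Y : ℝ → ℂ, PP X ∧ PP Y ∧ (∀ t, Sm (k 0) (X t) (Y t)) ∧ (∀ t, Transcendental ℚ (X t)) ∧
      2 ^ S * 2 ^ J < |rgl n X Y (J + S)| ∧
      ∀ z : ℕ → ℂ, (∀ i, IsAlgebraic ℚ (z i)) → (∀ i, z i ≠ 0) →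
        (∀ i, z (i + 1) ^ 2 + 1 = 2 * z i ^ 2 * z (i + 1)) → ∀ b, b < S →
        (∀ i, i < J + b → z i = n i) → z (J + b) = (n (J + b))⁻¹ →
          |rgl z X Y (J + S)| ≤ 2 ^ J := by
  have h324 : (1 : ℝ) ≤ 324 ^ S := one_le_pow₀ (by norm_num)
  have hJ6 : 10 ^ 6 ≤ ‖n J‖ := by
    refine le_trans ?_ hbig
    calc (10 : ℝ) ^ 6 ≤ 2 * 10 ^ 7 * 324 ^ S * 4096 := by nlinarith
      _ ≤ _ := le_self_pow₀ (by nlinarith) (by positivity)
  set r0 : ℝ := ‖n J‖ ^ (1 / 3 : ℝ) with hr0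
  have hnJ0 : 0 < ‖n J‖ := by linarith
  have hr0pos : 0 < r0 := Real.rpow_pos_of_pos hnJ0 _
  have hr3 : r0 ^ 3 = ‖n J‖ := by
    rw [hr0, ← Real.rpow_natCast, ← Real.rpow_mul hnJ0.le]
    norm_num
  obtain ⟨R, hRa, hRb, hRt⟩ := exists_transcendental_between (r := 2 * r0) (s := 4 * r0)
    (by linarith)
  have hR : 0 < R := by linarith
  have hR1 : 8 * ‖n J‖ ≤ R ^ 3 := by
    have h1 := pow_le_pow_left₀ (by positivity) hRa.le 3
    rw [mul_pow, hr3] at h1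
    linarith
  have hR2 : R ^ 3 ≤ 64 * ‖n J‖ := by
    have h1 := pow_le_pow_left₀ hR.le hRb.le 3
    rw [mul_pow, hr3] at h1
    linarith
  have hU := unf_start hJ6 hR1 hR2 hR
  have hQ : (64 : ℝ) * 10 ^ 9 ≤ ‖n J‖ ^ 2 := by nlinarith
  obtain ⟨s1, s2⟩ := unf_size hJ6 hQ hR.le hR1 hR2
  have ppc := pp_circ' hJ6 (by linarith) s2
  have ppy := pp_yt' hJ6 (by linarith) s2
  have hct : ∀ t, Transcendental ℚ (circ R t) := transcendental_circ hR hRt
  have hsm : ∀ t, Sm (k J) (circ R t) (yt (n J) R t) := by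
    intro t
    rw [hc.k1 J (Nat.lt_succ_self J)]
    exact sm_yt' hJ6 (by linarith) s2 t
  have hyt : ∀ t, Transcendental ℚ (yt (n J) R t) := fun t => tr_y (hk J) (hct t) (hsm t)
  obtain ⟨X, Y, hX, hY, hS, hXJ, hYJ⟩ := lift_all J (hc.mono (Nat.le_succ J)) ppc ppy hsm
  have hXt : ∀ t, Transcendental ℚ (X t) := by
    intro t h
    have h1 := alg_it (n := n) (i := J) (fun j _ => hn j) h
    rw [hXJ] at h1
    exact hct _ h1
  -- reduction to the level `J`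
  have hred : ∀ z : ℕ → ℂ, (∀ i, IsAlgebraic ℚ (z i)) → (∀ i, z i ≠ 0) →
      (∀ i, i < J → z i = n i) → rgl z X Y (J + S) = 2 ^ J *
        prK (fun t => it (fun l => z (J + l)) (circ R t) S)
          (fun t => it (fun l => z (J + l)) (yt (n J) R t) S) := by
    intro z hz hz0 hzn
    have e1 : ∀ t, it z (X t) (J + S) = (fun s => it (fun l => z (J + l)) (circ R s) S)
        (((2 ^ J : ℕ) : ℝ) * t) := by
      intro t
      rw [it_add, it_congr (n := z) (n' := n) hzn, hXJ]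
      push_cast
      rfl
    have e2 : ∀ t, it z (Y t) (J + S) = (fun s => it (fun l => z (J + l)) (yt (n J) R s) S)
        (((2 ^ J : ℕ) : ℝ) * t) := by
      intro t
      rw [it_add, it_congr (n := z) (n' := n) hzn, hYJ]
      push_cast
      rfl
    unfold rgl
    simp only [e1, e2]
    rw [prK_mul (pp_it (fun l => hz _) (fun l => hz0 _) ppc hct S).1
      (pp_it (fun l => hz _) (fun l => hz0 _) ppy hyt S).1]
    push_cast
    rfl
  have h2J : (0 : ℝ) < 2 ^ J := by positivity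
  set N : ℕ → ℂ := fun l => n (J + l) with hNdef
  have hNrel : ∀ i, N (i + 1) ^ 2 + 1 = 2 * N i ^ 2 * N (i + 1) := fun i => hrel (J + i)
  have hN1 : ∀ i, 1 ≤ ‖N i‖ := fun i => hn1 (J + i)
  refine ⟨X, Y, hX, hY, hS, hXt, ?_, fun z hz hz0 hz3 b hb hz1 hz2 => ?_⟩
  · rw [hred n hn hn0 fun i _ => rfl, abs_mul, abs_of_pos h2J, mul_comm]
    refine mul_lt_mul_of_pos_left ?_ h2J
    exact prK_big (N := N) hNrel hN1 hU hR
      (fun i => (pp_it (fun l => hn _) (fun l => hn0 _) ppc hct i).1)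
      (fun i => (pp_it (fun l => hn _) (fun l => hn0 _) ppy hyt i).1) S
  · rw [hred z hz hz0 fun i hi => hz1 i (by omega), abs_mul, abs_of_pos h2J]
    refine mul_le_of_le_one_right h2J.le ?_
    exact prK_flip (N := N) (z := fun l => z (J + l)) (b := b) hNrel hN1 hU
      (fun i hi => hz1 (J + i) (by omega)) hz2 (fun i => hz3 (J + i)) hbig hb le_rfl
      (pp_it (fun l => hz _) (fun l => hz0 _) ppc hct S).1
      (pp_it (fun l => hz _) (fun l => hz0 _) ppy hyt S).1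

end Pool.Agent.Run7.h770.PG
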