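import Pool.Agent.Run7.h770.PG.Main2
import Pool.Agent.Run7.h770.PG.Pth
set_option autoImplicit false

/-!
Polynomial growth of the rank of the regulator on the integral part of `K_2` of elliptic curves with
integral `j`-invariant.
-/

namespace Pool.Agent.Run7.h770.PG

open Pool.Agent.W367.KT Pool.Agent.T6.H7.SX

open Pool.Agent.Run7.h770.IJ (crv jk exists_crv map_crv)

open Pool.Agent.Run7.h770.UB

open WeierstrassCurve

open scoped TensorProduct

/-- Let `g` be an endomorphism of the field `L` that fixes the coefficients of the curve. There is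
an element of `K_2 ⊗ ℚ` of the curve whose translates by `g` belong to the integral part, and there
are `r` closed paths such that the matrix of the regulator integrals of the first `r` translates is
invertible. -/
def RegOrbit {L : Type*} [Field L] (W : WeierstrassCurve L) (g : L →+* L) (r : ℕ) : Prop :=
  ∃ Γ : W.toAffine.FunctionField →+* W.toAffine.FunctionField,
    (∀ c, Γ (cst W c) = cst W (g c)) ∧ Γ (Xf W) = Xf W ∧ Γ (Yf W) = Yf W ∧
      ∃ (α : ℚ ⊗[ℤ] K2 W.toAffine.FunctionField) (ℓ : Fin r → Loop W.toAffine.FunctionField),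
        (∀ j : ℕ, (K2Q Γ ^ j) α ∈ H2MZ W.toAffine.FunctionField) ∧
          (Matrix.of fun i j : Fin r => (ℓ i).regQ ((K2Q Γ ^ (j : ℕ)) α)).det ≠ 0

theorem dom {L : Type*} [Field L] [NumberField L] {W : WeierstrassCurve L} {C : VariableChange L}
    {k0 : L} (hC : C • W = crv k0) (hk : k0 ≠ 0) {g : L →+* L} (hg : Fix W g) (hgC : FixC C g)
    (gk : g k0 = k0) {J r : ℕ} (ν : ℕ → ℕ → L) (hc : ∀ j, Chain (kof k0 (ν j)) (ν j) J)
    (hint : ∀ j, IsIntegral ℤ (kof k0 (ν j) J)) (hν : ∀ j i, i < J → g (ν j i) = ν (j + 1) i)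
    (σ : ℕ → (L →+* ℂ)) {κ : ℂ} (hσ : ∀ l, σ l k0 = κ) {X Y : ℝ → ℂ} (hX : PP X) (hY : PP Y)
    (hS : ∀ t, Sm κ (X t) (Y t)) (hXt : ∀ t, Transcendental ℚ (X t)) {B : ℝ} (hB : 0 ≤ B)
    (h1 : ∀ l j, l < r → j < r → j ≠ l → |rgl (fun i => σ l (ν j i)) X Y J| ≤ B)
    (h2 : ∀ l, l < r → r * B < |rgl (fun i => σ l (ν l i)) X Y J|) : RegOrbit W g r := by
  set S : Module.End ℚ (ℚ ⊗[ℤ] K2 W.toAffine.FunctionField) := K2Q (th hg) with hSdef
  set cc : ℕ → ℚ ⊗[ℤ] K2 W.toAffine.FunctionField := fun j =>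
    cls W C (kof k0 (ν j)) (ν j) J with hcc
  have hS1 : ∀ j, S (cc j) = cc (j + 1) := by
    intro j
    have h1 := K2Q_cls (W := W) (C := C) hg hgC (kL := kof k0 (ν j)) (kL' := kof k0 (ν (j + 1)))
      gk rfl (ν j) J
    rw [hSdef, hcc]
    refine h1.trans (cls_congr rfl fun l hl => hν j l (by omega))
  have hSl : ∀ l, (S ^ l) (cc 0) = cc l := by
    intro l
    induction l with
    | zero => rfl
    | succ l ih => rw [pow_succ', Module.End.mul_apply, ih, hS1]
  choose lp g1 vx vy using fun l => exists_lp hC hk hX hY hS hXt (σ l) (hσ l)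
  have hgood := fun j => xi_good hC hk hX hY hS hXt (σ 0) (hσ 0) (hc j) rfl (le_refl J)
  have hmem : ∀ j, cc j ∈ H2MZ W.toAffine.FunctionField := by
    intro j
    obtain ⟨a1, a2, a3⟩ := hgood j
    exact cls_mem W C (kof k0 (ν j)) (ν j) a1 a2 a3 (hint j)
  have hreg : ∀ l j, (lp l).regQ (cc j) = rgl (fun i => σ l (ν j i)) X Y J := by
    intro l j
    obtain ⟨a1, a2, a3⟩ := hgood j
    have h1 := regQ_cls W C (kof k0 (ν j)) (ν j) (lp l) (i := J) a1 a2
    refine h1.trans ?_
    have e1 : (fun t => (lp l).e t (xi W C (ν j) J)) =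
        fun t => it (fun i => σ l (ν j i)) (X t) J := by
      funext t
      exact vx l (ν j) t J
    have e2 : (fun t => (lp l).e t (yi W C (kof k0 (ν j) 0) (ν j) J)) =
        fun t => it (fun i => σ l (ν j i)) (Y t) J := by
      funext t
      exact vy l (ν j) t J
    rw [e1, e2]
    rfl
  refine ⟨th hg, fun c => th_cst hg c, th_Xf hg, th_Yf hg, cc 0, fun l => lp l, fun j => ?_, ?_⟩
  · rw [hSl]
    exact hmem j
  · refine det_ne_zero_of_sum_row_lt_diag fun l => ?_
    have e : ∀ j : Fin r, (Matrix.of fun i j : Fin r => (lp i).regQ ((S ^ (j : ℕ)) (cc 0))) l j =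
        rgl (fun i => σ l (ν j i)) X Y J := by
      intro j
      show (lp l).regQ ((S ^ (j : ℕ)) (cc 0)) = _
      rw [hSl, hreg]
    have e3 : ∑ j ∈ Finset.univ.erase l,
        ‖(Matrix.of fun i j : Fin r => (lp i).regQ ((S ^ (j : ℕ)) (cc 0))) l j‖ ≤ r * B := by
      refine (Finset.sum_le_card_nsmul _ _ B fun j hj => ?_).trans ?_
      · rw [e, Real.norm_eq_abs]
        have hne : (j : ℕ) ≠ l := fun h0 => (Finset.mem_erase.1 hj).1 (Fin.ext h0)
        exact h1 l j l.2 j.2 hne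
      · rw [nsmul_eq_mul]
        refine mul_le_mul_of_nonneg_right ?_ hB
        have : (Finset.univ.erase l).card ≤ r := by
          refine (Finset.card_le_univ _).trans ?_
          rw [Fintype.card_fin]
        exact_mod_cast this
    refine lt_of_le_of_lt e3 ?_
    rw [e, Real.norm_eq_abs]
    exact h2 l l.2

section powers

variable {M Ω : Type*} [Field M] [Field Ω] [Algebra M Ω]

theorem pow_fix {g : Ω ≃ₐ[M] Ω} {x : Ω} (h : g x = x) (q : ℕ) : (g ^ q) x = x := by
  induction q with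
  | zero => rfl
  | succ q ih => rw [pow_succ, AlgEquiv.mul_apply, h, ih]

theorem odd_flip {g : Ω ≃ₐ[M] Ω} {x : Ω} (h : g x = x⁻¹) (q : ℕ) : (g ^ (2 * q + 1)) x = x⁻¹ := by
  have h2 : (g ^ 2) x = x := by
    rw [sq, AlgEquiv.mul_apply, h, map_inv₀, h, inv_inv]
  have h3 := pow_fix h2 q
  rw [← pow_mul] at h3
  rw [pow_succ', AlgEquiv.mul_apply, h3, h]

end powers

/-- the number of steps before the classes -/
def ee (m : ℕ) : ℕ := m + (Nat.log 2 (m + 1) + 1) + 3

theorem ee_mono {m m' : ℕ} (h : m ≤ m') : ee m ≤ ee m' := by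
  have := Nat.log_mono_right (b := 2) (by omega : m + 1 ≤ m' + 1)
  unfold ee
  omega

theorem big_enough (m : ℕ) {v : ℝ} (hv : 100 ^ 2 ^ ee m ≤ v) :
    (2 * 10 ^ 7 * 324 ^ m * 4096 : ℝ) ^ 2 ^ m ≤ v := by
  refine le_trans ?_ hv
  set t := Nat.log 2 (m + 1) + 1 with ht
  have e1 : (100 : ℝ) ^ 2 ^ ee m = (100 ^ (8 * 2 ^ t)) ^ 2 ^ m := by
    rw [← pow_mul]
    unfold ee
    congr 1
    rw [← ht, pow_add, pow_add]
    ring
  rw [e1]
  refine pow_le_pow_left₀ (by positivity) ?_ _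
  have h1 : m + 1 ≤ 2 ^ t := (Nat.lt_pow_succ_log_self (by norm_num) (m + 1)).le
  calc (2 * 10 ^ 7 * 324 ^ m * 4096 : ℝ) ≤ 100 ^ 8 * (100 ^ 8) ^ m := by
        have h2 : (324 : ℝ) ^ m ≤ (100 ^ 8) ^ m := pow_le_pow_left₀ (by norm_num) (by norm_num) m
        have h3 : (0 : ℝ) ≤ 324 ^ m := by positivity
        nlinarith
    _ = 100 ^ (8 * (m + 1)) := by
        rw [← pow_mul, ← pow_add]
        congr 1
        ring
    _ ≤ 100 ^ (8 * 2 ^ t) := pow_le_pow_right₀ (by norm_num) (by omega)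

theorem deg_est (D J m : ℕ) :
    D * 16 ^ (J + (ee m + m)) ≤ D * 16 ^ (J + 4) * (m + 1) ^ 4 * 256 ^ m := by
  have h1 : 2 ^ Nat.log 2 (m + 1) ≤ m + 1 := Nat.pow_log_le_self 2 (by omega)
  have h2 : (2 ^ Nat.log 2 (m + 1)) ^ 4 ≤ (m + 1) ^ 4 := Nat.pow_le_pow_left h1 4
  have e1 : 16 ^ (J + (ee m + m)) = 16 ^ (J + 4) * (2 ^ Nat.log 2 (m + 1)) ^ 4 * 256 ^ m := by
    unfold ee
    rw [show (256 : ℕ) = 16 ^ 2 by norm_num, ← pow_mul 16 2 m, ← pow_mul 2 _ 4,
      mul_comm _ 4, pow_mul 2 4, show (2 : ℕ) ^ 4 = 16 by norm_num, ← pow_add, ← pow_add]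
    congr 1
    ring
  rw [e1]
  calc D * (16 ^ (J + 4) * (2 ^ Nat.log 2 (m + 1)) ^ 4 * 256 ^ m)
      = D * 16 ^ (J + 4) * (2 ^ Nat.log 2 (m + 1)) ^ 4 * 256 ^ m := by ring
    _ ≤ _ := Nat.mul_le_mul_right _ (Nat.mul_le_mul_left _ h2)

/-- The classes over the fields of torsion points. -/
theorem grow_reg {K : Type*} [Field K] [NumberField K] {Ω : Type*} [Field Ω] [CharZero Ω]
    [Algebra K Ω] [IsAlgClosure K Ω] (E : WeierstrassCurve K) {k0 : Ω} (h0 : k0 ≠ 0)
    (h4 : k0 ^ 2 ≠ 16) (hi : IsIntegral ℤ k0) (C : VariableChange Ω)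
    (hC : C • E.map (algebraMap K Ω) = crv k0) :
    ∃ (c : ℕ) (L : ℕ → IntermediateField K Ω), Monotone L ∧ ∀ m,
      FiniteDimensional K (L m) ∧ Module.finrank K (L m) ≤ c * (m + 1) ^ 4 * 256 ^ m ∧
        ∃ g : L m →ₐ[K] L m, (∀ x : L m, (g ^ 2 ^ m) x = x) ∧
          RegOrbit (E.map (algebraMap K (L m))) (g : L m →+* L m) (2 ^ m) := by
  classical
  have _ : IsAlgClosure ℚ Ω := isAlgClosure_rat K
  have _ : Algebra.IsAlgebraic ℚ Ω := IsAlgClosure.isAlgebraic
  have _ : Algebra.IsAlgebraic K Ω := IsAlgClosure.isAlgebraic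
  have _ : IsAlgClosed Ω := IsAlgClosure.isAlgClosed ℚ
  have τ : Ω →+* ℂ := (IsAlgClosed.lift (R := ℚ) (S := Ω) (M := ℂ)).toRingHom
  obtain ⟨j0, hj0⟩ := exists_large τ h0 h4 100
  obtain ⟨I, hI⟩ := IsAlgClosed.exists_pow_nat_eq (-1 : Ω) (n := 2) (by norm_num)
  set S : Set Ω := {k0, (C.u : Ω), C.r, C.s, C.t, I} with hS
  have hfin : S.Finite := Set.toFinite _
  obtain ⟨J, hJ0, hprop⟩ := exists_properK K τ h0 h4 hi hfin j0
  have hkS : k0 ∈ S := by rw [hS]; simp
  set M := LJ K τ S k0 J with hM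
  obtain ⟨γ, hγ⟩ : ∃ g : Ω ≃ₐ[M] Ω, g (ns τ k0 J) = (ns τ k0 J)⁻¹ :=
    exists_conjK K τ hkS hprop
  have hMfd : FiniteDimensional K M := LJ_fd K τ hfin J
  have hMS : ∀ x ∈ S, x ∈ M := fun x hx => LJ_left K τ hx
  have _ : Algebra.IsAlgebraic M Ω := Algebra.IsAlgebraic.tower_top (K := K) M
  have hkM : k0 ∈ M := hMS _ hkS
  set κ : M := ⟨k0, hkM⟩ with hκ
  set W : WeierstrassCurve.Affine M := crv κ with hW
  have hκΩ : algebraMap M Ω κ = k0 := rfl
  obtain ⟨t1, t2⟩ := tor_one (V := WeierstrassCurve.Affine.baseChange W Ω) (k := k0)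
    (VV_eq κ) two_ne_zero
  have hfix : ∀ x ∈ M, ∀ j : ℕ, (γ ^ j) x = x := fun x hx j => (γ ^ j).commutes ⟨x, hx⟩
  have hγI : γ I = I := by
    have h1 : I ∈ M := hMS _ (by rw [hS]; simp)
    exact γ.commutes ⟨I, h1⟩
  have hγlow : ∀ i, i < J → γ (ns τ k0 i) = ns τ k0 i := fun i hi =>
    γ.commutes ⟨_, LJ_ns K τ hi⟩
  have hflip := flip γ hI hγI (fun i => ns_ne τ (k0 := k0) i) (fun i => ns_rel τ (k0 := k0) i)
    hγlow hγ
  have hchain := fun J => chain τ h0 h4 J
  have hroot := root_mem (W := W) (Ω := Ω) (κ := κ) h0 h4 rfl (k := kk τ k0) (n := ns τ k0) rfl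
    hchain (pow_four_ne τ h0 h4)
  set γK : Ω ≃ₐ[K] Ω := AlgEquiv.restrictScalars K γ with hγK
  have hpow : ∀ (j : ℕ) (x : Ω), (γK ^ j) x = (γ ^ j) x := by
    intro j
    induction j with
    | zero => intro x; rfl
    | succ j ih =>
      intro x
      rw [pow_succ, pow_succ, AlgEquiv.mul_apply, AlgEquiv.mul_apply, ih]
      rfl
  set LL : ℕ → IntermediateField K Ω := fun m =>
    (TF W Ω (J + (ee m + m))).restrictScalars K ⊓ fixd (γK ^ 2 ^ (ee m + m)) with hLL
  have memL : ∀ {m : ℕ} {x : Ω}, x ∈ LL m ↔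
      x ∈ TF W Ω (J + (ee m + m)) ∧ (γ ^ 2 ^ (ee m + m)) x = x := by
    intro m x
    rw [← hpow, ← mem_fixd]
    exact Iff.rfl
  have hstab : ∀ {m : ℕ} {x : Ω} (q : ℕ), x ∈ LL m → (γ ^ q) x ∈ LL m := by
    intro m x q hx
    obtain ⟨h1, h2⟩ := memL.1 hx
    refine memL.2 ⟨TF_stable ((γ ^ q : Ω ≃ₐ[M] Ω) : Ω →ₐ[M] Ω) h1, ?_⟩
    rw [← AlgEquiv.mul_apply, ← pow_add, add_comm, pow_add, AlgEquiv.mul_apply, h2]
  refine ⟨Module.finrank K M * 16 ^ (J + 4), LL, fun m m' h => ?_, fun m => ?_⟩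
  · intro x hx
    obtain ⟨h1, h2⟩ := memL.1 hx
    have hee := ee_mono h
    refine memL.2 ⟨TF_mono (W := W) (by omega : J + (ee m + m) ≤ J + (ee m' + m')) h1, ?_⟩
    rw [← hpow, ← mem_fixd]
    refine fixd_mono γK (by omega : ee m + m ≤ ee m' + m') ?_
    rw [mem_fixd, hpow]
    exact h2
  · have hfd1 : FiniteDimensional M (TF W Ω (J + (ee m + m))) :=
      TF_fd (tor_card t1 t2 (J + (ee m + m))).1
    have hfd2 : FiniteDimensional K (TF W Ω (J + (ee m + m))) := Module.Finite.trans M _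
    have hfd3 : FiniteDimensional K ((TF W Ω (J + (ee m + m))).restrictScalars K) := hfd2
    have hle : LL m ≤ (TF W Ω (J + (ee m + m))).restrictScalars K := inf_le_left
    have hfd4 : FiniteDimensional K (LL m) :=
      Module.Finite.of_injective (IntermediateField.inclusion hle).toLinearMap
        (IntermediateField.inclusion hle).toRingHom.injective
    refine ⟨hfd4, ?_, ?_⟩
    · have h1 : Module.finrank K M * Module.finrank M (TF W Ω (J + (ee m + m))) =
          Module.finrank K (TF W Ω (J + (ee m + m))) := Module.finrank_mul_finrank K M _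
      have h2 : Module.finrank K ((TF W Ω (J + (ee m + m))).restrictScalars K) =
          Module.finrank K (TF W Ω (J + (ee m + m))) := rfl
      have h3 : Module.finrank K (LL m) ≤
          Module.finrank K ((TF W Ω (J + (ee m + m))).restrictScalars K) :=
        LinearMap.finrank_le_finrank_of_injective
          (f := (IntermediateField.inclusion hle).toLinearMap)
          (IntermediateField.inclusion hle).toRingHom.injective
      refine h3.trans ?_
      rw [h2, ← h1]
      exact (Nat.mul_le_mul_left _ (TF_deg t1 t2 _)).trans (deg_est _ _ _)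
    · set L := LL m with hL
      have _ : FiniteDimensional ℚ L := Module.Finite.trans K L
      have _ : NumberField L := ⟨⟩
      have hLM : ∀ x ∈ M, x ∈ L := fun x hx =>
        memL.2 ⟨(TF W Ω (J + (ee m + m))).algebraMap_mem ⟨x, hx⟩, hfix x hx _⟩
      have hkL : k0 ∈ L := hLM _ hkM
      have hLS : ∀ x ∈ S, x ∈ L := fun x hx => hLM _ (hMS x hx)
      obtain ⟨C', hC', cu, cr, cs, ct⟩ := descend2 L E ⟨k0, hkL⟩ C (hLS _ (by rw [hS]; simp))
        (hLS _ (by rw [hS]; simp)) (hLS _ (by rw [hS]; simp)) (hLS _ (by rw [hS]; simp)) hC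
      -- the first flipping power
      set δ : Ω ≃ₐ[M] Ω := γ ^ 2 ^ (ee m) with hδ
      set J1 : ℕ := J + (ee m) with hJ1
      have hδpow : ∀ q : ℕ, δ ^ q = γ ^ (2 ^ (ee m) * q) := fun q => by rw [hδ, ← pow_mul]
      have hδ2 : ∀ b : ℕ, (∀ i, i < J1 + b → (δ ^ 2 ^ b) (ns τ k0 i) = ns τ k0 i) ∧
          (δ ^ 2 ^ b) (ns τ k0 (J1 + b)) = (ns τ k0 (J1 + b))⁻¹ := by
        intro b
        rw [hδpow, ← pow_add]
        have h1 := hflip (ee m + b)
        refine ⟨fun i hi => h1.2.1 i (by omega), ?_⟩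
        have h2 := h1.2.2
        rwa [← add_assoc] at h2
      have hδm : ∀ i, i < J1 + m → (δ ^ 2 ^ m) (ns τ k0 i) = ns τ k0 i := (hδ2 m).1
      have hδfix : ∀ x ∈ M, ∀ j : ℕ, (δ ^ j) x = x := fun x hx j => by
        rw [hδpow]
        exact hfix x hx _
      have hodd : ∀ k : ℕ, k ≠ 0 → ¬ 2 ^ m ∣ k → ∃ b, b < m ∧
          (∀ i, i < J1 + b → (δ ^ k) (ns τ k0 i) = ns τ k0 i) ∧
          (δ ^ k) (ns τ k0 (J1 + b)) = (ns τ k0 (J1 + b))⁻¹ := by
        intro k hk hdk
        obtain ⟨b, q, hq, hkq⟩ := Nat.exists_eq_two_pow_mul_odd hk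
        obtain ⟨q', hq'⟩ := hq
        refine ⟨b, ?_, ?_, ?_⟩
        · by_contra hcon
          push Not at hcon
          exact hdk (hkq ▸ (pow_dvd_pow 2 hcon).mul_right q)
        · intro i hi
          rw [hkq, pow_mul]
          exact pow_fix ((hδ2 b).1 i hi) q
        · rw [hkq, pow_mul, hq']
          exact odd_flip (hδ2 b).2 q'
      have hδstab : ∀ {x : Ω} (q : ℕ), x ∈ L → (δ ^ q) x ∈ L := by
        intro x q hx
        rw [hδpow]
        exact hstab _ hx
      set g : L →ₐ[K] L := ((((AlgEquiv.restrictScalars K δ : Ω ≃ₐ[K] Ω) : Ω →ₐ[K] Ω).comp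
        L.val).codRestrict L.toSubalgebra fun x => by
          have := hδstab 1 x.2
          rw [pow_one] at this
          exact this) with hg
      have hgv : ∀ x : L, ((g x : L) : Ω) = δ x := fun x => rfl
      have hgpow : ∀ (q : ℕ) (x : L), (((g ^ q) x : L) : Ω) = (δ ^ q) x := by
        intro q
        induction q with
        | zero => intro x; rfl
        | succ q ih =>
          intro x
          rw [pow_succ, pow_succ, AlgHom.mul_apply, AlgEquiv.mul_apply, ih, hgv]
      have hinj : Function.Injective (algebraMap L Ω) := (algebraMap L Ω).injective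
      have gfix : ∀ {x : L}, (x : Ω) ∈ M → g x = x := by
        intro x hx
        apply hinj
        show ((g x : L) : Ω) = x
        rw [hgv]
        have := hδfix _ hx 1
        rwa [pow_one] at this
      have hmem : ∀ j i, i < J1 + m → (δ ^ j) (ns τ k0 i) ∈ L := by
        intro j i hi
        refine hδstab j (memL.2 ⟨TF_mono (W := W) (by omega) (hroot i), ?_⟩)
        have h1 := hδm i hi
        rw [hδpow, ← pow_add] at h1
        exact h1
      set ν : ℕ → ℕ → L := fun j i => if h : i < J1 + m then ⟨(δ ^ j) (ns τ k0 i), hmem j i h⟩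
        else 1 with hν
      have νv : ∀ j i, i < J1 + m → algebraMap L Ω (ν j i) = (δ ^ j) (ns τ k0 i) := by
        intro j i h
        rw [hν]
        simp only [h, dif_pos]
        rfl
      have κv : ∀ j i, i ≤ J1 + m → algebraMap L Ω (kof (⟨k0, hkL⟩ : L) (ν j) i) =
          (δ ^ j) (kk τ k0 i) := by
        intro j i h
        cases i with
        | zero => exact (hδfix k0 hkM j).symm
        | succ i =>
          show algebraMap L Ω (4 * ν j i ^ 2) = _
          rw [kk_succ, map_mul, map_pow, νv j i (by omega), map_ofNat, map_mul, map_pow,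
            map_ofNat]
      have hch : ∀ j, Chain (kof (⟨k0, hkL⟩ : L) (ν j)) (ν j) (J1 + m) := by
        intro j
        have h1 := (hchain (J1 + m)).map ((δ ^ j : Ω ≃ₐ[M] Ω) : Ω →+* Ω)
        refine ⟨fun i h h2 => h1.n0 i h ?_, fun i h h2 => h1.n2 i h ?_, fun i h => ?_,
          fun i _ => rfl⟩
        · show (δ ^ j) (ns τ k0 i) = 0
          rw [← νv j i (by omega), h2, map_zero]
        · show (δ ^ j) (ns τ k0 i) ^ 2 = 1
          rw [← νv j i (by omega), ← map_pow, h2, map_one]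
        · apply hinj
          rw [κv j i (by omega), map_mul, map_add, map_inv₀, map_ofNat, νv j i (by omega)]
          exact h1.k1 i h
      have hint : ∀ j, IsIntegral ℤ (kof (⟨k0, hkL⟩ : L) (ν j) (J1 + m)) := by
        intro j
        have h1 : IsIntegral ℤ ((δ ^ j) (kk τ k0 (J1 + m))) :=
          map_isIntegral_int ((δ ^ j : Ω ≃ₐ[M] Ω) : Ω →+* Ω) (kk_int τ hi _)
        rw [← κv j _ le_rfl] at h1
        exact (isIntegral_algebraMap_iff hinj).1 h1
      -- the path
      have halg : ∀ x : Ω, IsAlgebraic ℚ (τ x) := fun x =>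
        (Algebra.IsAlgebraic.isAlgebraic (R := ℚ) x).algHom τ.toRatAlgHom
      have hbig : (2 * 10 ^ 7 * 324 ^ m * 4096 : ℝ) ^ 2 ^ m ≤ ‖τ (ns τ k0 J1)‖ := by
        refine big_enough m (le_trans ?_ (grow_pow τ h0 h4 J (ee m)))
        exact pow_le_pow_left₀ (by norm_num) (hj0 J hJ0) _
      obtain ⟨X, Y, hX, hY, hXY, hXt, hbig2, hsmall⟩ := exists_path2
        (k := fun i => τ (kk τ k0 i)) (n := fun i => τ (ns τ k0 i)) (J := J1) (S := m)
        ((hchain (J1 + 1)).map τ) (fun i => halg _)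
        (fun i => (map_ne_zero τ).2 (ns_ne τ i)) (fun i => halg _)
        (fun i => by
          have := congrArg τ (ns_rel τ (k0 := k0) i)
          simpa only [map_add, map_mul, map_pow, map_one, map_ofNat] using this)
        (fun i => ns_le τ i) hbig
      refine ⟨g, fun x => ?_, ?_⟩
      · apply hinj
        show (((g ^ 2 ^ m) x : L) : Ω) = x
        rw [hgpow, hδpow, ← pow_add]
        exact (memL.1 x.2).2
      refine dom (J := J1 + m) (r := 2 ^ m) hC' (fun h => h0 (congrArg Subtype.val h)) ?_ ?_ ?_ ν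
        hch hint (fun j i hi => ?_)
        (fun l => (τ.comp ((δ ^ (2 ^ m - l) : Ω ≃ₐ[M] Ω) : Ω →+* Ω)).comp (algebraMap L Ω))
        (κ := τ k0) (fun l => ?_) hX hY hXY hXt (B := 2 ^ J1) (by positivity)
        (fun l j hl hj hjl => ?_) (fun l hl => ?_)
      · exact ⟨g.commutes _, g.commutes _, g.commutes _, g.commutes _, g.commutes _⟩
      · exact ⟨gfix (by rw [cu]; exact hMS _ (by rw [hS]; simp)),
          gfix (by rw [cr]; exact hMS _ (by rw [hS]; simp)),
          gfix (by rw [cs]; exact hMS _ (by rw [hS]; simp)),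
          gfix (by rw [ct]; exact hMS _ (by rw [hS]; simp))⟩
      · exact gfix hkM
      · apply hinj
        rw [νv (j + 1) i hi]
        show δ ((ν j i : L) : Ω) = _
        have h1 : ((ν j i : L) : Ω) = (δ ^ j) (ns τ k0 i) := νv j i hi
        rw [h1, ← AlgEquiv.mul_apply, ← pow_succ']
      · show τ ((δ ^ (2 ^ m - l)) k0) = τ k0
        rw [hδfix k0 hkM]
      · have hne : ¬ 2 ^ m ∣ 2 ^ m - l + j := by
          rintro ⟨q, hq⟩
          have hq1 : q = 1 := by
            have h1 : 0 < 2 ^ m * q := by omega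
            have h2 : 2 ^ m * q < 2 ^ m * 2 := by omega
            have h3 := Nat.lt_of_mul_lt_mul_left h2
            have h4 : 0 < q := Nat.pos_of_mul_pos_right h1 |> fun _ => by
              rcases Nat.eq_zero_or_pos q with h | h
              · rw [h] at h1
                omega
              · exact h
            omega
          rw [hq1] at hq
          omega
        obtain ⟨b, hb, hb1, hb2⟩ := hodd (2 ^ m - l + j) (by omega) hne
        have e : rgl (fun i => ((τ.comp ((δ ^ (2 ^ m - l) : Ω ≃ₐ[M] Ω) : Ω →+* Ω)).comp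
            (algebraMap L Ω)) (ν j i)) X Y (J1 + m) =
            rgl (fun i => τ ((δ ^ (2 ^ m - l + j)) (ns τ k0 i))) X Y (J1 + m) := by
          refine rgl_congr fun i hi => ?_
          show τ ((δ ^ (2 ^ m - l)) (algebraMap L Ω (ν j i))) = _
          rw [νv j i hi, pow_add, AlgEquiv.mul_apply]
        rw [e]
        refine hsmall _ (fun i => halg _)
          (fun i => (map_ne_zero τ).2 ((map_ne_zero (δ ^ (2 ^ m - l + j))).2 (ns_ne τ i)))
          (fun i => ?_) b hb (fun i hi => ?_) ?_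
        · have := congrArg (fun x => τ ((δ ^ (2 ^ m - l + j)) x)) (ns_rel τ (k0 := k0) i)
          simpa only [map_add, map_mul, map_pow, map_one, map_ofNat] using this
        · rw [hb1 i hi]
        · rw [hb2, map_inv₀]
      · have e : rgl (fun i => ((τ.comp ((δ ^ (2 ^ m - l) : Ω ≃ₐ[M] Ω) : Ω →+* Ω)).comp
            (algebraMap L Ω)) (ν l i)) X Y (J1 + m) =
            rgl (fun i => τ (ns τ k0 i)) X Y (J1 + m) := by
          refine rgl_congr fun i hi => ?_
          show τ ((δ ^ (2 ^ m - l)) (algebraMap L Ω (ν l i))) = _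
          rw [νv l i hi, ← AlgEquiv.mul_apply, ← pow_add, Nat.sub_add_cancel hl.le, hδm i hi]
        rw [e]
        push_cast
        exact hbig2

end Pool.Agent.Run7.h770.PG
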