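import Pool.Agent.Run7.h770.PG.Main3
import Pool.Agent.Run7.h770.PG.Bk2
set_option autoImplicit false

/-!
Polynomial growth of the rank of the regulator, with a better exponent: the base field is extended
by the lower roots, which gives a rational cyclic subgroup.
-/

namespace Pool.Agent.Run7.h770.PG

open Pool.Agent.W367.KT Pool.Agent.T6.H7.SX

open Pool.Agent.Run7.h770.IJ (crv jk exists_crv map_crv)

open Pool.Agent.Run7.h770.UB

open WeierstrassCurve

open scoped TensorProduct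

theorem Chain.shift {F : Type*} [Field F] {k n : ℕ → F} {I J : ℕ} (h : Chain k n (I + J)) :
    Chain (fun i => k (I + i)) (fun i => n (I + i)) J :=
  ⟨fun i hi => h.n0 (I + i) (by omega), fun i hi => h.n2 (I + i) (by omega),
    fun i hi => h.k1 (I + i) (by omega), fun i hi => h.k2 (I + i) (by omega)⟩

section tower

set_option linter.unusedSectionVars false

variable (K : Type*) [Field K] [NumberField K] {Ω : Type*} [Field Ω] [CharZero Ω]
  [IsAlgClosure ℚ Ω] [Algebra K Ω] [Algebra.IsAlgebraic K Ω] (τ : Ω →+* ℂ)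

variable {S : Set Ω} {k0 : Ω}

theorem LJ_kk (hk : k0 ∈ S) (J : ℕ) : kk τ k0 J ∈ LJ K τ S k0 J := by
  cases J with
  | zero => exact LJ_left K τ hk
  | succ J =>
    rw [kk_succ]
    have h1 : ns τ k0 J ∈ LJ K τ S k0 (J + 1) := LJ_ns K τ (Nat.lt_succ_self J)
    have h2 : (4 : Ω) ∈ LJ K τ S k0 (J + 1) := by simp
    exact mul_mem h2 (pow_mem h1 2)

/-- Every root is at most quadratic. -/
theorem LJ_succ_deg (hfin : S.Finite) (hk : k0 ∈ S) (J : ℕ) :
    Module.finrank K (LJ K τ S k0 (J + 1)) ≤ Module.finrank K (LJ K τ S k0 J) * 2 := by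
  set M := LJ K τ S k0 J with hM
  have _ : FiniteDimensional K M := LJ_fd K τ hfin J
  set κ : M := ⟨kk τ k0 J, LJ_kk K τ hk J⟩ with hκ
  set x := ns τ k0 J with hx
  have hint : IsIntegral M x := by
    have h1 : IsIntegral K x := (Algebra.IsAlgebraic.isAlgebraic x).isIntegral
    exact h1.tower_top
  set N := IntermediateField.adjoin M {x} with hN
  have hNf : FiniteDimensional M N := IntermediateField.adjoin.finiteDimensional hint
  have hNf' : FiniteDimensional K N := Module.Finite.trans M N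
  have hdeg : Module.finrank M N ≤ 2 := by
    rw [hN, IntermediateField.adjoin.finrank hint]
    set p : Polynomial M := Polynomial.C 1 * Polynomial.X ^ 2 + Polynomial.C (-(κ / 2)) *
      Polynomial.X + Polynomial.C 1 with hp
    have hpd : p.natDegree = 2 := Polynomial.natDegree_quadratic one_ne_zero
    have hp0 : p ≠ 0 := by
      intro h
      rw [h, Polynomial.natDegree_zero] at hpd
      omega
    have hroot : Polynomial.aeval x p = 0 := by
      rw [hp]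
      simp only [map_add, map_mul, Polynomial.aeval_C, Polynomial.aeval_X, map_pow, map_one,
        map_neg, map_div₀, map_ofNat]
      have h1 := ns_eq τ (k0 := k0) J
      have h2 : algebraMap M Ω κ = kk τ k0 J := rfl
      rw [h2]
      rw [← hx] at h1
      linear_combination (1 / 2) * h1
    rw [← hpd]
    exact Polynomial.natDegree_le_of_dvd (minpoly.dvd M x hroot) hp0
  have hle : LJ K τ S k0 (J + 1) ≤ N.restrictScalars K := by
    refine IntermediateField.adjoin_le_iff.2 ?_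
    rintro y (hy | ⟨i, hi, rfl⟩)
    · exact N.algebraMap_mem ⟨y, LJ_left K τ hy⟩
    · rcases Nat.lt_succ_iff_lt_or_eq.1 hi with h1 | h1
      · exact N.algebraMap_mem ⟨_, LJ_ns K τ h1⟩
      · rw [h1]
        exact IntermediateField.mem_adjoin_simple_self M x
  have hfd : FiniteDimensional K (N.restrictScalars K) := hNf'
  have h3 : Module.finrank K (LJ K τ S k0 (J + 1)) ≤ Module.finrank K (N.restrictScalars K) :=
    LinearMap.finrank_le_finrank_of_injective
      (f := (IntermediateField.inclusion hle).toLinearMap)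
      (IntermediateField.inclusion hle).toRingHom.injective
  have h4 : Module.finrank K (N.restrictScalars K) = Module.finrank K N := rfl
  have h5 : Module.finrank K M * Module.finrank M N = Module.finrank K N :=
    Module.finrank_mul_finrank K M N
  rw [h4, ← h5] at h3
  exact h3.trans (Nat.mul_le_mul_left _ hdeg)

theorem LJ_deg (hfin : S.Finite) (hk : k0 ∈ S) (J a : ℕ) :
    Module.finrank K (LJ K τ S k0 (J + a)) ≤ Module.finrank K (LJ K τ S k0 J) * 2 ^ a := by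
  induction a with
  | zero => simp
  | succ a ih =>
    have h1 := LJ_succ_deg K τ hfin hk (J + a)
    calc Module.finrank K (LJ K τ S k0 (J + (a + 1)))
        ≤ Module.finrank K (LJ K τ S k0 (J + a)) * 2 := h1
      _ ≤ (Module.finrank K (LJ K τ S k0 J) * 2 ^ a) * 2 := Nat.mul_le_mul_right _ ih
      _ = _ := by rw [pow_succ, mul_assoc]

/-- All the following steps of the tower are proper. -/
theorem proper_all (h0 : k0 ≠ 0) (h4 : k0 ^ 2 ≠ 16) {I : Ω} (hI : I ^ 2 = -1) (hIS : I ∈ S) {J : ℕ}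
    (γ : Ω ≃ₐ[LJ K τ S k0 J] Ω) (hγ : γ (ns τ k0 J) = (ns τ k0 J)⁻¹) (a : ℕ) :
    ns τ k0 (J + a) ∉ LJ K τ S k0 (J + a) := by
  have hγI : γ I = I := γ.commutes ⟨I, LJ_left K τ hIS⟩
  have hγlow : ∀ i, i < J → γ (ns τ k0 i) = ns τ k0 i := fun i hi =>
    γ.commutes ⟨_, LJ_ns K τ hi⟩
  obtain ⟨-, h1, h2⟩ := flip γ hI hγI (fun i => ns_ne τ (k0 := k0) i)
    (fun i => ns_rel τ (k0 := k0) i) hγlow hγ a
  intro hmem
  set δ : Ω ≃ₐ[K] Ω := AlgEquiv.restrictScalars K (γ ^ 2 ^ a) with hδ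
  have hle : LJ K τ S k0 (J + a) ≤ fixd δ := by
    refine IntermediateField.adjoin_le_iff.2 ?_
    rintro y (hy | ⟨i, hi, rfl⟩)
    · exact mem_fixd.2 ((γ ^ 2 ^ a).commutes ⟨y, LJ_left K τ hy⟩)
    · exact mem_fixd.2 (h1 i hi)
  have h3 : δ (ns τ k0 (J + a)) = ns τ k0 (J + a) := mem_fixd.1 (hle hmem)
  change (γ ^ 2 ^ a) (ns τ k0 (J + a)) = ns τ k0 (J + a) at h3
  rw [h2] at h3
  have h5 : ns τ k0 (J + a) ^ 2 = 1 := by
    have h6 := ns_ne τ (k0 := k0) (J + a)
    have h7 : (ns τ k0 (J + a))⁻¹ * ns τ k0 (J + a) = 1 := inv_mul_cancel₀ h6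
    rw [h3] at h7
    rw [sq]
    exact h7
  exact ns_sq τ h0 h4 _ h5

end tower

theorem deg_est4 (D m : ℕ) : D * 2 ^ ee m * 8 ^ (m + 1) ≤ D * 128 * (m + 1) * 16 ^ m := by
  have h1 : 2 ^ Nat.log 2 (m + 1) ≤ m + 1 := Nat.pow_log_le_self 2 (by omega)
  have e1 : 2 ^ ee m * 8 ^ (m + 1) = 2 ^ Nat.log 2 (m + 1) * (128 * 16 ^ m) := by
    unfold ee
    rw [show (16 : ℕ) = 2 * 8 by norm_num, mul_pow 2 8 m, pow_succ 8 m,
      show m + (Nat.log 2 (m + 1) + 1) + 3 = m + Nat.log 2 (m + 1) + 4 by ring, pow_add, pow_add]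
    ring
  calc D * 2 ^ ee m * 8 ^ (m + 1) = D * (2 ^ Nat.log 2 (m + 1) * (128 * 16 ^ m)) := by
        rw [mul_assoc, e1]
    _ ≤ D * ((m + 1) * (128 * 16 ^ m)) := Nat.mul_le_mul_left _ (Nat.mul_le_mul_right _ h1)
    _ = D * 128 * (m + 1) * 16 ^ m := by ring

/-- The classes over the fields of torsion points of the isogenous curves. -/
theorem grow_reg4 {K : Type*} [Field K] [NumberField K] {Ω : Type*} [Field Ω] [CharZero Ω]
    [Algebra K Ω] [IsAlgClosure K Ω] (E : WeierstrassCurve K) {k0 : Ω} (h0 : k0 ≠ 0)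
    (h4 : k0 ^ 2 ≠ 16) (hi : IsIntegral ℤ k0) (C : VariableChange Ω)
    (hC : C • E.map (algebraMap K Ω) = crv k0) :
    ∃ c : ℕ, ∀ m : ℕ, ∃ L : IntermediateField K Ω,
      FiniteDimensional K L ∧ Module.finrank K L ≤ c * (m + 1) * 16 ^ m ∧
        ∃ g : L →ₐ[K] L, (∀ x : L, (g ^ 2 ^ m) x = x) ∧
          RegOrbit (E.map (algebraMap K L)) (g : L →+* L) (2 ^ m) := by
  classical
  have _ : IsAlgClosure ℚ Ω := isAlgClosure_rat K
  have _ : Algebra.IsAlgebraic ℚ Ω := IsAlgClosure.isAlgebraic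
  have _ : Algebra.IsAlgebraic K Ω := IsAlgClosure.isAlgebraic
  have _ : IsAlgClosed Ω := IsAlgClosure.isAlgClosed ℚ
  have τ : Ω →+* ℂ := (IsAlgClosed.lift (R := ℚ) (S := Ω) (M := ℂ)).toRingHom
  obtain ⟨j0, hj0⟩ := exists_large τ h0 h4 100
  obtain ⟨I, hI⟩ := IsAlgClosed.exists_pow_nat_eq (-1 : Ω) (n := 2) (by norm_num)
  set S : Set Ω := {k0, (C.u : Ω), C.r, C.s, C.t, I} with hS
  have hfin : S.Finite := Set.toFinite _
  obtain ⟨J, hJ0, hprop⟩ := exists_properK K τ h0 h4 hi hfin j0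
  have hkS : k0 ∈ S := by rw [hS]; simp
  have hIS : I ∈ S := by rw [hS]; simp
  obtain ⟨γ, hγ⟩ : ∃ g : Ω ≃ₐ[LJ K τ S k0 J] Ω, g (ns τ k0 J) = (ns τ k0 J)⁻¹ :=
    exists_conjK K τ hkS hprop
  have hall := proper_all K τ h0 h4 hI hIS γ hγ
  refine ⟨Module.finrank K (LJ K τ S k0 J) * 128, fun m => ?_⟩
  set J1 : ℕ := J + ee m with hJ1
  have hmJ1 : m ≤ J1 := by
    rw [hJ1]
    unfold ee
    omega
  set M := LJ K τ S k0 J1 with hM
  obtain ⟨δ, hδ⟩ : ∃ g : Ω ≃ₐ[M] Ω, g (ns τ k0 J1) = (ns τ k0 J1)⁻¹ :=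
    exists_conjK K τ hkS (hall (ee m))
  have hMfd : FiniteDimensional K M := LJ_fd K τ hfin J1
  have hMS : ∀ x ∈ S, x ∈ M := fun x hx => LJ_left K τ hx
  have hMns : ∀ i, i < J1 → ns τ k0 i ∈ M := fun i hi => LJ_ns K τ hi
  have _ : Algebra.IsAlgebraic M Ω := Algebra.IsAlgebraic.tower_top (K := K) M
  have hkM : k0 ∈ M := hMS _ hkS
  set κ : M := ⟨kk τ k0 J1, LJ_kk K τ hkS J1⟩ with hκ
  set W : WeierstrassCurve.Affine M := crv κ with hW
  have hκΩ : algebraMap M Ω κ = kk τ k0 J1 := rfl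
  obtain ⟨hκ0, hκ4⟩ := kk_good τ h0 h4 J1
  obtain ⟨t1, t2⟩ := tor_one (V := WeierstrassCurve.Affine.baseChange W Ω) (k := kk τ k0 J1)
    (VV_eq κ) two_ne_zero
  have hfix : ∀ x ∈ M, ∀ j : ℕ, (δ ^ j) x = x := fun x hx j => (δ ^ j).commutes ⟨x, hx⟩
  have hδI : δ I = I := δ.commutes ⟨I, hMS _ hIS⟩
  have hδlow : ∀ i, i < J1 → δ (ns τ k0 i) = ns τ k0 i := fun i hi =>
    δ.commutes ⟨_, LJ_ns K τ hi⟩
  have hflip := flip δ hI hδI (fun i => ns_ne τ (k0 := k0) i) (fun i => ns_rel τ (k0 := k0) i)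
    hδlow hδ
  have hchain := fun J => chain τ h0 h4 J
  have hroot := root_mem (W := W) (Ω := Ω) (κ := κ) hκ0 hκ4 rfl
    (k := fun i => kk τ k0 (J1 + i)) (n := fun i => ns τ k0 (J1 + i)) rfl
    (fun J => Chain.shift (hchain (J1 + J))) (fun i => pow_four_ne τ h0 h4 (J1 + i))
  -- the degree
  have hdeg8 : Module.finrank M (TF W Ω (m + 1)) ≤ 8 ^ (m + 1) := by
    have hn0 : ∀ l, l < J1 → ns τ k0 l ≠ 0 := fun l _ => ns_ne τ l
    obtain ⟨X0, hX0⟩ := BB_nonempty (n := ns τ k0) m J1 hmJ1 two_ne_zero hn0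
    obtain ⟨hBf, hBc⟩ := BB_card (n := ns τ k0) m J1 hn0 two_ne_zero
    refine TF_deg8 (W := W) (κ := κ) (m := m) hκ0 hκ4 rfl hBf hBc (fun g X hX => ?_) hX0
      (BB_RR two_ne_zero (hchain J1) m J1 le_rfl X0 hX0) (c := -ns τ k0 J1 ^ 2)
      (neg_ne_zero.2 (pow_ne_zero 2 (ns_ne τ J1))) ?_
    · exact BB_stable (g : Ω →+* Ω) m J1 (fun l hl => g.commutes ⟨_, hMns l hl⟩) X hX
    · have h1 := (hchain (J1 + 1)).k1 J1 (by omega)
      rw [hκΩ, h1]
      exact Mk_end two_ne_zero (ns_ne τ J1)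
  set δK : Ω ≃ₐ[K] Ω := AlgEquiv.restrictScalars K δ with hδK
  have hpow : ∀ (j : ℕ) (x : Ω), (δK ^ j) x = (δ ^ j) x := by
    intro j
    induction j with
    | zero => intro x; rfl
    | succ j ih =>
      intro x
      rw [pow_succ, pow_succ, AlgEquiv.mul_apply, AlgEquiv.mul_apply, ih]
      rfl
  set L : IntermediateField K Ω := (TF W Ω (m + 1)).restrictScalars K ⊓ fixd (δK ^ 2 ^ m) with hL
  have memL : ∀ {x : Ω}, x ∈ L ↔ x ∈ TF W Ω (m + 1) ∧ (δ ^ 2 ^ m) x = x := by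
    intro x
    rw [← hpow, ← mem_fixd]
    exact Iff.rfl
  have hstab : ∀ {x : Ω} (q : ℕ), x ∈ L → (δ ^ q) x ∈ L := by
    intro x q hx
    obtain ⟨h1, h2⟩ := memL.1 hx
    refine memL.2 ⟨TF_stable ((δ ^ q : Ω ≃ₐ[M] Ω) : Ω →ₐ[M] Ω) h1, ?_⟩
    rw [← AlgEquiv.mul_apply, ← pow_add, add_comm, pow_add, AlgEquiv.mul_apply, h2]
  have hfd1 : FiniteDimensional M (TF W Ω (m + 1)) := TF_fd (tor_card t1 t2 (m + 1)).1
  have hfd2 : FiniteDimensional K (TF W Ω (m + 1)) := Module.Finite.trans M _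
  have hfd3 : FiniteDimensional K ((TF W Ω (m + 1)).restrictScalars K) := hfd2
  have hle : L ≤ (TF W Ω (m + 1)).restrictScalars K := inf_le_left
  have hfd4 : FiniteDimensional K L :=
    Module.Finite.of_injective (IntermediateField.inclusion hle).toLinearMap
      (IntermediateField.inclusion hle).toRingHom.injective
  refine ⟨L, hfd4, ?_, ?_⟩
  · have h1 : Module.finrank K M * Module.finrank M (TF W Ω (m + 1)) =
        Module.finrank K (TF W Ω (m + 1)) := Module.finrank_mul_finrank K M _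
    have h2 : Module.finrank K ((TF W Ω (m + 1)).restrictScalars K) =
        Module.finrank K (TF W Ω (m + 1)) := rfl
    have h3 : Module.finrank K L ≤ Module.finrank K ((TF W Ω (m + 1)).restrictScalars K) :=
      LinearMap.finrank_le_finrank_of_injective
        (f := (IntermediateField.inclusion hle).toLinearMap)
        (IntermediateField.inclusion hle).toRingHom.injective
    refine h3.trans ?_
    rw [h2, ← h1]
    refine (Nat.mul_le_mul (LJ_deg K τ hfin hkS J (ee m)) hdeg8).trans ?_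
    exact deg_est4 _ _
  have _ : FiniteDimensional ℚ L := Module.Finite.trans K L
  have _ : NumberField L := ⟨⟩
  have hLM : ∀ x ∈ M, x ∈ L := fun x hx =>
    memL.2 ⟨(TF W Ω (m + 1)).algebraMap_mem ⟨x, hx⟩, hfix x hx _⟩
  have hkL : k0 ∈ L := hLM _ hkM
  have hLS : ∀ x ∈ S, x ∈ L := fun x hx => hLM _ (hMS x hx)
  obtain ⟨C', hC', cu, cr, cs, ct⟩ := descend2 L E ⟨k0, hkL⟩ C (hLS _ (by rw [hS]; simp))
    (hLS _ (by rw [hS]; simp)) (hLS _ (by rw [hS]; simp)) (hLS _ (by rw [hS]; simp)) hC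
  have hδ2 : ∀ b : ℕ, (∀ i, i < J1 + b → (δ ^ 2 ^ b) (ns τ k0 i) = ns τ k0 i) ∧
      (δ ^ 2 ^ b) (ns τ k0 (J1 + b)) = (ns τ k0 (J1 + b))⁻¹ := fun b => (hflip b).2
  have hδm : ∀ i, i < J1 + m → (δ ^ 2 ^ m) (ns τ k0 i) = ns τ k0 i := (hδ2 m).1
  have hodd : ∀ k : ℕ, k ≠ 0 → ¬ 2 ^ m ∣ k → ∃ b, b < m ∧
      (∀ i, i < J1 + b → (δ ^ k) (ns τ k0 i) = ns τ k0 i) ∧
      (δ ^ k) (ns τ k0 (J1 + b)) = (ns τ k0 (J1 + b))⁻¹ := by
    intro k hk hdk
    obtain ⟨b, q, hq, hkq⟩ := Nat.exists_eq_two_pow_mul_odd hk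
    obtain ⟨q', hq'⟩ := hq
    refine ⟨b, ?_, ?_, ?_⟩
    · by_contra hcon
      push Not at hcon
      exact hdk (hkq ▸ (pow_dvd_pow 2 hcon).mul_right q)
    · intro i hi
      rw [hkq, pow_mul]
      exact pow_fix ((hδ2 b).1 i hi) q
    · rw [hkq, pow_mul, hq']
      exact odd_flip (hδ2 b).2 q'
  set g : L →ₐ[K] L := ((((AlgEquiv.restrictScalars K δ : Ω ≃ₐ[K] Ω) : Ω →ₐ[K] Ω).comp
    L.val).codRestrict L.toSubalgebra fun x => by
      have := hstab 1 x.2
      rw [pow_one] at this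
      exact this) with hg
  have hgv : ∀ x : L, ((g x : L) : Ω) = δ x := fun x => rfl
  have hgpow : ∀ (q : ℕ) (x : L), (((g ^ q) x : L) : Ω) = (δ ^ q) x := by
    intro q
    induction q with
    | zero => intro x; rfl
    | succ q ih =>
      intro x
      rw [pow_succ, pow_succ, AlgHom.mul_apply, AlgEquiv.mul_apply, ih, hgv]
  have hinj : Function.Injective (algebraMap L Ω) := (algebraMap L Ω).injective
  have gfix : ∀ {x : L}, (x : Ω) ∈ M → g x = x := by
    intro x hx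
    apply hinj
    show ((g x : L) : Ω) = x
    rw [hgv]
    have := hfix _ hx 1
    rwa [pow_one] at this
  have hmem : ∀ j i, i < J1 + m → (δ ^ j) (ns τ k0 i) ∈ L := by
    intro j i hi
    refine hstab j (memL.2 ⟨?_, hδm i hi⟩)
    by_cases hlt : i < J1
    · exact (TF W Ω (m + 1)).algebraMap_mem ⟨_, hMns i hlt⟩
    · obtain ⟨l, rfl⟩ := Nat.exists_eq_add_of_le (not_lt.1 hlt)
      exact TF_mono (W := W) (by omega) (hroot l)
  set ν : ℕ → ℕ → L := fun j i => if h : i < J1 + m then ⟨(δ ^ j) (ns τ k0 i), hmem j i h⟩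
    else 1 with hν
  have νv : ∀ j i, i < J1 + m → algebraMap L Ω (ν j i) = (δ ^ j) (ns τ k0 i) := by
    intro j i h
    rw [hν]
    simp only [h, dif_pos]
    rfl
  have κv : ∀ j i, i ≤ J1 + m → algebraMap L Ω (kof (⟨k0, hkL⟩ : L) (ν j) i) =
      (δ ^ j) (kk τ k0 i) := by
    intro j i h
    cases i with
    | zero => exact (hfix k0 hkM j).symm
    | succ i =>
      show algebraMap L Ω (4 * ν j i ^ 2) = _
      rw [kk_succ, map_mul, map_pow, νv j i (by omega), map_ofNat, map_mul, map_pow,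
        map_ofNat]
  have hch : ∀ j, Chain (kof (⟨k0, hkL⟩ : L) (ν j)) (ν j) (J1 + m) := by
    intro j
    have h1 := (hchain (J1 + m)).map ((δ ^ j : Ω ≃ₐ[M] Ω) : Ω →+* Ω)
    refine ⟨fun i h h2 => h1.n0 i h ?_, fun i h h2 => h1.n2 i h ?_, fun i h => ?_,
      fun i _ => rfl⟩
    · show (δ ^ j) (ns τ k0 i) = 0
      rw [← νv j i (by omega), h2, map_zero]
    · show (δ ^ j) (ns τ k0 i) ^ 2 = 1
      rw [← νv j i (by omega), ← map_pow, h2, map_one]
    · apply hinj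
      rw [κv j i (by omega), map_mul, map_add, map_inv₀, map_ofNat, νv j i (by omega)]
      exact h1.k1 i h
  have hint : ∀ j, IsIntegral ℤ (kof (⟨k0, hkL⟩ : L) (ν j) (J1 + m)) := by
    intro j
    have h1 : IsIntegral ℤ ((δ ^ j) (kk τ k0 (J1 + m))) :=
      map_isIntegral_int ((δ ^ j : Ω ≃ₐ[M] Ω) : Ω →+* Ω) (kk_int τ hi _)
    rw [← κv j _ le_rfl] at h1
    exact (isIntegral_algebraMap_iff hinj).1 h1
  -- the path
  have halg : ∀ x : Ω, IsAlgebraic ℚ (τ x) := fun x =>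
    (Algebra.IsAlgebraic.isAlgebraic (R := ℚ) x).algHom τ.toRatAlgHom
  have hbig : (2 * 10 ^ 7 * 324 ^ m * 4096 : ℝ) ^ 2 ^ m ≤ ‖τ (ns τ k0 J1)‖ := by
    refine big_enough m (le_trans ?_ (grow_pow τ h0 h4 J (ee m)))
    exact pow_le_pow_left₀ (by norm_num) (hj0 J hJ0) _
  obtain ⟨X, Y, hX, hY, hXY, hXt, hbig2, hsmall⟩ := exists_path2
    (k := fun i => τ (kk τ k0 i)) (n := fun i => τ (ns τ k0 i)) (J := J1) (S := m)
    ((hchain (J1 + 1)).map τ) (fun i => halg _)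
    (fun i => (map_ne_zero τ).2 (ns_ne τ i)) (fun i => halg _)
    (fun i => by
      have := congrArg τ (ns_rel τ (k0 := k0) i)
      simpa only [map_add, map_mul, map_pow, map_one, map_ofNat] using this)
    (fun i => ns_le τ i) hbig
  refine ⟨g, fun x => ?_, ?_⟩
  · apply hinj
    show (((g ^ 2 ^ m) x : L) : Ω) = x
    rw [hgpow]
    exact (memL.1 x.2).2
  refine dom (J := J1 + m) (r := 2 ^ m) hC' (fun h => h0 (congrArg Subtype.val h)) ?_ ?_ ?_ ν
    hch hint (fun j i hi => ?_)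
    (fun l => (τ.comp ((δ ^ (2 ^ m - l) : Ω ≃ₐ[M] Ω) : Ω →+* Ω)).comp (algebraMap L Ω))
    (κ := τ k0) (fun l => ?_) hX hY hXY hXt (B := 2 ^ J1) (by positivity)
    (fun l j hl hj hjl => ?_) (fun l hl => ?_)
  · exact ⟨g.commutes _, g.commutes _, g.commutes _, g.commutes _, g.commutes _⟩
  · exact ⟨gfix (by rw [cu]; exact hMS _ (by rw [hS]; simp)),
      gfix (by rw [cr]; exact hMS _ (by rw [hS]; simp)),
      gfix (by rw [cs]; exact hMS _ (by rw [hS]; simp)),
      gfix (by rw [ct]; exact hMS _ (by rw [hS]; simp))⟩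
  · exact gfix hkM
  · apply hinj
    rw [νv (j + 1) i hi]
    show δ ((ν j i : L) : Ω) = _
    have h1 : ((ν j i : L) : Ω) = (δ ^ j) (ns τ k0 i) := νv j i hi
    rw [h1, ← AlgEquiv.mul_apply, ← pow_succ']
  · show τ ((δ ^ (2 ^ m - l)) k0) = τ k0
    rw [hfix k0 hkM]
  · have hne : ¬ 2 ^ m ∣ 2 ^ m - l + j := by
      rintro ⟨q, hq⟩
      have hq1 : q = 1 := by
        have h1 : 0 < 2 ^ m * q := by omega
        have h2 : 2 ^ m * q < 2 ^ m * 2 := by omega
        have h3 := Nat.lt_of_mul_lt_mul_left h2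
        have h4 : 0 < q := Nat.pos_of_mul_pos_right h1 |> fun _ => by
          rcases Nat.eq_zero_or_pos q with h | h
          · rw [h] at h1
            omega
          · exact h
        omega
      rw [hq1] at hq
      omega
    obtain ⟨b, hb, hb1, hb2⟩ := hodd (2 ^ m - l + j) (by omega) hne
    have e : rgl (fun i => ((τ.comp ((δ ^ (2 ^ m - l) : Ω ≃ₐ[M] Ω) : Ω →+* Ω)).comp
        (algebraMap L Ω)) (ν j i)) X Y (J1 + m) =
        rgl (fun i => τ ((δ ^ (2 ^ m - l + j)) (ns τ k0 i))) X Y (J1 + m) := by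
      refine rgl_congr fun i hi => ?_
      show τ ((δ ^ (2 ^ m - l)) (algebraMap L Ω (ν j i))) = _
      rw [νv j i hi, pow_add, AlgEquiv.mul_apply]
    rw [e]
    refine hsmall _ (fun i => halg _)
      (fun i => (map_ne_zero τ).2 ((map_ne_zero (δ ^ (2 ^ m - l + j))).2 (ns_ne τ i)))
      (fun i => ?_) b hb (fun i hi => ?_) ?_
    · have := congrArg (fun x => τ ((δ ^ (2 ^ m - l + j)) x)) (ns_rel τ (k0 := k0) i)
      simpa only [map_add, map_mul, map_pow, map_one, map_ofNat] using this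
    · rw [hb1 i hi]
    · rw [hb2, map_inv₀]
  · have e : rgl (fun i => ((τ.comp ((δ ^ (2 ^ m - l) : Ω ≃ₐ[M] Ω) : Ω →+* Ω)).comp
        (algebraMap L Ω)) (ν l i)) X Y (J1 + m) =
        rgl (fun i => τ (ns τ k0 i)) X Y (J1 + m) := by
      refine rgl_congr fun i hi => ?_
      show τ ((δ ^ (2 ^ m - l)) (algebraMap L Ω (ν l i))) = _
      rw [νv l i hi, ← AlgEquiv.mul_apply, ← pow_add, Nat.sub_add_cancel hl.le, hδm i hi]
    rw [e]
    push_cast
    exact hbig2

end Pool.Agent.Run7.h770.PG
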