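import Pool.Agent.Run7.h770.PG.Main5
set_option autoImplicit false

/-!
The constant can be chosen for all the complex embeddings of the ground field.
-/

namespace Pool.Agent.Run7.h770.PG

open Pool.Agent.W367.KT Pool.Agent.T6.H7.SX

open Pool.Agent.Run7.h770.IJ (crv)

open WeierstrassCurve

open scoped TensorProduct

theorem grow_all {K : Type*} [Field K] [NumberField K] {Ω : Type*} [Field Ω] [CharZero Ω]
    [Algebra K Ω] [IsAlgClosure K Ω] (E : WeierstrassCurve K) {k0 : Ω} (h0 : k0 ≠ 0)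
    (h4 : k0 ^ 2 ≠ 16) (hi : IsIntegral ℤ k0) (C : VariableChange Ω)
    (hC : C • E.map (algebraMap K Ω) = crv k0) :
    ∃ c : ℕ, ∀ (σ : K →+* ℂ) (m : ℕ), ∃ L : IntermediateField K Ω,
      FiniteDimensional K L ∧ Module.finrank K L ≤ c * (m + 1) * 16 ^ m ∧
        ∃ g : L →ₐ[K] L, (∀ x : L, (g ^ 2 ^ m) x = x) ∧
          RegAt (E.map (algebraMap K L)) (g : L →+* L) (2 ^ m)
            {σ' | ∀ c : K, σ' (algebraMap K L c) = σ c} := by
  classical
  have _ : Algebra.IsAlgebraic K Ω := IsAlgClosure.isAlgebraic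
  have hτ : ∀ σ : K →+* ℂ, ∃ τ : Ω →+* ℂ, ∀ c, τ (algebraMap K Ω c) = σ c := by
    intro σ
    let _ : Algebra K ℂ := σ.toAlgebra
    refine ⟨(IsAlgClosed.lift (R := K) (S := Ω) (M := ℂ)).toRingHom, fun c => ?_⟩
    exact (IsAlgClosed.lift (R := K) (S := Ω) (M := ℂ)).commutes c
  choose τ hτ using hτ
  choose c hc using fun σ : K →+* ℂ => grow_reg5 E h0 h4 hi C hC (τ σ)
  refine ⟨∑ σ, c σ, fun σ m => ?_⟩
  obtain ⟨L, a1, a2, g, a3, a4⟩ := hc σ m
  refine ⟨L, a1, a2.trans ?_, g, a3, ?_⟩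
  · refine Nat.mul_le_mul_right _ (Nat.mul_le_mul_right _ ?_)
    exact Finset.single_le_sum (f := c) (fun _ _ => Nat.zero_le _) (Finset.mem_univ σ)
  · have e : {σ' : L →+* ℂ | ∀ c : K, σ' (algebraMap K L c) = τ σ (algebraMap K Ω c)} =
        {σ' | ∀ c : K, σ' (algebraMap K L c) = σ c} := by
      ext σ'
      simp only [Set.mem_ofPred_eq, hτ]
    rw [← e]
    exact a4

end Pool.Agent.Run7.h770.PG
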