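import Pool.Agent.Run7.h770.PG.Pair
import Pool.Agent.Run7.h770.PG.Lin
import Pool.Agent.Run7.h770.UB.Main
set_option autoImplicit false

/-!
Linear independence of conjugate classes.
-/

namespace Pool.Agent.Run7.h770.PG

open Pool.Agent.W367.KT Pool.Agent.T6.H7.SX

open Pool.Agent.Run7.h770.IJ (crv)

open Pool.Agent.Run7.h770.UB

open WeierstrassCurve

open scoped TensorProduct

/-- the parameters of the curves -/
def kof {L : Type*} [Field L] (k0 : L) (ν : ℕ → L) : ℕ → L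
  | 0 => k0
  | i + 1 => 4 * ν i ^ 2

variable {L : Type*} [Field L] [NumberField L] {W : WeierstrassCurve L} {C : VariableChange L}
  {k0 : L}

theorem many (hC : C • W = crv k0) (hk : k0 ≠ 0) {J a : ℕ} (ν : ℕ → ℕ → L)
    (hc : ∀ j, Chain (kof k0 (ν j)) (ν j) (J + 1))
    (hint : ∀ j, IsIntegral ℤ (kof k0 (ν j) (J + 1))) (σ : ℕ → (L →+* ℂ)) {κ : ℂ}
    (hσ : ∀ l, σ l k0 = κ) (N : ℕ → ℕ → ℂ) (hN : ∀ l j i, i ≤ J → σ l (ν j i) = N (l + j) i)
    (hper : ∀ j i, i ≤ J → N (j + 2 ^ (a + 1)) i = N j i)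
    (hlow : ∀ i, i < J → N (2 ^ a) i = N 0 i) (htop : N (2 ^ a) J = (N 0 J)⁻¹)
    (hbig : 100 ≤ ‖N 0 J‖) :
    ∃ α : Fin (2 ^ a) → ℚ ⊗[ℤ] K2 W.toAffine.FunctionField,
      (∀ j, α j ∈ H2MZ W.toAffine.FunctionField) ∧ LinearIndependent ℚ α := by
  have hc0 := (hc 0).map (σ 0)
  have halg : ∀ c : L, IsAlgebraic ℚ (σ 0 c) := fun c => algebraic_sigma' (σ 0) c
  have hbig' : 100 ≤ ‖σ 0 (ν 0 J)‖ := by
    rw [hN 0 0 J le_rfl]
    exact hbig
  obtain ⟨X, Y, hX, hY, hS, hXt, hsep⟩ := exists_path hc0 (fun _ => halg _) (fun _ => halg _) hbig'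
  have hS' : ∀ t, Sm κ (X t) (Y t) := by
    intro t
    have h1 := hS t
    have h2 : σ 0 (kof k0 (ν 0) 0) = κ := hσ 0
    rwa [h2] at h1
  choose lp g1 vx vy using fun l => exists_lp hC hk hX hY hS' hXt (σ l) (hσ l)
  have hgood := fun j => xi_good hC hk hX hY hS' hXt (σ 0) (hσ 0) (hc j) rfl (le_refl (J + 1))
  set α : ℕ → ℚ ⊗[ℤ] K2 W.toAffine.FunctionField := fun j =>
    cls W C (kof k0 (ν j)) (ν j) (J + 1) with hα
  have hmem : ∀ j, α j ∈ H2MZ W.toAffine.FunctionField := by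
    intro j
    obtain ⟨a1, a2, a3⟩ := hgood j
    exact cls_mem W C (kof k0 (ν j)) (ν j) a1 a2 a3 (hint j)
  set ρ : ℕ → ℝ := fun j => rgl (N j) X Y (J + 1) with hρ
  have hreg : ∀ l j, (lp l).regQ (α j) = ρ (j + l) := by
    intro l j
    obtain ⟨a1, a2, a3⟩ := hgood j
    have h1 := regQ_cls W C (kof k0 (ν j)) (ν j) (lp l) (i := J + 1) a1 a2
    rw [hα]
    refine h1.trans ?_
    have e1 : (fun t => (lp l).e t (xi W C (ν j) (J + 1))) =
        fun t => it (fun i => σ l (ν j i)) (X t) (J + 1) := by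
      funext t
      exact vx l (ν j) t (J + 1)
    have e2 : (fun t => (lp l).e t (yi W C (kof k0 (ν j) 0) (ν j) (J + 1))) =
        fun t => it (fun i => σ l (ν j i)) (Y t) (J + 1) := by
      funext t
      exact vy l (ν j) t (J + 1)
    rw [e1, e2]
    show rgl (fun i => σ l (ν j i)) X Y (J + 1) = rgl (N (j + l)) X Y (J + 1)
    refine rgl_congr fun i hi => ?_
    rw [hN l j i (by omega), add_comm l j]
  have hρper : ∀ j, ρ (j + 2 ^ (a + 1)) = ρ j := fun j =>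
    rgl_congr fun i hi => hper j i (by omega)
  have hρne : ∃ j, ρ (j + 2 ^ a) ≠ ρ j := by
    refine ⟨0, fun h => ?_⟩
    rw [zero_add] at h
    refine hsep (N (2 ^ a)) (fun i hi => ?_) ?_ ?_
    · rw [hlow i hi, ← hN 0 0 i hi.le]
    · rw [htop, ← hN 0 0 J le_rfl]
    · have h2 : rgl (fun i => σ 0 (ν 0 i)) X Y (J + 1) = ρ 0 :=
        rgl_congr fun i hi => hN 0 0 i (by omega)
      exact h2.trans h.symm
  refine ⟨fun j => α j, fun j => hmem j, ?_⟩
  rw [Fintype.linearIndependent_iff]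
  intro c hc'
  set c' : ℕ → ℚ := fun j => if h : j < 2 ^ a then c ⟨j, h⟩ else 0 with hc'def
  have hsum : ∀ l, ∑ j ∈ Finset.range (2 ^ a), (c' j : ℝ) * ρ (j + l) = 0 := by
    intro l
    have h1 := congrArg (lp l).regQ hc'
    rw [map_sum, map_zero] at h1
    rw [Finset.sum_range, ← h1]
    refine Finset.sum_congr rfl fun j _ => ?_
    rw [map_smul, hreg l j, Rat.smul_def]
    have h2 : c' j = c j := by
      rw [hc'def]
      simp only [j.2, dif_pos]
    rw [h2]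
  have h3 := lin a ρ hρper hρne c' hsum
  intro j
  have h4 := h3 j j.2
  rw [hc'def] at h4
  simpa only [j.2, dif_pos] using h4

end Pool.Agent.Run7.h770.PG
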