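import Pool.Agent.Run7.h770.UB.Est
set_option autoImplicit false

/-!
Estimates for the iterates of the isogenies near a node.
-/

namespace Pool.Agent.Run7.h770.PG

open Pool.Agent.Run7.h770.UB (gg)

section real

theorem facts {e u A : ℝ} (he : 0 < e) (hu : 0 < u) (hA : 1 ≤ A) (h1 : e ^ 2 ≤ A * u ^ 3)
    (h2 : u ^ 3 ≤ A * e ^ 2) (h3 : A ^ 2 * e ≤ 1 / 10 ^ 6) :
    100 * e ≤ u ∧ 100 * u ^ 2 ≤ e ∧ 10 ^ 4 * u ≤ 1 := by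
  have hAe : A * e ≤ 1 / 10 ^ 6 := by
    have : A * e ≤ A ^ 2 * e := by
      apply mul_le_mul_of_nonneg_right _ he.le
      nlinarith
    linarith
  have a1 : 100 * e ≤ u := by
    rw [← pow_le_pow_iff_left₀ (by positivity) hu.le (three_ne_zero)]
    have h4 : e * e ^ 2 ≤ e * (A * u ^ 3) := mul_le_mul_of_nonneg_left h1 he.le
    have h5 : A * e * u ^ 3 ≤ 1 / 10 ^ 6 * u ^ 3 := mul_le_mul_of_nonneg_right hAe (by positivity)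
    calc (100 * e) ^ 3 = 10 ^ 6 * (e * e ^ 2) := by ring
      _ ≤ 10 ^ 6 * (e * (A * u ^ 3)) := by linarith
      _ = 10 ^ 6 * (A * e * u ^ 3) := by ring
      _ ≤ u ^ 3 := by linarith
  have a2 : 100 * u ^ 2 ≤ e := by
    rw [← pow_le_pow_iff_left₀ (by positivity) he.le (three_ne_zero)]
    have h4 : (u ^ 3) ^ 2 ≤ (A * e ^ 2) ^ 2 := pow_le_pow_left₀ (by positivity) h2 2
    have h5 : A ^ 2 * e * e ^ 3 ≤ 1 / 10 ^ 6 * e ^ 3 := mul_le_mul_of_nonneg_right h3 (by positivity)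
    calc (100 * u ^ 2) ^ 3 = 10 ^ 6 * (u ^ 3) ^ 2 := by ring
      _ ≤ 10 ^ 6 * (A * e ^ 2) ^ 2 := by linarith
      _ = 10 ^ 6 * (A ^ 2 * e * e ^ 3) := by ring
      _ ≤ e ^ 3 := by linarith
  refine ⟨a1, a2, ?_⟩
  have h4 : u * (10 ^ 4 * u) ≤ u * 1 := by nlinarith
  exact le_of_mul_le_mul_left h4 hu

/-- the parameters near a node -/
theorem num_step {w ε z z' : ℂ} (hw : w ^ 2 = 1) (hz : z = w * (1 + ε))
    (h : z' ^ 2 + 1 = 2 * z ^ 2 * z') (he : ‖ε‖ ≤ 1 / 10 ^ 6) :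
    ‖z' - 1‖ ≤ 1 / 100 ∧ ‖z' - 1‖ ^ 2 ≤ 41 / 10 * ‖ε‖ ∧ 39 / 10 * ‖ε‖ ≤ ‖z' - 1‖ ^ 2 := by
  have h1 : (z' - 1) ^ 2 = 2 * z' * (ε * (2 + ε)) := by
    have h2 : z ^ 2 = (1 + ε) ^ 2 := by rw [hz, mul_pow, hw, one_mul]
    rw [h2] at h
    linear_combination h
  have h2 : ‖z' - 1‖ ^ 2 = 2 * ‖z'‖ * (‖ε‖ * ‖2 + ε‖) := by
    rw [← norm_pow, h1, norm_mul, norm_mul, norm_mul, Complex.norm_ofNat]
  have h3 : ‖z'‖ ≤ 1 + ‖z' - 1‖ := by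
    have := norm_add_le (1 : ℂ) (z' - 1)
    rwa [add_sub_cancel, norm_one] at this
  have h4 : 1 - ‖z' - 1‖ ≤ ‖z'‖ := by
    have := norm_sub_norm_le (1 : ℂ) (1 - z')
    rw [sub_sub_cancel, norm_one, norm_sub_rev] at this
    exact this
  have h5 : ‖2 + ε‖ ≤ 2 + ‖ε‖ := by
    have := norm_add_le (2 : ℂ) ε
    rwa [Complex.norm_ofNat] at this
  have h6 : 2 - ‖ε‖ ≤ ‖2 + ε‖ := by
    have := norm_sub_norm_le (2 : ℂ) (-ε)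
    rwa [sub_neg_eq_add, Complex.norm_ofNat, norm_neg] at this
  have h0 := norm_nonneg ε
  have h0' := norm_nonneg (z' - 1)
  generalize ‖z' - 1‖ = e' at *
  generalize ‖2 + ε‖ = q at *
  generalize ‖ε‖ = e at *
  generalize ‖z'‖ = y at *
  have hq : q ≤ 2.1 := by linarith
  have hq0 : 1.9 ≤ q := by linarith
  have k1 : e * q ≤ 2.1 * e := by nlinarith
  have k2 : e' ^ 2 ≤ 4.2 * e * (1 + e') := by
    rw [h2]
    have : 2 * y * (e * q) ≤ 2 * (1 + e') * (2.1 * e) := by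
      apply mul_le_mul (by linarith) k1 (by positivity) (by linarith)
    linarith
  have k3 : e' ≤ 1 / 100 := by
    by_contra hcon
    push Not at hcon
    have : 4.2 * e * (1 + e') ≤ 4.2 * (1 / 10 ^ 6) * (1 + e') := by
      apply mul_le_mul_of_nonneg_right _ (by linarith)
      linarith
    nlinarith
  refine ⟨k3, ?_, ?_⟩
  · rw [h2]
    have e1 : y * q ≤ 101 / 100 * (2 + 1 / 10 ^ 6) := by
      apply mul_le_mul (by linarith) (by linarith) (by linarith) (by norm_num)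
    have e2 : 2 * y * (e * q) = 2 * (y * q) * e := by ring
    rw [e2]
    have : 2 * (y * q) * e ≤ 2 * (101 / 100 * (2 + 1 / 10 ^ 6)) * e := by
      apply mul_le_mul_of_nonneg_right _ h0
      linarith
    nlinarith
  · rw [h2]
    have e1 : 99 / 100 * (2 - 1 / 10 ^ 6) ≤ y * q := by
      apply mul_le_mul (by linarith) (by linarith) (by norm_num) (by linarith)
    have e2 : 2 * y * (e * q) = 2 * (y * q) * e := by ring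
    rw [e2]
    have : 2 * (99 / 100 * (2 - 1 / 10 ^ 6)) * e ≤ 2 * (y * q) * e := by
      apply mul_le_mul_of_nonneg_right _ h0
      linarith
    nlinarith

end real

section point

variable {ξ ε : ℂ}

/-- the numerator -/
def nu (ξ ε : ℂ) : ℂ := 2 * ε + ξ ^ 2 + 2 * ε * ξ + ε * ξ ^ 2

/-- the derivative of the numerator -/
def nu' (ξ ε : ℂ) : ℂ := 2 * ξ + 2 * ε + 2 * ε * ξ

theorem gg_node {w : ℂ} (hw : w ^ 2 = 1) (h : ξ ≠ ε) :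
    gg (w * (1 + ε)) (w * (1 + ξ)) = 1 + nu ξ ε / (ξ - ε) := by
  have hw0 : w ≠ 0 := by
    rintro rfl
    norm_num at hw
  have h1 : ξ - ε ≠ 0 := sub_ne_zero.2 h
  have h2 : w * (1 + ξ) - w * (1 + ε) = w * (ξ - ε) := by ring
  unfold gg nu
  rw [h2]
  field_simp
  linear_combination (1 + ξ) ^ 2 * (1 + ε) * hw

theorem point_bounds (h1 : 100 * ‖ε‖ ≤ ‖ξ‖) (h2 : 100 * ‖ξ‖ ^ 2 ≤ ‖ε‖) (h3 : 10 ^ 4 * ‖ξ‖ ≤ 1)
    (h0 : ε ≠ 0) :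
    ξ ≠ ε ∧ ‖ξ - ε‖ ≤ 101 / 100 * ‖ξ‖ ∧ 99 / 100 * ‖ξ‖ ≤ ‖ξ - ε‖ ∧
      ‖nu ξ ε‖ ≤ 2011 / 1000 * ‖ε‖ ∧ 1989 / 1000 * ‖ε‖ ≤ ‖nu ξ ε‖ ∧ ‖nu' ξ ε‖ ≤ 21 / 10 * ‖ξ‖ := by
  have he : 0 < ‖ε‖ := norm_pos_iff.2 h0
  have hu : 0 < ‖ξ‖ := by linarith
  have k1 := norm_sub_le ξ ε
  have k2 := norm_sub_norm_le ξ ε
  have k3 : ‖nu ξ ε - 2 * ε‖ ≤ ‖ξ‖ ^ 2 + 2 * ‖ε‖ * ‖ξ‖ + ‖ε‖ * ‖ξ‖ ^ 2 := by
    have e1 : nu ξ ε - 2 * ε = ξ ^ 2 + 2 * ε * ξ + ε * ξ ^ 2 := by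
      unfold nu
      ring
    rw [e1]
    calc ‖ξ ^ 2 + 2 * ε * ξ + ε * ξ ^ 2‖ ≤ ‖ξ ^ 2‖ + ‖2 * ε * ξ‖ + ‖ε * ξ ^ 2‖ := norm_add₃_le
      _ = _ := by
        simp only [norm_mul, norm_pow, Complex.norm_ofNat]
  have k4 : ‖nu' ξ ε‖ ≤ 2 * ‖ξ‖ + 2 * ‖ε‖ + 2 * ‖ε‖ * ‖ξ‖ := by
    unfold nu'
    calc ‖2 * ξ + 2 * ε + 2 * ε * ξ‖ ≤ ‖2 * ξ‖ + ‖2 * ε‖ + ‖2 * ε * ξ‖ := norm_add₃_le
      _ = _ := by
        simp only [norm_mul, Complex.norm_ofNat]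
  have k5 : ‖nu ξ ε‖ ≤ ‖nu ξ ε - 2 * ε‖ + 2 * ‖ε‖ := by
    have := norm_add_le (nu ξ ε - 2 * ε) (2 * ε)
    rwa [sub_add_cancel, norm_mul, Complex.norm_ofNat] at this
  have k6 : 2 * ‖ε‖ - ‖nu ξ ε - 2 * ε‖ ≤ ‖nu ξ ε‖ := by
    have := norm_sub_norm_le (2 * ε) (2 * ε - nu ξ ε)
    rwa [sub_sub_cancel, norm_mul, Complex.norm_ofNat, norm_sub_rev] at this
  have hne : ξ ≠ ε := by
    rintro rfl
    linarith
  generalize ‖nu ξ ε - 2 * ε‖ = p at *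
  generalize ‖nu ξ ε‖ = p' at *
  generalize ‖nu' ξ ε‖ = p'' at *
  generalize ‖ξ - ε‖ = q at *
  generalize ‖ξ‖ = u at *
  generalize ‖ε‖ = e at *
  have m1 : e * u ≤ e * (1 / 10 ^ 4) := mul_le_mul_of_nonneg_left (by linarith) he.le
  have m2 : e * u ^ 2 ≤ e * (1 / 10 ^ 4) := by
    apply mul_le_mul_of_nonneg_left _ he.le
    nlinarith
  refine ⟨hne, by linarith, by linarith, by linarith, by linarith, by nlinarith⟩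

theorem point_step {A D : ℝ} {δ ε' : ℂ} (h0 : ε ≠ 0) (hA : 1 ≤ A) (h1 : ‖ε‖ ^ 2 ≤ A * ‖ξ‖ ^ 3)
    (h2 : ‖ξ‖ ^ 3 ≤ A * ‖ε‖ ^ 2) (h3 : A ^ 2 * ‖ε‖ ≤ 1 / 10 ^ 6)
    (k1 : ‖ε'‖ ^ 2 ≤ 41 / 10 * ‖ε‖) (k2 : 39 / 10 * ‖ε‖ ≤ ‖ε'‖ ^ 2) (hD : 0 ≤ D)
    (hδ : ‖δ‖ ≤ D * ‖ξ‖) :
    ξ ≠ ε ∧ ‖ε'‖ ^ 2 ≤ 3 * A * ‖nu ξ ε / (ξ - ε)‖ ^ 3 ∧
      ‖nu ξ ε / (ξ - ε)‖ ^ 3 ≤ 3 * A * ‖ε'‖ ^ 2 ∧
      ‖δ * ((nu' ξ ε * (ξ - ε) - nu ξ ε) / (ξ - ε) ^ 2)‖ ≤ 2 * D * ‖nu ξ ε / (ξ - ε)‖ := by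
  have he : 0 < ‖ε‖ := norm_pos_iff.2 h0
  have hu : 0 < ‖ξ‖ := by
    rcases (norm_nonneg ξ).lt_or_eq with h | h
    · exact h
    · rw [← h] at h1
      have : (0 : ℝ) < ‖ε‖ ^ 2 := by positivity
      norm_num at h1
      exact absurd h1 h0
  obtain ⟨f1, f2, f3⟩ := facts he hu hA h1 h2 h3
  obtain ⟨b1, b2, b3, b4, b5, b6⟩ := point_bounds f1 f2 f3 h0
  have hden : 0 < ‖ξ - ε‖ := norm_pos_iff.2 (sub_ne_zero.2 b1)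
  have hv : ‖nu ξ ε / (ξ - ε)‖ * ‖ξ - ε‖ = ‖nu ξ ε‖ := by
    rw [norm_div, div_mul_cancel₀ _ hden.ne']
  have hder : ‖δ * ((nu' ξ ε * (ξ - ε) - nu ξ ε) / (ξ - ε) ^ 2)‖ * ‖ξ - ε‖ ≤
      ‖δ‖ * (‖nu' ξ ε‖ + ‖nu ξ ε / (ξ - ε)‖) := by
    have e1 : (nu' ξ ε * (ξ - ε) - nu ξ ε) / (ξ - ε) ^ 2 =
        (nu' ξ ε - nu ξ ε / (ξ - ε)) / (ξ - ε) := by
      have := sub_ne_zero.2 b1
      field_simp
    rw [e1, norm_mul, norm_div, mul_assoc, div_mul_cancel₀ _ hden.ne']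
    exact mul_le_mul_of_nonneg_left (norm_sub_le _ _) (norm_nonneg _)
  have hv0 : 0 ≤ ‖nu ξ ε / (ξ - ε)‖ := norm_nonneg _
  have hE : 0 ≤ ‖ε'‖ ^ 2 := by positivity
  have hp0 : 0 ≤ ‖nu' ξ ε‖ := norm_nonneg _
  refine ⟨b1, ?_⟩
  generalize ‖δ * ((nu' ξ ε * (ξ - ε) - nu ξ ε) / (ξ - ε) ^ 2)‖ = Q at *
  generalize ‖nu ξ ε / (ξ - ε)‖ = v at *
  generalize ‖nu ξ ε‖ = p at *
  generalize ‖nu' ξ ε‖ = p' at *
  generalize ‖ξ - ε‖ = q at *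
  generalize ‖δ‖ = dd at *
  generalize ‖ε'‖ ^ 2 = E at *
  generalize ‖ξ‖ = u at *
  generalize ‖ε‖ = e at *
  have v1 : v * u ≤ 204 / 100 * e := by
    have : v * (99 / 100 * u) ≤ v * q := mul_le_mul_of_nonneg_left b3 hv0
    nlinarith
  have v2 : 196 / 100 * e ≤ v * u := by
    have : v * q ≤ v * (101 / 100 * u) := mul_le_mul_of_nonneg_left b2 hv0
    nlinarith
  have w1 : (v * u) ^ 3 ≤ (204 / 100 * e) ^ 3 := pow_le_pow_left₀ (by positivity) v1 3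
  have w2 : (196 / 100 * e) ^ 3 ≤ (v * u) ^ 3 := pow_le_pow_left₀ (by positivity) v2 3
  have hu3 : 0 < u ^ 3 := by positivity
  refine ⟨?_, ?_, ?_⟩
  · refine le_of_mul_le_mul_right ?_ hu3
    have c1 : E * u ^ 3 ≤ 41 / 10 * e * (A * e ^ 2) := mul_le_mul k1 h2 hu3.le (by positivity)
    have c2 : A * (196 / 100 * e) ^ 3 ≤ A * (v * u) ^ 3 :=
      mul_le_mul_of_nonneg_left w2 (by linarith)
    have c3 : 0 ≤ A * e ^ 3 := by positivity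
    nlinarith
  · refine le_of_mul_le_mul_right ?_ hu3
    have c1 : e * e ^ 2 ≤ e * (A * u ^ 3) := mul_le_mul_of_nonneg_left h1 he.le
    have c2 : (39 / 10 * e) * (A * u ^ 3) ≤ E * (A * u ^ 3) :=
      mul_le_mul_of_nonneg_right k2 (by positivity)
    have c3 : 0 ≤ e * (A * u ^ 3) := by positivity
    nlinarith
  · refine le_of_mul_le_mul_right ?_ hden
    have c1 : dd * (p' + v) ≤ D * u * (p' + v) :=
      mul_le_mul_of_nonneg_right hδ (by linarith)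
    have c2 : u * p' ≤ u * (21 / 10 * u) := mul_le_mul_of_nonneg_left b6 hu.le
    have c3 : u * v ≤ 102 / 100 * (v * q) := by nlinarith
    have c4 : u * (p' + v) ≤ 2 * (v * q) := by nlinarith
    have c5 : D * (u * (p' + v)) ≤ D * (2 * (v * q)) := mul_le_mul_of_nonneg_left c4 hD
    linarith

end point

section fun1

/-- The functions `x` and `y` are near the node `(w, w)`; the parameter is `w (1 + ε)`. -/
structure Nod (w ε : ℂ) (A D : ℝ) (x y : ℝ → ℂ) : Prop where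
  w2 : w ^ 2 = 1
  e0 : ε ≠ 0
  hA : 1 ≤ A
  hD : 0 ≤ D
  x1 : ∀ t, ‖ε‖ ^ 2 ≤ A * ‖w * x t - 1‖ ^ 3
  x2 : ∀ t, ‖w * x t - 1‖ ^ 3 ≤ A * ‖ε‖ ^ 2
  y1 : ∀ t, ‖ε‖ ^ 2 ≤ A * ‖w * y t - 1‖ ^ 3
  y2 : ∀ t, ‖w * y t - 1‖ ^ 3 ≤ A * ‖ε‖ ^ 2
  d : ∀ t, ∃ δ, HasDerivAt x δ t ∧ ‖δ‖ ≤ D * ‖w * x t - 1‖

theorem Nod.step {w ε z z' : ℂ} {A D : ℝ} {x y : ℝ → ℂ} (h : Nod w ε A D x y)
    (hs : A ^ 2 * ‖ε‖ ≤ 1 / 10 ^ 6) (hz : z = w * (1 + ε)) (hz' : z' ^ 2 + 1 = 2 * z ^ 2 * z') :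
    Nod 1 (z' - 1) (3 * A) (2 * D) (fun t => gg z (x t)) (fun t => gg z (y t)) := by
  have he : 0 < ‖ε‖ := norm_pos_iff.2 h.e0
  have hA2 : ‖ε‖ ≤ 1 / 10 ^ 6 := by
    have h1 : 1 * ‖ε‖ ≤ A ^ 2 * ‖ε‖ :=
      mul_le_mul_of_nonneg_right (by nlinarith [h.hA]) he.le
    linarith
  obtain ⟨n1, n2, n3⟩ := num_step h.w2 hz hz' hA2
  have hw0 : w ≠ 0 := by
    rintro rfl
    have := h.w2
    norm_num at this
  have hx : ∀ v : ℂ, v = w * (1 + (w * v - 1)) := by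
    intro v
    linear_combination (-v) * h.w2
  have hpt : ∀ (v δ : ℂ), ‖ε‖ ^ 2 ≤ A * ‖w * v - 1‖ ^ 3 → ‖w * v - 1‖ ^ 3 ≤ A * ‖ε‖ ^ 2 →
      ‖δ‖ ≤ D * ‖w * v - 1‖ → (w * v - 1 ≠ ε ∧ ‖z' - 1‖ ^ 2 ≤ 3 * A * ‖1 * gg z v - 1‖ ^ 3 ∧
        ‖1 * gg z v - 1‖ ^ 3 ≤ 3 * A * ‖z' - 1‖ ^ 2 ∧
        ‖δ * ((nu' (w * v - 1) ε * (w * v - 1 - ε) - nu (w * v - 1) ε) /
          (w * v - 1 - ε) ^ 2)‖ ≤ 2 * D * ‖1 * gg z v - 1‖) := by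
    intro v δ a1 a2 a3
    obtain ⟨p1, p2, p3, p4⟩ := point_step h.e0 h.hA a1 a2 hs n2 n3 h.hD a3
    have e1 : 1 * gg z v - 1 = nu (w * v - 1) ε / (w * v - 1 - ε) := by
      rw [one_mul, hz]
      conv_lhs => rw [hx v]
      rw [gg_node h.w2 p1]
      ring
    rw [e1]
    exact ⟨p1, p2, p3, p4⟩
  refine ⟨one_pow 2, ?_, by linarith [h.hA], by linarith [h.hD], fun t => ?_, fun t => ?_,
    fun t => ?_, fun t => ?_, fun t => ?_⟩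
  · intro h0
    rw [h0, norm_zero] at n3
    have : (39 : ℝ) / 10 * ‖ε‖ ≤ 0 := by simpa using n3
    linarith
  · exact (hpt (x t) 0 (h.x1 t) (h.x2 t) (by
      rw [norm_zero]
      exact mul_nonneg h.hD (norm_nonneg _))).2.1
  · exact (hpt (x t) 0 (h.x1 t) (h.x2 t) (by
      rw [norm_zero]
      exact mul_nonneg h.hD (norm_nonneg _))).2.2.1
  · exact (hpt (y t) 0 (h.y1 t) (h.y2 t) (by
      rw [norm_zero]
      exact mul_nonneg h.hD (norm_nonneg _))).2.1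
  · exact (hpt (y t) 0 (h.y1 t) (h.y2 t) (by
      rw [norm_zero]
      exact mul_nonneg h.hD (norm_nonneg _))).2.2.1
  · obtain ⟨δ, hδ, hδ2⟩ := h.d t
    obtain ⟨p1, -, -, p4⟩ := hpt (x t) (w * δ) (h.x1 t) (h.x2 t) (by
      have hwn : ‖w‖ = 1 := by
        have h1 : ‖w‖ ^ 2 = 1 := by rw [← norm_pow, h.w2, norm_one]
        nlinarith [norm_nonneg w]
      rw [norm_mul, hwn, one_mul]
      exact hδ2)
    have hne : ∀ s, w * x s - 1 ≠ ε := fun s => (hpt (x s) 0 (h.x1 s) (h.x2 s) (by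
      rw [norm_zero]
      exact mul_nonneg h.hD (norm_nonneg _))).1
    refine ⟨_, ?_, p4⟩
    have e1 : (fun t => gg z (x t)) = fun s => 1 + nu (w * x s - 1) ε / (w * x s - 1 - ε) := by
      funext s
      rw [hz]
      conv_lhs => rw [hx (x s)]
      exact gg_node h.w2 (hne s)
    rw [e1]
    have d1 : HasDerivAt (fun s => w * x s - 1) (w * δ) t := (hδ.const_mul w).sub_const 1
    have d2 : HasDerivAt (fun s => nu (w * x s - 1) ε) (nu' (w * x t - 1) ε * (w * δ)) t := by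
      have k1 := (((d1.pow 2).const_add (2 * ε)).add (d1.const_mul (2 * ε))).add
        ((d1.pow 2).const_mul ε)
      refine (k1.congr_deriv ?_).congr_of_eventuallyEq (Filter.Eventually.of_forall fun s => ?_)
      · unfold nu'
        push_cast
        ring
      · rfl
    have d3 := (d2.div (d1.sub_const ε) (sub_ne_zero.2 p1)).const_add 1
    refine d3.congr_deriv ?_
    have := sub_ne_zero.2 p1
    field_simp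

end fun1

end Pool.Agent.Run7.h770.PG
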