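import Pool.Agent.Run7.h770.PG.Tors
import Pool.Agent.Run7.h770.PG.Grp
set_option autoImplicit false

/-!
Torsion points of `Y² + k X Y = X³ - 2 X² + X`.
-/

namespace Pool.Agent.Run7.h770.PG

open WeierstrassCurve

open Pool.Agent.Run7.h770.IJ (crv)

section pt

set_option linter.unusedSectionVars false

variable {F : Type*} [Field F] [DecidableEq F] {V : WeierstrassCurve.Affine F} {k : F}

theorem eq_crv (hV : V = crv k) {X Y : F} (h : V.Equation X Y) :
    (2 * Y + k * X) ^ 2 = Mk k X := by
  subst hV
  rw [WeierstrassCurve.Affine.equation_iff] at h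
  unfold crv at h
  simp only at h
  unfold Mk
  linear_combination 4 * h

theorem negY_crv (hV : V = crv k) {X Y : F} : V.negY X Y = -Y - k * X := by
  subst hV
  unfold WeierstrassCurve.Affine.negY crv
  ring

theorem double_zero (hV : V = crv k) {X Y : F} (h : V.Nonsingular X Y) (hM : Mk k X = 0) :
    (2 : ℕ) • (Affine.Point.some X Y h : V.Point) = 0 := by
  rw [two_nsmul]
  apply Affine.Point.add_self_of_Y_eq
  rw [negY_crv hV]
  have h1 := eq_crv hV h.left
  rw [hM] at h1
  have h2 : 2 * Y + k * X = 0 := pow_eq_zero_iff two_ne_zero |>.1 h1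
  linear_combination h2

theorem double_some (hV : V = crv k) {X Y : F} (h : V.Nonsingular X Y) (hM : Mk k X ≠ 0) :
    ∃ (Y' : F) (h' : V.Nonsingular (Dk k X) Y'),
      (2 : ℕ) • (Affine.Point.some X Y h : V.Point) = Affine.Point.some (Dk k X) Y' h' := by
  have h1 := eq_crv hV h.left
  have h2 : 2 * Y + k * X ≠ 0 := by
    intro h0
    rw [h0] at h1
    exact hM (by rw [← h1]; ring)
  have hy : Y ≠ V.negY X Y := by
    rw [negY_crv hV]
    intro h0
    apply h2
    linear_combination h0
  have hX : V.addX X X (V.slope X X Y Y) = Dk k X := by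
    rw [Affine.slope_of_Y_ne rfl hy, negY_crv hV]
    have h3 : V.a₁ = k := by rw [hV]; rfl
    have h4 : V.a₂ = -2 := by rw [hV]; rfl
    have h5 : V.a₄ = 1 := by rw [hV]; rfl
    unfold Affine.addX Dk
    rw [h3, h4, h5, ← h1]
    have h6 : Y - (-Y - k * X) = 2 * Y + k * X := by ring
    rw [h6]
    have hc : Y ^ 2 + k * X * Y = X ^ 3 - 2 * X ^ 2 + X := by
      have h7 := h.left
      rw [WeierstrassCurve.Affine.equation_iff, hV] at h7
      unfold crv at h7
      simp only at h7
      linear_combination h7
    have hN : (3 * X ^ 2 + 2 * (-2) * X + 1 - k * Y) ^ 2 +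
        k * (3 * X ^ 2 + 2 * (-2) * X + 1 - k * Y) * (2 * Y + k * X) +
        (2 - 2 * X) * (2 * Y + k * X) ^ 2 = (X ^ 2 - 1) ^ 2 := by
      linear_combination (8 - 8 * X - k ^ 2) * hc
    rw [← hN]
    generalize 3 * X ^ 2 + 2 * (-2) * X + 1 - k * Y = N
    generalize 2 * Y + k * X = D at *
    field_simp
    ring
  rw [two_nsmul, Affine.Point.add_self_of_Y_ne hy]
  have key : ∀ (X' Y' : F) (h' : V.Nonsingular X' Y'), X' = Dk k X →
      ∃ (Y'' : F) (h'' : V.Nonsingular (Dk k X) Y''),
        (Affine.Point.some X' Y' h' : V.Point) = Affine.Point.some (Dk k X) Y'' h'' := by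
    rintro X' Y' h' rfl
    exact ⟨Y', h', rfl⟩
  exact key _ _ _ hX

/-- Points with first coordinate in `TT` are torsion points. -/
theorem tors_of_TT (hV : V = crv k) (m : ℕ) : ∀ {X Y : F} (h : V.Nonsingular X Y), TT k m X →
    (2 ^ m : ℕ) • (Affine.Point.some X Y h : V.Point) = 0 := by
  induction m with
  | zero => exact fun _ h => h.elim
  | succ m ih =>
    intro X Y h hT
    rw [pow_succ, mul_smul]
    by_cases hM : Mk k X = 0
    · rw [double_zero hV h hM, smul_zero]
    · obtain ⟨Y', h', he⟩ := double_some hV h hM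
      rw [he]
      rcases hT with h0 | h0
      · exact absurd h0 hM
      · exact ih h' h0

/-- the first coordinate, or nothing for the point at infinity -/
def xo : V.Point → Option F
  | 0 => none
  | .some X _ _ => some X

theorem tor_one (hV : V = crv k) (h2 : (2 : F) ≠ 0) :
    Finite (tor V.Point 1) ∧ Nat.card (tor V.Point 1) ≤ 4 := by
  set p : Polynomial F := Polynomial.X * (Polynomial.C 4 * Polynomial.X ^ 2 +
    Polynomial.C (k ^ 2 - 8) * Polynomial.X + Polynomial.C 4) with hp
  have h4 : (4 : F) ≠ 0 := by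
    have : (4 : F) = 2 * 2 := by norm_num
    rw [this]
    exact mul_ne_zero h2 h2
  have hq : (Polynomial.C 4 * Polynomial.X ^ 2 + Polynomial.C (k ^ 2 - 8) * Polynomial.X +
      Polynomial.C 4 : Polynomial F).natDegree = 2 := Polynomial.natDegree_quadratic h4
  have hq0 : (Polynomial.C 4 * Polynomial.X ^ 2 + Polynomial.C (k ^ 2 - 8) * Polynomial.X +
      Polynomial.C 4 : Polynomial F) ≠ 0 := by
    intro h
    rw [h, Polynomial.natDegree_zero] at hq
    omega
  have hp0 : p ≠ 0 := mul_ne_zero Polynomial.X_ne_zero hq0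
  have hdeg : p.natDegree = 3 := by
    rw [hp, Polynomial.natDegree_mul Polynomial.X_ne_zero hq0, hq, Polynomial.natDegree_X]
  set S : Finset (Option F) := insert none (p.roots.toFinset.image some) with hS
  have hcard : S.card ≤ 4 := by
    refine (Finset.card_insert_le _ _).trans ?_
    have h3 : (p.roots.toFinset.image some).card ≤ 3 := by
      refine Finset.card_image_le.trans ?_
      refine (Multiset.toFinset_card_le _).trans ?_
      rw [← hdeg]
      exact Polynomial.card_roots' p
    omega
  have hY : ∀ {X Y : F} (h : V.Nonsingular X Y),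
      (Affine.Point.some X Y h : V.Point) ∈ tor V.Point 1 → 2 * Y + k * X = 0 := by
    intro X Y h hmem
    rw [mem_tor, pow_one, two_nsmul] at hmem
    by_contra hcon
    have hy : Y ≠ V.negY X Y := by
      rw [negY_crv hV]
      intro h0
      apply hcon
      linear_combination h0
    rw [Affine.Point.add_self_of_Y_ne hy] at hmem
    exact Affine.Point.some_ne_zero _ hmem
  have hmaps : ∀ P : tor V.Point 1, xo (P : V.Point) ∈ S := by
    rintro ⟨P, hP⟩
    rcases P with _ | ⟨X, Y, h⟩
    · exact Finset.mem_insert_self _ _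
    · have h1 := hY h hP
      have h3 := eq_crv hV h.left
      rw [h1] at h3
      refine Finset.mem_insert_of_mem (Finset.mem_image.2 ⟨X, ?_, rfl⟩)
      rw [Multiset.mem_toFinset, Polynomial.mem_roots hp0]
      show Polynomial.eval X p = 0
      rw [hp]
      simp only [Polynomial.eval_mul, Polynomial.eval_add, Polynomial.eval_X, Polynomial.eval_C,
        Polynomial.eval_pow]
      unfold Mk at h3
      rw [← h3]
      ring
  have hinj : Function.Injective (fun P : tor V.Point 1 => (⟨xo (P : V.Point), hmaps P⟩ : S)) := by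
    rintro ⟨P, hP⟩ ⟨Q, hQ⟩ h
    have h0 : xo P = xo Q := congrArg Subtype.val h
    apply Subtype.ext
    show P = Q
    rcases P with _ | ⟨X, Y, h1⟩
    · rcases Q with _ | ⟨X', Y', h1'⟩
      · rfl
      · exact absurd h0 (by simp [xo])
    · rcases Q with _ | ⟨X', Y', h1'⟩
      · exact absurd h0 (by simp [xo])
      · have hX : X = X' := Option.some.inj h0
        subst hX
        have e1 := hY h1 hP
        have e2 := hY h1' hQ
        have e3 : Y = Y' := mul_left_cancel₀ h2 (by linear_combination e1 - e2)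
        subst e3
        rfl
  have hfin : Finite (tor V.Point 1) := Finite.of_injective _ hinj
  refine ⟨hfin, ?_⟩
  have h5 := Nat.card_le_card_of_injective _ hinj
  have h6 : Nat.card S = S.card := by rw [Nat.card_eq_fintype_card, Fintype.card_coe]
  rw [h6] at h5
  exact h5.trans hcard

/-- There is a point with given first coordinate. -/
theorem exists_pt [IsAlgClosed F] (hV : V = crv k) (h0 : k ≠ 0) (h4 : k ^ 2 ≠ 16) (X : F) :
    ∃ (Y : F), V.Nonsingular X Y := by
  have hd : (Polynomial.C 1 * Polynomial.X ^ 2 + Polynomial.C (k * X) * Polynomial.X +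
      Polynomial.C (-(X ^ 3 - 2 * X ^ 2 + X)) : Polynomial F).degree ≠ 0 := by
    rw [Polynomial.degree_quadratic one_ne_zero]
    norm_num
  obtain ⟨Y, hY⟩ := IsAlgClosed.exists_root _ hd
  have h1 : Y ^ 2 + k * X * Y - (X ^ 3 - 2 * X ^ 2 + X) = 0 := by
    have h2 : Polynomial.eval Y (Polynomial.C 1 * Polynomial.X ^ 2 +
      Polynomial.C (k * X) * Polynomial.X + Polynomial.C (-(X ^ 3 - 2 * X ^ 2 + X))) = 0 := hY
    simp only [Polynomial.eval_add, Polynomial.eval_mul, Polynomial.eval_pow, Polynomial.eval_X,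
      Polynomial.eval_C] at h2
    linear_combination h2
  refine ⟨Y, ?_⟩
  subst hV
  have _ := Pool.Agent.Run7.h770.IJ.isElliptic_crv h0 h4
  rw [← WeierstrassCurve.Affine.equation_iff_nonsingular, WeierstrassCurve.Affine.equation_iff]
  unfold crv
  simp only
  linear_combination h1

end pt

end Pool.Agent.Run7.h770.PG
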