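import Pool.Agent.Run7.h770.UB.Basic
import Pool.Agent.Run7.h770.IJ.Crv
set_option autoImplicit false

/-!
Torsion points of the curves `Y² + k X Y = X³ - 2 X² + X` and `2`-isogenies, on the first
coordinates.
-/

namespace Pool.Agent.Run7.h770.PG

open WeierstrassCurve

open Pool.Agent.Run7.h770.IJ (crv)

open Pool.Agent.Run7.h770.UB (Chain)

set_option linter.unusedSectionVars false

set_option linter.unusedVariables false

variable {F : Type*} [Field F]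

/-- the square of `2 Y + k X` -/
def Mk (k X : F) : F := X * (4 * X ^ 2 + (k ^ 2 - 8) * X + 4)

/-- the first coordinate of the double of a point -/
def Dk (k X : F) : F := (X ^ 2 - 1) ^ 2 / Mk k X

/-- first coordinates of points annihilated by `2 ^ m` -/
def TT (k : F) : ℕ → F → Prop
  | 0, _ => False
  | m + 1, X => Mk k X = 0 ∨ TT k m (Dk k X)

/-- the isogeny on the first coordinates -/
def Fn (n X : F) : F := X * (n ^ 2 * X + 1) / (X + n ^ 2)

section isog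

variable {n X : F}

theorem Mk_eq (hn : n ≠ 0) : Mk (2 * (n + n⁻¹)) X =
    4 * X * (X + n ^ 2) * (n ^ 2 * X + 1) / n ^ 2 := by
  unfold Mk
  field_simp
  ring

theorem Mk_Fn (hn : n ≠ 0) (hX : X + n ^ 2 ≠ 0) : Mk (4 * n ^ 2) (Fn n X) =
    4 * X * (n ^ 2 * X + 1) * n ^ 4 * (X ^ 2 + 2 * n ^ 2 * X + 1) ^ 2 / (X + n ^ 2) ^ 3 := by
  unfold Mk Fn
  field_simp
  ring

theorem Dk_add (h2 : (2 : F) ≠ 0) (hn : n ≠ 0) (hM : Mk (2 * (n + n⁻¹)) X ≠ 0) :
    Dk (2 * (n + n⁻¹)) X + n ^ 2 =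
      n ^ 2 * (X ^ 2 + 2 * n ^ 2 * X + 1) ^ 2 / (4 * X * (X + n ^ 2) * (n ^ 2 * X + 1)) := by
  have h4 : (4 : F) ≠ 0 := by
    have : (4 : F) = 2 * 2 := by norm_num
    rw [this]
    exact mul_ne_zero h2 h2
  have hM' := hM
  rw [Mk_eq hn] at hM'
  have h5 : 4 * X * (X + n ^ 2) * (n ^ 2 * X + 1) ≠ 0 := fun h => hM' (by rw [h, zero_div])
  unfold Dk
  rw [Mk_eq hn, div_div_eq_mul_div, div_add' _ _ _ h5]
  congr 1
  ring

theorem Fn_Dk (h2 : (2 : F) ≠ 0) (hn : n ≠ 0) (hM : Mk (2 * (n + n⁻¹)) X ≠ 0)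
    (hq : X ^ 2 + 2 * n ^ 2 * X + 1 ≠ 0) :
    Fn n (Dk (2 * (n + n⁻¹)) X) = Dk (4 * n ^ 2) (Fn n X) := by
  have h4 : (4 : F) ≠ 0 := by
    have : (4 : F) = 2 * 2 := by norm_num
    rw [this]
    exact mul_ne_zero h2 h2
  have hM' := hM
  rw [Mk_eq hn] at hM'
  have h5 : 4 * X * (X + n ^ 2) * (n ^ 2 * X + 1) ≠ 0 := fun h => hM' (by rw [h, zero_div])
  have h6 : X ≠ 0 := fun h => h5 (by rw [h]; ring)
  have h7 : X + n ^ 2 ≠ 0 := fun h => h5 (by rw [h]; ring)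
  have h8 : n ^ 2 * X + 1 ≠ 0 := fun h => h5 (by rw [h]; ring)
  have e1 : Dk (4 * n ^ 2) (Fn n X) = (Fn n X ^ 2 - 1) ^ 2 / (4 * X * (n ^ 2 * X + 1) * n ^ 4 *
      (X ^ 2 + 2 * n ^ 2 * X + 1) ^ 2 / (X + n ^ 2) ^ 3) := by
    rw [← Mk_Fn hn h7]
    rfl
  have e2 : Fn n (Dk (2 * (n + n⁻¹)) X) = Dk (2 * (n + n⁻¹)) X *
      (n ^ 2 * Dk (2 * (n + n⁻¹)) X + 1) / (n ^ 2 * (X ^ 2 + 2 * n ^ 2 * X + 1) ^ 2 /
        (4 * X * (X + n ^ 2) * (n ^ 2 * X + 1))) := by
    rw [← Dk_add h2 hn hM]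
    rfl
  have e3 : Dk (2 * (n + n⁻¹)) X = (X ^ 2 - 1) ^ 2 * n ^ 2 /
      (4 * X * (X + n ^ 2) * (n ^ 2 * X + 1)) := by
    unfold Dk
    rw [Mk_eq hn, div_div_eq_mul_div]
  have e4 : n ^ 2 * Dk (2 * (n + n⁻¹)) X + 1 = (n ^ 2 * X ^ 2 + 2 * X + n ^ 2) ^ 2 /
      (4 * X * (X + n ^ 2) * (n ^ 2 * X + 1)) := by
    rw [e3, ← mul_div_assoc, div_add' _ _ _ h5]
    congr 1
    ring
  have e5 : Fn n X ^ 2 - 1 = n ^ 2 * (X ^ 2 - 1) * (n ^ 2 * X ^ 2 + 2 * X + n ^ 2) /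
      (X + n ^ 2) ^ 2 := by
    unfold Fn
    rw [div_pow, div_sub_one (pow_ne_zero 2 h7)]
    congr 1
    ring
  rw [e1, e2, e4, e3, e5]
  generalize X + n ^ 2 = A at *
  generalize n ^ 2 * X + 1 = B at *
  generalize X ^ 2 + 2 * n ^ 2 * X + 1 = Q at *
  generalize n ^ 2 * X ^ 2 + 2 * X + n ^ 2 = Q' at *
  generalize X ^ 2 - 1 = U at *
  field_simp

theorem isog_TT (h2 : (2 : F) ≠ 0) (hn : n ≠ 0) (m : ℕ) : ∀ X : F,
    (X + n ^ 2 = 0 ∨ TT (4 * n ^ 2) m (Fn n X)) → TT (2 * (n + n⁻¹)) (m + 1) X := by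
  have hz : ∀ X : F, X + n ^ 2 = 0 → Mk (2 * (n + n⁻¹)) X = 0 := by
    intro X h
    rw [Mk_eq hn, h]
    ring
  have h4 : (4 : F) ≠ 0 := by
    have : (4 : F) = 2 * 2 := by norm_num
    rw [this]
    exact mul_ne_zero h2 h2
  induction m with
  | zero =>
    rintro X (h | h)
    · exact Or.inl (hz X h)
    · exact h.elim
  | succ m ih =>
    intro X h
    by_cases hM : Mk (2 * (n + n⁻¹)) X = 0
    · exact Or.inl hM
    right
    have hM' := hM
    rw [Mk_eq hn] at hM'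
    have h5 : 4 * X * (X + n ^ 2) * (n ^ 2 * X + 1) ≠ 0 := fun h => hM' (by rw [h, zero_div])
    have h6 : X ≠ 0 := fun h => h5 (by rw [h]; ring)
    have h7 : X + n ^ 2 ≠ 0 := fun h => h5 (by rw [h]; ring)
    have h8 : n ^ 2 * X + 1 ≠ 0 := fun h => h5 (by rw [h]; ring)
    by_cases hq : X ^ 2 + 2 * n ^ 2 * X + 1 = 0
    · apply ih
      left
      rw [Dk_add h2 hn hM, hq]
      ring
    apply ih
    right
    rw [Fn_Dk h2 hn hM hq]
    rcases h with h | h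
    · exact absurd h h7
    rcases h with h | h
    · exfalso
      rw [Mk_Fn hn h7] at h
      rcases div_eq_zero_iff.1 h with h9 | h9
      · exact mul_ne_zero (mul_ne_zero (mul_ne_zero (mul_ne_zero h4 h6) h8) (pow_ne_zero 4 hn))
          (pow_ne_zero 2 hq) h9
      · exact pow_ne_zero 3 h7 h9
    · exact h

end isog

section chain

/-- Pulling back torsion along a chain of isogenies. -/
theorem chain_TT (h2 : (2 : F) ≠ 0) {k n X : ℕ → F} {J : ℕ} (hc : Chain k n J)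
    (hX : ∀ i, i < J → X (i + 1) = Fn (n i) (X i)) (hJ : TT (k J) 1 (X J)) :
    TT (k 0) (J + 1) (X 0) := by
  have key : ∀ i, i ≤ J → TT (k (J - i)) (i + 1) (X (J - i)) := by
    intro i
    induction i with
    | zero => exact fun _ => hJ
    | succ i ih =>
      intro hi
      have h1 := ih (by omega)
      obtain ⟨j, hj⟩ : ∃ j, J = j + (i + 1) := ⟨J - (i + 1), by omega⟩
      have e1 : J - i = j + 1 := by omega
      have e2 : J - (i + 1) = j := by omega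
      rw [e1] at h1
      rw [e2]
      have hj' : j < J := by omega
      rw [hc.k2 j hj', hX j hj'] at h1
      rw [hc.k1 j hj']
      exact isog_TT h2 (hc.n0 j hj') (i + 1) (X j) (Or.inr h1)
  have h3 := key J le_rfl
  rwa [Nat.sub_self] at h3

variable [IsAlgClosed F]

theorem exists_Fn {n : F} (hn : n ≠ 0) (hn4 : n ^ 4 ≠ 1) (Z : F) :
    ∃ X : F, X + n ^ 2 ≠ 0 ∧ Fn n X = Z := by
  have hd : (Polynomial.C (n ^ 2) * Polynomial.X ^ 2 + Polynomial.C (1 - Z) * Polynomial.X +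
      Polynomial.C (-(n ^ 2 * Z)) : Polynomial F).degree ≠ 0 := by
    rw [Polynomial.degree_quadratic (pow_ne_zero 2 hn)]
    norm_num
  obtain ⟨X, hX⟩ := IsAlgClosed.exists_root _ hd
  have h1 : n ^ 2 * X ^ 2 + (1 - Z) * X + -(n ^ 2 * Z) = 0 := by
    have h2 : Polynomial.eval X (Polynomial.C (n ^ 2) * Polynomial.X ^ 2 +
      Polynomial.C (1 - Z) * Polynomial.X + Polynomial.C (-(n ^ 2 * Z))) = 0 := hX
    simpa using h2
  have h3 : X + n ^ 2 ≠ 0 := by
    intro h0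
    have h4 : X = -n ^ 2 := eq_neg_of_add_eq_zero_left h0
    rw [h4] at h1
    have h5 : n ^ 2 * (n ^ 4 - 1) = 0 := by linear_combination h1
    rcases mul_eq_zero.1 h5 with h6 | h6
    · exact pow_ne_zero 2 hn h6
    · exact hn4 (sub_eq_zero.1 h6)
  refine ⟨X, h3, ?_⟩
  unfold Fn
  rw [div_eq_iff h3]
  linear_combination h1

/-- Preimages along a chain of isogenies. -/
theorem exists_seq {n : ℕ → F} {J : ℕ} (hn : ∀ i, i < J → n i ≠ 0)
    (hn4 : ∀ i, i < J → n i ^ 4 ≠ 1) (Z : F) :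
    ∃ X : ℕ → F, X J = Z ∧ ∀ i, i < J → X (i + 1) = Fn (n i) (X i) := by
  induction J generalizing Z with
  | zero => exact ⟨fun _ => Z, rfl, fun i hi => absurd hi (Nat.not_lt_zero i)⟩
  | succ J ih =>
    obtain ⟨Z', -, hZ'⟩ := exists_Fn (hn J (by omega)) (hn4 J (by omega)) Z
    obtain ⟨X, hX1, hX2⟩ := ih (fun i hi => hn i (by omega)) (fun i hi => hn4 i (by omega)) Z'
    refine ⟨fun i => if i ≤ J then X i else Z, ?_, fun i hi => ?_⟩
    · simp
    · rcases Nat.lt_succ_iff_lt_or_eq.1 hi with h1 | h1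
      · simp only [show i + 1 ≤ J by omega, show i ≤ J by omega, if_true]
        exact hX2 i h1
      · subst h1
        simp only [le_refl, if_true, show ¬ i + 1 ≤ i by omega, if_false]
        rw [hX1, hZ']

end chain

section fix

variable [IsAlgClosed F]

theorem map_Fn (g : F →+* F) (n X : F) : g (Fn n X) = Fn (g n) (g X) := by
  unfold Fn
  simp only [map_div₀, map_mul, map_add, map_pow, map_one]

/-- An automorphism which fixes the roots with index `< J` and the first coordinates of the points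
annihilated by `2 ^ (J + 1)` fixes the square of the `J`-th root. -/
theorem fix_sq (h2 : (2 : F) ≠ 0) (g : F →+* F) {k n : ℕ → F} {J : ℕ} (hc : Chain k n (J + 1))
    (hn4 : ∀ i, i < J → n i ^ 4 ≠ 1) (hg : ∀ i, i < J → g (n i) = n i)
    (hT : ∀ X : F, TT (k 0) (J + 1) X → g X = X) : g (n J) ^ 2 = n J ^ 2 := by
  obtain ⟨X, hX1, hX2⟩ := exists_seq (J := J) (fun i hi => hc.n0 i (by omega)) hn4 (-n J ^ 2)
  have h1 : TT (k 0) (J + 1) (X 0) := by
    refine chain_TT h2 (hc.mono (Nat.le_succ J)) hX2 (Or.inl ?_)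
    rw [hX1, hc.k1 J (by omega), Mk_eq (hc.n0 J (by omega))]
    ring
  have h3 : ∀ i, i ≤ J → g (X i) = X i := by
    intro i
    induction i with
    | zero => exact fun _ => hT _ h1
    | succ i ih =>
      intro hi
      rw [hX2 i (by omega), map_Fn, ih (by omega), hg i (by omega)]
  have h4 := h3 J le_rfl
  rw [hX1, map_neg, map_pow] at h4
  exact neg_injective h4

end fix

end Pool.Agent.Run7.h770.PG
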